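import Pool.Agent.helper66.LE.Basic

/-!
# The BK inequality, Harris' inequality, Russo's formula
-/

open Finset Classical

namespace Pool.Agent.helper66.LE

variable {ι : Type*} {q : ℝ}

/-- disjoint occurrence of a relation between two configurations. -/
def DisR (R : Finset ι → Finset ι → Prop) (F : Finset ι) : Prop :=
  ∃ F₁ F₂ : Finset ι, F₁ ⊆ F ∧ F₂ ⊆ F ∧ Disjoint F₁ F₂ ∧ R F₁ F₂

theorem bk_aux (h0 : 0 ≤ q) (h1 : q ≤ 1) {x y z w p : Prop} (hp : p ↔ y ∨ z) (hxy : x → y) (hxz : x → z)
    (hyw : y → w) (hzw : z → w) :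
    (1 - q) * (if x then (1 : ℝ) else 0) + q * (if p then 1 else 0) ≤
      (1 - q) * ((1 - q) * (if x then 1 else 0) + q * (if z then 1 else 0)) +
        q * ((1 - q) * (if y then 1 else 0) + q * (if w then 1 else 0)) := by
  simp only [hp]
  by_cases hx : x
  · have hy := hxy hx
    have hz := hxz hx
    have hw := hyw hy
    simp only [hx, hy, hz, hw, if_true, or_self]
    nlinarith
  · by_cases hy : y
    · have hw := hyw hy
      by_cases hz : z
      · simp only [hx, hy, hz, hw, if_true, if_false, or_self]
        nlinarith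
      · simp only [hx, hy, hz, hw, if_true, if_false, or_false]
        nlinarith
    · by_cases hz : z
      · have hw := hzw hz
        simp only [hx, hy, hz, hw, if_true, if_false, false_or]
        nlinarith
      · by_cases hw : w
        · simp only [hx, hy, hz, hw, if_true, if_false, or_self]
          nlinarith
        · simp only [hx, hy, hz, hw, if_false, or_self]
          nlinarith

theorem bk_rel (h0 : 0 ≤ q) (h1 : q ≤ 1) (E : Finset ι) (R : Finset ι → Finset ι → Prop)
    (hR : ∀ F F' G G' : Finset ι, F ⊆ F' → G ⊆ G' → R F G → R F' G') :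
    Pr q E (DisR R) ≤ Ex q E (fun F => Ex q E (fun G => if R F G then 1 else 0)) := by
  induction E using Finset.induction_on generalizing R with
  | empty =>
    unfold Pr
    rw [Ex_empty, Ex_empty, Ex_empty]
    by_cases h : R ∅ ∅
    · rw [if_pos h]; split_ifs <;> norm_num
    · rw [if_neg h, if_neg]
      rintro ⟨F₁, F₂, h1, h2, -, h3⟩
      rw [Finset.subset_empty] at h1 h2
      rw [h1, h2] at h3
      exact h h3
  | insert e E he ih =>
    have hL : Pr q (insert e E) (DisR R) ≤ (1 - q) * Pr q E (DisR R) +
        q * Pr q E (DisR (fun F G => R (insert e F) G ∨ R F (insert e G))) := by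
      unfold Pr
      rw [Ex_insert he]
      refine add_le_add le_rfl (mul_le_mul_of_nonneg_left ?_ h0)
      refine Ex_mono h0 h1 fun F hF => ?_
      by_cases h : DisR R (insert e F)
      · rw [if_pos h, if_pos]
        obtain ⟨F₁, F₂, hF₁, hF₂, hd, hr⟩ := h
        by_cases he1 : e ∈ F₁
        · have he2 : e ∉ F₂ := fun h => (Finset.disjoint_left.1 hd he1 h)
          refine ⟨F₁.erase e, F₂, ?_, ?_, ?_, Or.inl ?_⟩
          · intro a ha
            have := hF₁ (Finset.mem_of_mem_erase ha)
            rcases Finset.mem_insert.1 this with h3 | h3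
            · exact absurd h3 (Finset.ne_of_mem_erase ha)
            · exact h3
          · intro a ha
            rcases Finset.mem_insert.1 (hF₂ ha) with h3 | h3
            · exact absurd (h3 ▸ ha) he2
            · exact h3
          · exact Finset.disjoint_of_subset_left (Finset.erase_subset _ _) hd
          · rwa [Finset.insert_erase he1]
        · refine ⟨F₁, F₂.erase e, ?_, ?_, ?_, Or.inr ?_⟩
          · intro a ha
            rcases Finset.mem_insert.1 (hF₁ ha) with h3 | h3
            · exact absurd (h3 ▸ ha) he1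
            · exact h3
          · intro a ha
            have := hF₂ (Finset.mem_of_mem_erase ha)
            rcases Finset.mem_insert.1 this with h3 | h3
            · exact absurd h3 (Finset.ne_of_mem_erase ha)
            · exact h3
          · exact Finset.disjoint_of_subset_right (Finset.erase_subset _ _) hd
          · refine hR _ _ _ _ (Finset.Subset.refl _) ?_ hr
            exact Finset.subset_insert_iff.2 (Finset.Subset.refl _)
      · rw [if_neg h]; split_ifs <;> norm_num
    refine hL.trans ?_
    have i0 := ih R hR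
    have i1 := ih (fun F G => R (insert e F) G ∨ R F (insert e G)) (by
      rintro F F' G G' hF hG (h | h)
      · exact Or.inl (hR _ _ _ _ (Finset.insert_subset_insert _ hF) hG h)
      · exact Or.inr (hR _ _ _ _ hF (Finset.insert_subset_insert _ hG) h))
    refine (add_le_add (mul_le_mul_of_nonneg_left i0 (by linarith))
      (mul_le_mul_of_nonneg_left i1 h0)).trans ?_
    rw [Ex_insert he]
    simp only [Ex_insert he]
    rw [← Ex_const_mul, ← Ex_const_mul, ← Ex_const_mul, ← Ex_const_mul, ← Ex_add, ← Ex_add]
    refine Ex_mono h0 h1 fun F _ => ?_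
    simp only [← Ex_const_mul, ← Ex_add]
    refine Ex_mono h0 h1 fun G _ => ?_
    have := bk_aux (q := q) h0 h1 (x := R F G) (y := R (insert e F) G) (z := R F (insert e G))
      (w := R (insert e F) (insert e G)) Iff.rfl
      (hR _ _ _ _ (Finset.subset_insert _ _) (Finset.Subset.refl _))
      (hR _ _ _ _ (Finset.Subset.refl _) (Finset.subset_insert _ _))
      (hR _ _ _ _ (Finset.Subset.refl _) (Finset.subset_insert _ _))
      (hR _ _ _ _ (Finset.subset_insert _ _) (Finset.Subset.refl _))
    linarith

/-- The van den Berg-Kesten inequality for increasing events. -/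
theorem bk (h0 : 0 ≤ q) (h1 : q ≤ 1) (E : Finset ι) {A B : Finset ι → Prop} (hA : Inc A) (hB : Inc B) :
    Pr q E (Dis A B) ≤ Pr q E A * Pr q E B := by
  have h := bk_rel h0 h1 E (fun F G => A F ∧ B G)
    (fun F F' G G' hF hG h => ⟨hA _ _ hF h.1, hB _ _ hG h.2⟩)
  refine le_trans (le_of_eq rfl) (h.trans (le_of_eq ?_))
  unfold Pr
  rw [← Ex_mul_const]
  refine Ex_congr fun F _ => ?_
  rw [← Ex_const_mul]
  refine Ex_congr fun G _ => ?_
  by_cases hA : A F <;> by_cases hB : B G <;> simp [hA, hB]

theorem inc_dis {A B : Finset ι → Prop} : Inc (Dis A B) := by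
  rintro F F' h ⟨F₁, F₂, h1, h2, h3, h4, h5⟩
  exact ⟨F₁, F₂, h1.trans h, h2.trans h, h3, h4, h5⟩

/-- Harris' inequality for increasing functions. -/
theorem harris (h0 : 0 ≤ q) (h1 : q ≤ 1) (E : Finset ι) {f g : Finset ι → ℝ}
    (hf : ∀ F F' : Finset ι, F ⊆ F' → f F ≤ f F') (hg : ∀ F F' : Finset ι, F ⊆ F' → g F ≤ g F') :
    Ex q E f * Ex q E g ≤ Ex q E (fun F => f F * g F) := by
  induction E using Finset.induction_on generalizing f g with
  | empty => simp
  | insert e E he ih =>
    rw [Ex_insert he, Ex_insert he, Ex_insert he]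
    have a := ih hf hg
    have hf' : ∀ F F' : Finset ι, F ⊆ F' → f (insert e F) ≤ f (insert e F') :=
      fun F F' h => hf _ _ (Finset.insert_subset_insert _ h)
    have hg' : ∀ F F' : Finset ι, F ⊆ F' → g (insert e F) ≤ g (insert e F') :=
      fun F F' h => hg _ _ (Finset.insert_subset_insert _ h)
    have b := ih hf' hg'
    have c : Ex q E f ≤ Ex q E (fun F => f (insert e F)) :=
      Ex_mono h0 h1 fun F _ => hf _ _ (Finset.subset_insert _ _)
    have d : Ex q E g ≤ Ex q E (fun F => g (insert e F)) :=
      Ex_mono h0 h1 fun F _ => hg _ _ (Finset.subset_insert _ _)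
    nlinarith [mul_nonneg (mul_nonneg h0 (sub_nonneg.2 h1)) (mul_nonneg (sub_nonneg.2 c) (sub_nonneg.2 d)),
      mul_le_mul_of_nonneg_left a (sub_nonneg.2 h1), mul_le_mul_of_nonneg_left b h0]

/-- Harris for two increasing events. -/
theorem harris_inc (h0 : 0 ≤ q) (h1 : q ≤ 1) (E : Finset ι) {A B : Finset ι → Prop} (hA : Inc A) (hB : Inc B) :
    Pr q E A * Pr q E B ≤ Pr q E (fun F => A F ∧ B F) := by
  have aux : ∀ {C : Finset ι → Prop}, Inc C → ∀ F F' : Finset ι, F ⊆ F' →
      (if C F then (1 : ℝ) else 0) ≤ if C F' then 1 else 0 := by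
    intro C hC F F' h
    by_cases hF : C F
    · rw [if_pos hF, if_pos (hC _ _ h hF)]
    · rw [if_neg hF]; split_ifs <;> norm_num
  refine (harris h0 h1 E (aux hA) (aux hB)).trans (le_of_eq ?_)
  refine Ex_congr fun F _ => ?_
  by_cases hA : A F <;> by_cases hB : B F <;> simp [hA, hB]

theorem continuous_Ex (E : Finset ι) (f : Finset ι → ℝ) : Continuous (fun q => Ex q E f) := by
  unfold Ex wt
  refine continuous_finsetSum _ fun F _ => ?_
  refine Continuous.mul (continuous_finsetProd _ fun e _ => ?_) continuous_const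
  by_cases h : e ∈ F
  · simp only [h, if_true]; exact continuous_id
  · simp only [h, if_false]; exact continuous_const.sub continuous_id

theorem continuous_Pr (E : Finset ι) (A : Finset ι → Prop) : Continuous (fun q => Pr q E A) :=
  continuous_Ex E _

/-- Russo's formula. -/
theorem russo_c (q : ℝ) (E : Finset ι) (f : Finset ι → ℝ) :
    HasDerivAt (fun q => Ex q E f)
      (∑ e ∈ E, Ex q E (fun F => f (insert e F) - f (F.erase e))) q := by
  induction E using Finset.induction_on generalizing f with
  | empty =>
    simp only [Finset.sum_empty, Ex_empty]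
    exact hasDerivAt_const _ _
  | insert e E he ih =>
    have h := ((hasDerivAt_const q (1 : ℝ)).sub (hasDerivAt_id q)).mul (ih f)
    have h' := (hasDerivAt_id q).mul (ih (fun F => f (insert e F)))
    have h'' := h.add h'
    have hfun : (fun q => Ex q (insert e E) f) =
        ((fun _ => (1:ℝ)) - id) * (fun q => Ex q E f) + id * (fun q => Ex q E (fun F => f (insert e F))) := by
      funext r
      simp only [Pi.add_apply, Pi.mul_apply, Pi.sub_apply, id]
      exact Ex_insert he r f
    rw [hfun]
    refine h''.congr_deriv ?_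
    rw [Finset.sum_insert he]
    have e1 : Ex q (insert e E) (fun F => f (insert e F) - f (F.erase e)) =
        Ex q E (fun F => f (insert e F)) - Ex q E f := by
      rw [Ex_insert he, ← Ex_sub]
      have a1 : Ex q E (fun F => f (insert e F) - f (F.erase e)) =
          Ex q E (fun F => f (insert e F) - f F) :=
        Ex_congr fun F hF => by rw [Finset.erase_eq_of_notMem (fun h => he (hF h))]
      have a2 : Ex q E (fun F => f (insert e (insert e F)) - f ((insert e F).erase e)) =
          Ex q E (fun F => f (insert e F) - f F) :=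
        Ex_congr fun F hF => by
          rw [Finset.insert_idem, Finset.erase_insert (fun h => he (hF h))]
      rw [a1, a2]; ring
    have e2 : ∑ a ∈ E, Ex q (insert e E) (fun F => f (insert a F) - f (F.erase a)) =
        (1 - q) * ∑ a ∈ E, Ex q E (fun F => f (insert a F) - f (F.erase a)) +
          q * ∑ a ∈ E, Ex q E (fun F => f (insert e (insert a F)) - f (insert e (F.erase a))) := by
      rw [Finset.mul_sum, Finset.mul_sum, ← Finset.sum_add_distrib]
      refine Finset.sum_congr rfl fun a ha => ?_
      have hae : a ≠ e := fun h => he (h ▸ ha)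
      rw [Ex_insert he]
      congr 2
      refine Ex_congr fun F _ => ?_
      rw [Finset.insert_comm, Finset.erase_insert_of_ne (Ne.symm hae)]
    rw [e1, e2]
    simp only [Pi.sub_apply, id]
    ring

/-- `Ex` is increasing in `q` for increasing functions. -/
theorem Ex_mono_q (E : Finset ι) {f : Finset ι → ℝ} (hf : ∀ F F' : Finset ι, F ⊆ F' → f F ≤ f F')
    {q q' : ℝ} (h0 : 0 ≤ q) (h : q ≤ q') (h1 : q' ≤ 1) : Ex q E f ≤ Ex q' E f := by
  have hm : MonotoneOn (fun q => Ex q E f) (Set.Icc 0 1) := by
    refine monotoneOn_of_deriv_nonneg (convex_Icc 0 1) (continuous_Ex E f).continuousOn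
      (fun x _ => (russo_c x E f).differentiableAt.differentiableWithinAt) ?_
    intro x hx
    rw [interior_Icc] at hx
    rw [(russo_c x E f).deriv]
    refine Finset.sum_nonneg fun e _ => Ex_nonneg hx.1.le hx.2.le fun F _ => ?_
    exact sub_nonneg.2 (hf _ _ ((Finset.erase_subset _ _).trans (Finset.subset_insert _ _)))
  exact hm ⟨h0, h.trans h1⟩ ⟨h0.trans h, h1⟩ h

theorem Pr_mono_q (E : Finset ι) {A : Finset ι → Prop} (hA : Inc A) {q q' : ℝ} (h0 : 0 ≤ q)
    (h : q ≤ q') (h1 : q' ≤ 1) : Pr q E A ≤ Pr q' E A := by
  refine Ex_mono_q E ?_ h0 h h1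
  intro F F' hF
  by_cases hx : A F
  · rw [if_pos hx, if_pos (hA _ _ hF hx)]
  · rw [if_neg hx]; split_ifs <;> norm_num

/-- Russo's formula, for an arbitrary decidability instance. -/
theorem russo [DecidableEq ι] (q : ℝ) (E : Finset ι) (f : Finset ι → ℝ) :
    HasDerivAt (fun q => Ex q E f)
      (∑ e ∈ E, Ex q E (fun F => f (insert e F) - f (F.erase e))) q := by
  have := Subsingleton.elim ‹DecidableEq ι› (fun a b => propDecidable (a = b))
  subst this
  exact russo_c q E f

end Pool.Agent.helper66.LE
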