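import Pool.Agent.helper66.LE.Defs2
import Pool.Agent.helper64.LE.Defs

/-!
# Part C (upper bound for the time constant): definitions
-/

open Finset Classical MeasureTheory Filter Topology

namespace Pool.Agent.helper66.LE

/-- a path with at most `k` edges which are not in `F` from the set `A` to the set `B`. -/
def PTS {V : Type*} (E F : Finset (Sym2 V)) (k : ℕ) (A B : Set V) : Prop :=
  ∃ a ∈ A, ∃ b ∈ B, PT E F k a b

/-- the cluster of `v` reaches distance more than `ρ` in the direction `i` on the torus. -/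
def farE {d L : ℕ} [NeZero L] (i : Fin d) (ρ : ℝ) (v : Tor d L) (F : Finset (Sym2 (Tor d L))) : Prop :=
  ∃ x, ρ < ab i (x - v) ∧ Conn F v x

/-- the sign attached to a boolean. -/
def sgn (b : Bool) : ℤ := if b then 1 else -1

/-- the piece of the boundary of the box `[-r, r]^d` with `y i = ± r` (sign of `σ i`) in the quadrant `σ`. -/
def fq (d r : ℕ) (i : Fin d) (σ : Fin d → Bool) : Set (Fin d → ℤ) :=
  {y | y i = sgn (σ i) * r ∧ ∀ j, 0 ≤ sgn (σ j) * y j ∧ sgn (σ j) * y j ≤ r}

/-- the boundary of the box `[-r, r]^d`. -/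
def bd (d r : ℕ) : Set (Fin d → ℤ) := {y | y ∈ box d r ∧ ∃ i, |y i| = r}

/-- from the neighbourhood `x + [-s, s]^d` one can reach each piece `x + fq d r i σ` with at most `k` closed
edges. -/
def Stp {d : ℕ} (E F : Finset (Sym2 (Fin d → ℤ))) (k s r : ℕ) (x : Fin d → ℤ) : Prop :=
  ∀ i σ, PTS E F k {y | y - x ∈ box d s} {y | y - x ∈ fq d r i σ}

/-- the solution of the recursion of the steering argument. -/
def hopK (d j₀ k : ℕ) : ℕ → ℕ
  | 0 => d
  | j + 1 => if j + 1 ≤ j₀ then d * 2 ^ (j + 1) else hopK d j₀ k j + d * (hopK d j₀ k (j / 2) + k)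
decreasing_by all_goals omega

end Pool.Agent.helper66.LE
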