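import Pool.Agent.helper66.LE.GB

/-!
# Symmetries and elementary properties of the two-point function
-/

open Finset Classical

namespace Pool.Agent.helper66.LE

theorem conn_image_equiv {V W : Type*} (e : V ≃ W) (F : Finset (Sym2 V)) (x y : V) :
    Conn (F.image (Sym2.map e)) (e x) (e y) ↔ Conn F x y := by
  constructor
  · intro h
    have h2 := Conn.image e.symm h
    rw [Finset.image_image, ← Sym2.map_comp] at h2
    simpa using h2
  · exact fun h => Conn.image e h

/-- invariance of the percolation under an automorphism of the graph. -/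
theorem pr_conn_equiv {V : Type*} (q : ℝ) (E : Finset (Sym2 V)) (e : V ≃ V) (he : E.image (Sym2.map e) = E)
    (x y : V) : Pr q E (fun F => Conn F (e x) (e y)) = Pr q E (fun F => Conn F x y) := by
  unfold Pr
  conv_lhs => rw [← he]
  rw [Ex_image _ ((Sym2.map.injective e.injective).injOn)]
  refine Ex_congr fun F _ => ?_
  simp only [conn_image_equiv e F x y]

section TI
variable {G : Type*} [AddCommGroup G] [Fintype G] {q : ℝ} {S : Finset G}

theorem mem_cay' (u w : G) : s(u, w) ∈ cay S ↔ w - u ∈ S ∨ u - w ∈ S := by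
  unfold cay
  simp only [Finset.mem_image, Finset.mem_product, Finset.mem_univ, true_and, Prod.exists, Sym2.eq_iff]
  constructor
  · rintro ⟨a, s, hs, ⟨rfl, rfl⟩ | ⟨rfl, rfl⟩⟩
    · left; simpa using hs
    · right; simpa using hs
  · rintro (h | h)
    · exact ⟨u, w - u, h, Or.inl ⟨rfl, by abel⟩⟩
    · exact ⟨w, u - w, h, Or.inr ⟨rfl, by abel⟩⟩

theorem mem_cay (hS : ∀ s ∈ S, -s ∈ S) (u w : G) : s(u, w) ∈ cay S ↔ w - u ∈ S := by
  rw [mem_cay']
  constructor
  · rintro (h | h)
    · exact h
    · have := hS _ h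
      rwa [neg_sub] at this
  · exact Or.inl

theorem cay_image (S : Finset G) (e : G ≃ G) (he : ∀ x y, y - x ∈ S ↔ e y - e x ∈ S) :
    (cay S).image (Sym2.map e) = cay S := by
  ext a
  induction a using Sym2.ind with
  | _ u w =>
    rw [Finset.mem_image]
    constructor
    · rintro ⟨b, hb, hbe⟩
      induction b using Sym2.ind with
      | _ x y =>
        rw [mem_cay'] at hb
        rw [Sym2.map_mk, Sym2.eq_iff] at hbe
        rw [mem_cay']
        rcases hbe with ⟨rfl, rfl⟩ | ⟨rfl, rfl⟩
        · rw [← he, ← he]; exact hb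
        · rw [← he, ← he]; exact hb.symm
    · intro h
      refine ⟨s(e.symm u, e.symm w), ?_, by simp⟩
      rw [mem_cay'] at h ⊢
      rw [he (e.symm u) (e.symm w), he (e.symm w) (e.symm u)]
      simpa using h

theorem tau_sub (q : ℝ) (S : Finset G) (x y : G) :
    Pr q (cay S) (fun F => Conn F x y) = tau q S (y - x) := by
  have h := pr_conn_equiv q (cay S) (Equiv.subRight x) (cay_image S _ (by intro a b; simp)) x y
  rw [← h]
  simp [tau]

theorem tau_neg (q : ℝ) (S : Finset G) (x : G) : tau q S (-x) = tau q S x := by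
  have h1 := tau_sub q S x 0
  rw [zero_sub] at h1
  rw [← h1]
  unfold tau
  refine Pr_congr fun F _ => conn_comm

theorem tau_map (q : ℝ) (S : Finset G) (φ : G ≃+ G) (hφ : S.image φ = S) (x : G) :
    tau q S (φ x) = tau q S x := by
  have hmem : ∀ a, a ∈ S ↔ φ a ∈ S := by
    intro a
    constructor
    · intro h
      rw [← hφ]
      exact Finset.mem_image_of_mem _ h
    · intro h
      rw [← hφ, Finset.mem_image] at h
      obtain ⟨b, hb, hba⟩ := h
      rwa [← φ.injective hba]
  have h := pr_conn_equiv q (cay S) φ.toEquiv (cay_image S _ (by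
    intro a b
    rw [hmem]
    simp)) 0 x
  unfold tau
  rw [← h]
  simp

theorem tau_zero (q : ℝ) (S : Finset G) : tau q S 0 = 1 := Pr_true q _ fun _ _ => conn_refl _ _

theorem tau_nonneg (h0 : 0 ≤ q) (h1 : q ≤ 1) (S : Finset G) (x : G) : 0 ≤ tau q S x := Pr_nonneg h0 h1 _ _

theorem tau_le_one (h0 : 0 ≤ q) (h1 : q ≤ 1) (S : Finset G) (x : G) : tau q S x ≤ 1 := Pr_le_one h0 h1 _ _

theorem tau_mono {q q' : ℝ} (h0 : 0 ≤ q) (h : q ≤ q') (h1 : q' ≤ 1) (S : Finset G) (x : G) :
    tau q S x ≤ tau q' S x := Pr_mono_q _ (inc_conn _ _) h0 h h1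

/-- first step of a connection. -/
theorem tau_le_step (h0 : 0 ≤ q) (h1 : q ≤ 1) (hS : ∀ s ∈ S, -s ∈ S) {x : G} (hx : x ≠ 0) :
    tau q S x ≤ q * conv (J S) (tau q S) x := by
  have h2 : tau q S x ≤ Pr q (cay S) (fun F => ∃ s ∈ S, s(0, s) ∈ F ∧ Conn (F.erase s(0, s)) s x) := by
    refine Pr_mono h0 h1 fun F hF h => ?_
    obtain ⟨u, hu, w, hw, he, F₁, F₂, hF₁, hF₂, -, -, h5, -, -, h8⟩ := conn_exit {(0 : G)} h rfl
      (by simpa using hx)
    rw [Set.mem_singleton_iff] at hu
    subst hu
    have hws : w ∈ S := by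
      have := (mem_cay hS _ _).1 (hF he)
      simpa using this
    refine ⟨w, hws, he, h8.mono ?_⟩
    intro a ha
    exact Finset.mem_erase.2 ⟨fun h => h5 (h ▸ ha), hF₂ ha⟩
  refine h2.trans ((Pr_exists_le h0 h1 _ S _).trans ?_)
  have h3 : q * conv (J S) (tau q S) x = ∑ s ∈ S, q * tau q S (x - s) := by
    unfold conv J
    rw [Finset.mul_sum]
    simp only [ite_mul, one_mul, zero_mul, mul_ite, mul_zero]
    rw [← Finset.sum_filter]
    simp
  rw [h3]
  refine Finset.sum_le_sum fun s hs => ?_
  have he : s((0 : G), s) ∈ cay S := (mem_cay hS _ _).2 (by simpa using hs)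
  have h4 : Pr q (cay S) (fun F => s(0, s) ∈ F ∧ Conn (F.erase s(0, s)) s x) =
      Ex q (cay S) (fun F => if s(0, s) ∈ F then (if Conn (F.erase s(0, s)) s x then 1 else 0) else 0) := by
    refine Ex_congr fun F _ => ?_
    by_cases h : s(0, s) ∈ F <;> by_cases h' : Conn (F.erase s(0, s)) s x <;> simp [h, h']
  rw [h4, Ex_open he q (fun F => if Conn F s x then 1 else 0), ← tau_sub]
  refine mul_le_mul_of_nonneg_left ?_ h0
  refine Ex_mono h0 h1 fun F _ => ?_
  by_cases h : Conn (F.erase s(0, s)) s x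
  · rw [if_pos h, if_pos (h.mono (Finset.erase_subset _ _))]
  · rw [if_neg h]; split_ifs <;> norm_num

end TI

section TIt
variable {d L : ℕ} [NeZero L] {q : ℝ}

theorem mem_uv (d : ℕ) (R : Type*) [Ring R] (x : Fin d → R) :
    x ∈ uv d R ↔ ∃ i, x = Pi.single i 1 ∨ x = Pi.single i (-1) := by
  unfold uv
  simp only [Finset.mem_image, Finset.mem_univ, true_and, Prod.exists, Bool.exists_bool, Bool.false_eq_true,
    if_false, if_true]
  constructor
  · rintro ⟨i, h | h⟩
    · exact ⟨i, Or.inr h.symm⟩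
    · exact ⟨i, Or.inl h.symm⟩
  · rintro ⟨i, h | h⟩
    · exact ⟨i, Or.inr h.symm⟩
    · exact ⟨i, Or.inl h.symm⟩

theorem uv_neg (d : ℕ) (R : Type*) [Ring R] : ∀ s ∈ uv d R, -s ∈ uv d R := by
  intro s hs
  rw [mem_uv] at hs ⊢
  obtain ⟨i, rfl | rfl⟩ := hs
  · exact ⟨i, Or.inr (by rw [Pi.single_neg])⟩
  · exact ⟨i, Or.inl (by rw [Pi.single_neg, neg_neg])⟩

theorem TI_one_ne_zero {L : ℕ} (hL : 3 ≤ L) : (1 : ZMod L) ≠ 0 := by
  have : Fact (1 < L) := ⟨by omega⟩
  exact one_ne_zero

theorem TI_one_ne_neg {L : ℕ} (hL : 3 ≤ L) : (1 : ZMod L) ≠ -1 := by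
  intro h
  have h2 : ((2 : ℕ) : ZMod L) = 0 := by
    have : (1 : ZMod L) + 1 = 0 := by
      nth_rewrite 2 [h]
      ring
    push_cast
    rw [← one_add_one_eq_two]
    exact this
  rw [ZMod.natCast_eq_zero_iff] at h2
  exact absurd (Nat.le_of_dvd (by norm_num) h2) (by omega)

theorem zero_notMem_uv (d : ℕ) {L : ℕ} (hL : 3 ≤ L) : (0 : Tor d L) ∉ uv d (ZMod L) := by
  rw [mem_uv]
  rintro ⟨i, h | h⟩
  · have := congrFun h i
    rw [Pi.single_eq_same] at this
    exact TI_one_ne_zero hL this.symm
  · have := congrFun h i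
    rw [Pi.single_eq_same] at this
    have h2 : (1 : ZMod L) = 0 := by
      have := congrArg Neg.neg this
      simpa using this.symm
    exact TI_one_ne_zero hL h2

theorem card_uv (d : ℕ) {L : ℕ} (hL : 3 ≤ L) : (uv d (ZMod L)).card = 2 * d := by
  have h1 : uv d (ZMod L) = univ.image (fun p : Fin d × Bool =>
      (Pi.single p.1 (if p.2 then (1 : ZMod L) else -1) : Fin d → ZMod L)) := by
    ext x
    unfold uv
    simp only [Finset.mem_image]
  rw [h1, Finset.card_image_of_injective]
  · simp [mul_comm]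
  · rintro ⟨i, a⟩ ⟨j, b⟩ h
    simp only at h
    have hne : ∀ c : Bool, (if c then (1 : ZMod L) else -1) ≠ 0 := by
      intro c
      cases c
      · simpa using TI_one_ne_zero hL
      · simpa using TI_one_ne_zero hL
    have hij : i = j := by
      by_contra hij
      have h1 := congrFun h i
      rw [Pi.single_eq_same, Pi.single_eq_of_ne hij] at h1
      exact hne _ h1
    subst hij
    have h1 := congrFun h i
    rw [Pi.single_eq_same, Pi.single_eq_same] at h1
    congr 1
    cases a <;> cases b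
    · rfl
    · exact absurd h1.symm (by simpa using TI_one_ne_neg hL)
    · exact absurd h1 (by simpa using TI_one_ne_neg hL)
    · rfl

/-- the reflection of the `i`-th coordinate. -/
def TI_refl (R : Type*) [Ring R] (i : Fin d) : (Fin d → R) ≃+ (Fin d → R) where
  toFun x := Function.update x i (-(x i))
  invFun x := Function.update x i (-(x i))
  left_inv x := by
    funext j
    by_cases h : j = i
    · subst h; simp
    · simp [h]
  right_inv x := by
    funext j
    by_cases h : j = i
    · subst h; simp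
    · simp [h]
  map_add' x y := by
    funext j
    by_cases h : j = i
    · subst h; simp [add_comm]
    · simp [h]

theorem TI_refl_apply (R : Type*) [Ring R] (i : Fin d) (x : Fin d → R) :
    TI_refl R i x = Function.update x i (-(x i)) := rfl

theorem uv_image_refl (R : Type*) [Ring R] (i : Fin d) : (uv d R).image (TI_refl R i) = uv d R := by
  have hsub : ∀ x ∈ uv d R, TI_refl R i x ∈ uv d R := by
    intro x hx
    rw [mem_uv] at hx ⊢
    rw [TI_refl_apply]
    obtain ⟨j, h⟩ := hx
    by_cases hij : i = j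
    · subst hij
      rcases h with rfl | rfl
      · refine ⟨i, Or.inr ?_⟩
        funext k
        by_cases hk : k = i
        · subst hk; simp
        · simp [hk]
      · refine ⟨i, Or.inl ?_⟩
        funext k
        by_cases hk : k = i
        · subst hk; simp
        · simp [hk]
    · refine ⟨j, ?_⟩
      have : Function.update x i (-(x i)) = x := by
        have h0 : x i = 0 := by
          rcases h with rfl | rfl <;> simp [Pi.single_eq_of_ne hij]
        funext k
        by_cases hk : k = i
        · subst hk; simp [h0]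
        · simp [hk]
      rw [this]
      exact h
  refine Finset.Subset.antisymm ?_ ?_
  · intro x hx
    obtain ⟨y, hy, rfl⟩ := Finset.mem_image.1 hx
    exact hsub y hy
  · intro x hx
    refine Finset.mem_image.2 ⟨TI_refl R i x, hsub x hx, ?_⟩
    exact (TI_refl R i).left_inv x

theorem tt_reflect (i : Fin d) (x : Tor d L) :
    tt d L q (Function.update x i (-(x i))) = tt d L q x :=
  tau_map q (uv d (ZMod L)) (TI_refl (ZMod L) i) (by
    have := uv_image_refl (ZMod L) i
    rw [← Finset.coe_inj, coe_image_i] at this ⊢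
    exact this) x

theorem one_le_chi (h0 : 0 ≤ q) (h1 : q ≤ 1) : 1 ≤ chi d L q := by
  unfold chi
  rw [← tau_zero q (uv d (ZMod L))]
  exact Finset.single_le_sum (f := fun x => tt d L q x) (fun _ _ => tau_nonneg h0 h1 _ _) (Finset.mem_univ 0)

theorem chi_mono {q q' : ℝ} (h0 : 0 ≤ q) (h : q ≤ q') (h1 : q' ≤ 1) : chi d L q ≤ chi d L q' :=
  Finset.sum_le_sum fun _ _ => tau_mono h0 h h1 _ _

end TIt

end Pool.Agent.helper66.LE
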