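import Pool.Agent.helper66.LE.RU

/-!
# Lower bound for the derivative of the susceptibility
-/

open Finset Classical

namespace Pool.Agent.helper66.LE

section DLgraph
variable {V : Type*}

/-- Splitting a path at one of its vertices. -/
theorem DL_split {E : Set (Sym2 V)} {o z y : V} (p : (SimpleGraph.fromEdgeSet E).Walk o z) (hp : p.IsPath)
    (hy : y ∈ p.support) : ∃ F₁ F₂ : Finset (Sym2 V), (∀ e ∈ F₁, e ∈ p.edges) ∧ (∀ e ∈ F₂, e ∈ p.edges) ∧
      Disjoint F₁ F₂ ∧ Conn F₁ o y ∧ Conn F₂ y z := by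
  have hspec := p.take_spec hy
  have htrail : p.edges.Nodup := hp.isTrail.edges_nodup
  have hed : p.edges = (p.takeUntil y hy).edges ++ (p.dropUntil y hy).edges := by
    conv_lhs => rw [← hspec]
    exact SimpleGraph.Walk.edges_append _ _
  rw [hed, List.nodup_append] at htrail
  refine ⟨(p.takeUntil y hy).edges.toFinset, (p.dropUntil y hy).edges.toFinset, ?_, ?_, ?_, ?_, ?_⟩
  · intro e he
    rw [hed, List.mem_append]
    exact Or.inl (List.mem_toFinset.1 he)
  · intro e he
    rw [hed, List.mem_append]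
    exact Or.inr (List.mem_toFinset.1 he)
  · rw [Finset.disjoint_left]
    intro e he he'
    exact htrail.2.2 e (List.mem_toFinset.1 he) e (List.mem_toFinset.1 he') rfl
  · exact conn_of_walk _ fun e he => List.mem_toFinset.2 he
  · exact conn_of_walk _ fun e he => List.mem_toFinset.2 he

theorem DL_edges {F : Finset (Sym2 V)} {x y : V}
    (p : (SimpleGraph.fromEdgeSet (F : Set (Sym2 V))).Walk x y) : ∀ e ∈ p.edges, e ∈ F := by
  intro e he
  have := p.edges_subset_edgeSet he
  rw [SimpleGraph.edgeSet_fromEdgeSet] at this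
  exact_mod_cast this.1

/-- The tree graph decomposition. -/
theorem tree_dis {F : Finset (Sym2 V)} {o u z : V} (h : Conn F o u) (h' : Conn F o z) :
    ∃ y, Dis (fun F => Conn F o y) (Dis (fun F => Conn F y u) (fun F => Conn F y z)) F := by
  obtain ⟨p, hp⟩ := exists_trail h'
  by_cases hu : u ∈ p.support
  · obtain ⟨F₁, F₂, h1, h2, h3, h4, h5⟩ := DL_split p hp hu
    exact ⟨u, F₁, F₂, fun e he => DL_edges p e (h1 e he), fun e he => DL_edges p e (h2 e he), h3, h4,
      ∅, F₂, by simp, le_rfl, by simp, conn_refl _ _, h5⟩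
  · obtain ⟨a, ha, y, hy, he, G₁, G₂, hG₁, -, -, -, -, h6, h7, -⟩ := conn_exit {v | v ∉ p.support} h.symm hu
      (fun h => h p.start_mem_support)
    have hys : y ∈ p.support := not_not.1 hy
    obtain ⟨F₁, F₂, h1, h2, h3, h4, h5⟩ := DL_split p hp hys
    have hdis : ∀ e ∈ p.edges, e ∉ insert s(a, y) G₁ := by
      intro e he hG
      rcases Finset.mem_insert.1 hG with rfl | hG
      · exact ha (p.fst_mem_support_of_mem_edges he)
      · induction e using Sym2.ind with
        | _ b c => exact h6 _ hG b (by simp) (p.fst_mem_support_of_mem_edges he)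
    refine ⟨y, F₁, insert s(a, y) G₁ ∪ F₂, fun e he => DL_edges p e (h1 e he), ?_, ?_, h4,
      insert s(a, y) G₁, F₂, Finset.subset_union_left, Finset.subset_union_right, ?_, ?_, h5⟩
    · intro e he'
      rcases Finset.mem_union.1 he' with h | h
      · rcases Finset.mem_insert.1 h with rfl | h
        · exact he
        · exact hG₁ h
      · exact DL_edges p e (h2 e h)
    · rw [Finset.disjoint_left]
      intro e he1 he2
      rcases Finset.mem_union.1 he2 with h | h
      · exact hdis e (h1 e he1) h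
      · exact Finset.disjoint_left.1 h3 he1 h
    · rw [Finset.disjoint_left]
      intro e he1 he2
      exact hdis e (h2 e he2) he1
    · exact ((h7.mono (Finset.subset_insert _ _)).trans (conn_of_mem (Finset.mem_insert_self _ _))).symm

/-- A connection which does not exist off `C` goes through a point of `C`. -/
theorem thr_dis {F : Finset (Sym2 V)} {C : Set V} {w x : V} (h : Conn F w x) (h' : ¬ ConnOff F C w x) :
    ∃ z ∈ C, Dis (fun F => Conn F w z) (fun F => Conn F z x) F := by
  obtain ⟨p, hp⟩ := exists_trail h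
  by_cases hC : ∃ z ∈ p.support, z ∈ C
  · obtain ⟨z, hz, hzC⟩ := hC
    obtain ⟨F₁, F₂, h1, h2, h3, h4, h5⟩ := DL_split p hp hz
    exact ⟨z, hzC, F₁, F₂, fun e he => DL_edges p e (h1 e he), fun e he => DL_edges p e (h2 e he), h3, h4, h5⟩
  · exfalso
    push Not at hC
    refine h' ⟨hC _ p.start_mem_support, hC _ p.end_mem_support, conn_of_walk p fun e he => ?_⟩
    refine Finset.mem_filter.2 ⟨DL_edges p e he, ?_⟩
    induction e using Sym2.ind with
    | _ b c =>
      intro a ha
      rw [Sym2.mem_iff] at ha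
      rcases ha with rfl | rfl
      · exact hC _ (p.fst_mem_support_of_mem_edges he)
      · exact hC _ (p.snd_mem_support_of_mem_edges he)

/-- The event in the derivative, in terms of the cluster of `o`. -/
theorem DL_event {F : Finset (Sym2 V)} {o u w x : V} :
    (Conn F o u ∧ Conn F w x ∧ ¬ Conn F o x) ↔ (Conn F o u ∧ ConnOff F (clus F o) w x) := by
  constructor
  · rintro ⟨h1, h2, h3⟩
    refine ⟨h1, fun h => h3 (Conn.trans h h2), h3, ?_⟩
    have : x ∈ {y | ¬ Conn F o y ∧ Conn (off F (clus F o)) w y} := by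
      refine h2.mem_of_closed ?_ ⟨fun h => h3 (h.trans h2), conn_refl _ _⟩
      rintro a b hab ⟨h4, h5⟩
      have h6 : ¬ Conn F o b := fun h => h4 (h.trans (conn_of_mem hab).symm)
      refine ⟨h6, h5.trans (conn_of_mem (Finset.mem_filter.2 ⟨hab, ?_⟩))⟩
      intro v hv
      rw [Sym2.mem_iff] at hv
      rcases hv with rfl | rfl
      · exact h4
      · exact h6
    exact this.2
  · rintro ⟨h1, -, h3, h4⟩
    exact ⟨h1, h4.mono (Finset.filter_subset _ _), h3⟩

end DLgraph

section DL
variable {G : Type*} [AddCommGroup G] [Fintype G] {q : ℝ} {S : Finset G}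

theorem DL_tree (h0 : 0 ≤ q) (h1 : q ≤ 1) (u z : G) :
    Pr q (cay S) (fun F => Conn F 0 u ∧ Conn F 0 z) ≤ ∑ y, tau q S y * tau q S (u - y) * tau q S (z - y) := by
  have h2 : Pr q (cay S) (fun F => Conn F 0 u ∧ Conn F 0 z) ≤
      Pr q (cay S) (fun F => ∃ y ∈ (univ : Finset G),
        Dis (fun F => Conn F 0 y) (Dis (fun F => Conn F y u) (fun F => Conn F y z)) F) := by
    refine Pr_mono h0 h1 fun F _ h => ?_
    obtain ⟨y, hy⟩ := tree_dis h.1 h.2
    exact ⟨y, Finset.mem_univ _, hy⟩
  refine h2.trans ((Pr_exists_le h0 h1 _ _ _).trans (Finset.sum_le_sum fun y _ => ?_))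
  refine (bk h0 h1 _ (inc_conn 0 y) inc_dis).trans ?_
  rw [mul_assoc]
  refine mul_le_mul_of_nonneg_left ?_ (Pr_nonneg h0 h1 _ _)
  refine (bk h0 h1 _ (inc_conn y u) (inc_conn y z)).trans ?_
  rw [tau_sub, tau_sub]

theorem DL_through (h0 : 0 ≤ q) (h1 : q ≤ 1) (C : Set G) (w : G) :
    (∑ x, tau q S x) * (1 - ∑ z, if z ∈ C then tau q S (z - w) else 0) ≤
      ∑ x, Pr q (cay S) (fun F' => ConnOff F' C w x) := by
  have h2 : ∀ x, tau q S (x - w) ≤ Pr q (cay S) (fun F' => ConnOff F' C w x) +
      ∑ z, if z ∈ C then tau q S (z - w) * tau q S (x - z) else 0 := by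
    intro x
    rw [← tau_sub]
    have h3 : Pr q (cay S) (fun F => Conn F w x) ≤ Pr q (cay S) (fun F => ConnOff F C w x ∨
        ∃ z ∈ (univ : Finset G).filter (fun z => z ∈ C), Dis (fun F => Conn F w z) (fun F => Conn F z x) F) := by
      refine Pr_mono h0 h1 fun F _ h => ?_
      by_cases h4 : ConnOff F C w x
      · exact Or.inl h4
      · obtain ⟨z, hz, hd⟩ := thr_dis h h4
        exact Or.inr ⟨z, by simp [hz], hd⟩
    refine h3.trans ((Pr_or_le h0 h1 _ _ _).trans (add_le_add le_rfl ?_))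
    refine (Pr_exists_le h0 h1 _ _ _).trans ?_
    rw [Finset.sum_filter]
    refine Finset.sum_le_sum fun z _ => ?_
    by_cases hz : z ∈ C
    · rw [if_pos hz, if_pos hz]
      refine (bk h0 h1 _ (inc_conn w z) (inc_conn z x)).trans ?_
      rw [tau_sub, tau_sub]
    · rw [if_neg hz, if_neg hz]
  have h4 := Finset.sum_le_sum (s := univ) fun x (_ : x ∈ univ) => h2 x
  rw [Finset.sum_add_distrib, Finset.sum_comm] at h4
  have h5 : ∀ a : G, ∑ x, tau q S (x - a) = ∑ x, tau q S x := by
    intro a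
    exact Fintype.sum_equiv (Equiv.subRight a) _ _ fun x => by simp
  rw [h5] at h4
  have h6 : ∑ z, ∑ x, (if z ∈ C then tau q S (z - w) * tau q S (x - z) else 0) =
      (∑ x, tau q S x) * ∑ z, if z ∈ C then tau q S (z - w) else 0 := by
    rw [Finset.mul_sum]
    refine Finset.sum_congr rfl fun z _ => ?_
    by_cases hz : z ∈ C
    · simp only [hz, if_true]
      rw [← Finset.mul_sum, h5, mul_comm]
    · simp only [hz, if_false, Finset.sum_const_zero, mul_zero]
  rw [h6] at h4
  nlinarith [h4]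

/-- the probability that `u` is reached from `0` without using the edge `s(u, w)`. -/
noncomputable def DL_a (q : ℝ) (S : Finset G) (u w : G) : ℝ :=
  Pr q (cay S) (fun F => Conn (F.erase s(u, w)) 0 u)

theorem DL_bond (h0 : 0 ≤ q) (h1 : q ≤ 1) (u w : G) :
    (∑ x, tau q S x) * (DL_a q S u w -
      ∑ z, tau q S (z - w) * Pr q (cay S) (fun F => Conn F 0 u ∧ Conn F 0 z)) ≤
      ∑ x, Pr q (cay S) (fun F => Conn (F.erase s(u, w)) 0 u ∧
        Conn (F.erase s(u, w)) w x ∧ ¬ Conn (F.erase s(u, w)) 0 x) := by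
  set E' := (cay S).erase s(u, w) with hE'
  -- step 1: factorisation
  have key : ∀ x, Pr q (cay S) (fun F => Conn (F.erase s(u, w)) 0 u ∧
        Conn (F.erase s(u, w)) w x ∧ ¬ Conn (F.erase s(u, w)) 0 x) =
      Ex q E' (fun F => (if Conn F 0 u then 1 else 0) *
        Pr q (cay S) (fun F' => ConnOff F' (clus F 0) w x)) := by
    intro x
    have e1 : Pr q (cay S) (fun F => Conn (F.erase s(u, w)) 0 u ∧
        Conn (F.erase s(u, w)) w x ∧ ¬ Conn (F.erase s(u, w)) 0 x) =
        Ex q E' (fun F => if Conn F 0 u ∧ Conn F w x ∧ ¬ Conn F 0 x then 1 else 0) := by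
      rw [hE', ← Ex_erase]
      exact Ex_congr fun F _ => ite_iff Iff.rfl
    have e2 : Ex q E' (fun F => if Conn F 0 u ∧ Conn F w x ∧ ¬ Conn F 0 x then (1 : ℝ) else 0) =
        Ex q E' (fun F => (if Conn F 0 u then 1 else 0) * if ConnOff F (clus F 0) w x then 1 else 0) := by
      refine Ex_congr fun F _ => ?_
      rw [ite_iff (DL_event (F := F) (o := 0) (u := u) (w := w) (x := x)) (_hr := inferInstance)]
      by_cases a : Conn F 0 u <;> by_cases b : ConnOff F (clus F 0) w x <;> simp [a, b]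
    rw [e1, e2, factor_clus q E' 0 w x (fun F => if Conn F 0 u then 1 else 0)]
    · refine Ex_congr fun F hF => ?_
      by_cases a : Conn F 0 u
      · congr 1
        unfold Pr
        rw [hE', ← Ex_erase]
        refine Ex_congr fun F' _ => ite_iff ?_
        have : off (F'.erase s(u, w)) (clus F 0) = off F' (clus F 0) := by
          unfold off
          ext e
          simp only [Finset.mem_filter, Finset.mem_erase]
          constructor
          · exact fun h => ⟨h.1.2, h.2⟩
          · intro h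
            refine ⟨⟨?_, h.1⟩, h.2⟩
            rintro rfl
            exact h.2 u (by simp) a
        show (w ∉ clus F 0 ∧ x ∉ clus F 0 ∧ Conn (off (F'.erase s(u, w)) (clus F 0)) w x) ↔ _
        rw [this]
        exact Iff.rfl
      · simp [a]
    · intro F _
      refine ite_iff ?_
      have hc := (FA_clus_iff F {(0 : G)} (clus F 0)).1 (clusS_singleton F 0)
      rw [clusS_singleton] at hc
      have : u ∈ clus (FA_tch F (clus F 0)) 0 ↔ u ∈ clus F 0 := by rw [hc]
      exact this.symm
  simp only [key]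
  rw [← Ex_sum]
  -- step 2: lower bound inside
  have hlow : Ex q E' (fun F => (∑ x, tau q S x) * ((if Conn F 0 u then 1 else 0) -
        ∑ z, tau q S (z - w) * if Conn F 0 u ∧ Conn F 0 z then 1 else 0)) ≤
      Ex q E' (fun F => ∑ x, (if Conn F 0 u then 1 else 0) *
        Pr q (cay S) (fun F' => ConnOff F' (clus F 0) w x)) := by
    refine Ex_mono h0 h1 fun F _ => ?_
    rw [← Finset.mul_sum]
    by_cases a : Conn F 0 u
    · have := DL_through (S := S) h0 h1 (clus F 0) w
      simp only [a, if_true, true_and, one_mul]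
      refine le_trans (le_of_eq ?_) this
      congr 2
      refine Finset.sum_congr rfl fun z _ => ?_
      have hz : z ∈ clus F 0 ↔ Conn F 0 z := Iff.rfl
      by_cases b : Conn F 0 z
      · rw [if_pos b, if_pos (hz.2 b), mul_one]
      · rw [if_neg b, if_neg (fun h => b (hz.1 h)), mul_zero]
    · simp [a]
  refine le_trans ?_ hlow
  rw [Ex_const_mul]
  refine mul_le_mul_of_nonneg_left ?_ (Finset.sum_nonneg fun x _ => tau_nonneg h0 h1 _ _)
  rw [Ex_sub, Ex_sum]
  refine sub_le_sub (le_of_eq ?_) (Finset.sum_le_sum fun z _ => ?_)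
  · unfold DL_a Pr
    rw [hE', ← Ex_erase]
  · rw [Ex_const_mul]
    refine mul_le_mul_of_nonneg_left ?_ (tau_nonneg h0 h1 _ _)
    rw [hE', ← Ex_erase]
    refine Ex_mono h0 h1 fun F _ => ?_
    by_cases a : Conn (F.erase s(u, w)) 0 u ∧ Conn (F.erase s(u, w)) 0 z
    · have b : Conn F 0 u ∧ Conn F 0 z :=
        ⟨a.1.mono (Finset.erase_subset _ _), a.2.mono (Finset.erase_subset _ _)⟩
      rw [if_pos a, if_pos b]
    · rw [if_neg a]; split_ifs <;> norm_num

theorem DL_a_sum (h0 : 0 ≤ q) (h1 : q ≤ 1) (hS : ∀ s ∈ S, -s ∈ S) :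
    S.card * (1 - q) * (∑ x, tau q S x) ≤ ∑ u, ∑ w, if w - u ∈ S then DL_a q S u w else 0 := by
  have h2 : ∀ u w, w - u ∈ S → tau q S u ≤ DL_a q S u w + q * DL_a q S w u := by
    intro u w huw
    have he : s(u, w) ∈ cay S := (mem_cay hS _ _).2 huw
    have h3 : tau q S u ≤ Pr q (cay S) (fun F => Conn (F.erase s(u, w)) 0 u ∨
        (s(u, w) ∈ F ∧ Conn (F.erase s(u, w)) 0 w)) := by
      refine Pr_mono h0 h1 fun F _ h => ?_
      by_cases h4 : Conn (F.erase s(u, w)) 0 u
      · exact Or.inl h4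
      · refine Or.inr ⟨?_, ?_⟩
        · by_contra h5
          rw [Finset.erase_eq_of_notMem h5] at h4
          exact h4 h
        · rcases conn_piv h h4 with h5 | h5
          · exact absurd h5.1 h4
          · exact h5.1
    refine h3.trans ((Pr_or_le h0 h1 _ _ _).trans (add_le_add le_rfl (le_of_eq ?_)))
    have h4 : Pr q (cay S) (fun F => s(u, w) ∈ F ∧ Conn (F.erase s(u, w)) 0 w) =
        Ex q (cay S) (fun F => if s(u, w) ∈ F then (if Conn (F.erase s(u, w)) 0 w then 1 else 0) else 0) := by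
      refine Ex_congr fun F _ => ?_
      by_cases h : s(u, w) ∈ F <;> by_cases h' : Conn (F.erase s(u, w)) 0 w <;> simp [h, h']
    rw [h4, Ex_open he q (fun F => if Conn F 0 w then 1 else 0)]
    congr 1
    unfold DL_a Pr
    refine Ex_congr fun F _ => ite_iff ?_
    rw [Sym2.eq_swap]
  set A := ∑ u, ∑ w, if w - u ∈ S then DL_a q S u w else 0 with hA
  have hsw : ∑ u, ∑ w, (if w - u ∈ S then DL_a q S w u else 0) = A := by
    rw [Finset.sum_comm, hA]
    refine Finset.sum_congr rfl fun u _ => Finset.sum_congr rfl fun w _ => ?_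
    have : u - w ∈ S ↔ w - u ∈ S := by
      constructor
      · intro h; have := hS _ h; rwa [neg_sub] at this
      · intro h; have := hS _ h; rwa [neg_sub] at this
    by_cases h : w - u ∈ S
    · rw [if_pos h, if_pos (this.2 h)]
    · rw [if_neg h, if_neg (fun h' => h (this.1 h'))]
  have hcard : ∑ u, ∑ w, (if w - u ∈ S then tau q S u else 0) = S.card * ∑ x, tau q S x := by
    rw [Finset.mul_sum]
    refine Finset.sum_congr rfl fun u _ => ?_
    rw [← Finset.sum_filter, Finset.sum_const, nsmul_eq_mul]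
    congr 2
    refine Finset.card_bij (fun w _ => w - u) ?_ ?_ ?_
    · intro w hw; exact (Finset.mem_filter.1 hw).2
    · intro a _ b _ h; exact sub_left_injective h
    · intro s hs
      exact ⟨s + u, Finset.mem_filter.2 ⟨Finset.mem_univ _, by simpa using hs⟩, by simp⟩
  have hsum : S.card * ∑ x, tau q S x ≤ A + q * A := by
    rw [← hcard]
    nth_rewrite 2 [← hsw]
    rw [hA, Finset.mul_sum, ← Finset.sum_add_distrib]
    refine Finset.sum_le_sum fun u _ => ?_
    rw [Finset.mul_sum, ← Finset.sum_add_distrib]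
    refine Finset.sum_le_sum fun w _ => ?_
    by_cases h : w - u ∈ S
    · simp only [h, if_true]; exact h2 u w h
    · simp [h]
  have hA0 : 0 ≤ A := by
    rw [hA]
    refine Finset.sum_nonneg fun u _ => Finset.sum_nonneg fun w _ => ?_
    split_ifs
    · exact Pr_nonneg h0 h1 _ _
    · exact le_rfl
  nlinarith [mul_le_mul_of_nonneg_left hsum (sub_nonneg.2 h1), mul_nonneg (mul_nonneg h0 h0) hA0]

theorem DL_loop (q : ℝ) (S : Finset G) :
    ∑ u, ∑ w, (if w - u ∈ S then ∑ z, tau q S (z - w) *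
      ∑ y, tau q S y * tau q S (u - y) * tau q S (z - y) else 0) =
      (∑ x, tau q S x) * conv (J S) (conv (tau q S) (conv (tau q S) (tau q S))) 0 := by
  have hL : ∑ u, ∑ w, (if w - u ∈ S then ∑ z, tau q S (z - w) *
      ∑ y, tau q S y * tau q S (u - y) * tau q S (z - y) else 0) =
      ∑ y, tau q S y * ∑ z, ∑ w, ∑ u, J S (w - u) * (tau q S (z - w) * (tau q S (y - z) * tau q S (u - y))) := by
    have h1 : ∀ u w, (if w - u ∈ S then ∑ z, tau q S (z - w) *
      ∑ y, tau q S y * tau q S (u - y) * tau q S (z - y) else 0) =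
        ∑ y, ∑ z, tau q S y * (J S (w - u) * (tau q S (z - w) * (tau q S (y - z) * tau q S (u - y)))) := by
      intro u w
      rw [Finset.sum_comm]
      unfold J
      by_cases h : w - u ∈ S
      · rw [if_pos h]
        refine Finset.sum_congr rfl fun z _ => ?_
        rw [Finset.mul_sum]
        refine Finset.sum_congr rfl fun y _ => ?_
        have : tau q S (y - z) = tau q S (z - y) := by rw [← tau_neg, neg_sub]
        rw [this, if_pos h]
        ring
      · simp [h]
    simp only [h1]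
    have h2 : ∑ u : G, ∑ w : G, ∑ y : G, ∑ z : G,
        tau q S y * (J S (w - u) * (tau q S (z - w) * (tau q S (y - z) * tau q S (u - y)))) =
        ∑ y : G, ∑ z : G, ∑ w : G, ∑ u : G,
        tau q S y * (J S (w - u) * (tau q S (z - w) * (tau q S (y - z) * tau q S (u - y)))) := by
      have h3 : ∀ u : G, ∑ w : G, ∑ y : G, ∑ z : G,
          tau q S y * (J S (w - u) * (tau q S (z - w) * (tau q S (y - z) * tau q S (u - y)))) =
          ∑ y : G, ∑ z : G, ∑ w : G,
          tau q S y * (J S (w - u) * (tau q S (z - w) * (tau q S (y - z) * tau q S (u - y)))) := by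
        intro u
        rw [Finset.sum_comm]
        exact Finset.sum_congr rfl fun y _ => Finset.sum_comm
      simp only [h3]
      rw [Finset.sum_comm]
      refine Finset.sum_congr rfl fun y _ => ?_
      rw [Finset.sum_comm]
      exact Finset.sum_congr rfl fun z _ => Finset.sum_comm
    rw [h2]
    refine Finset.sum_congr rfl fun y _ => ?_
    rw [Finset.mul_sum]
    refine Finset.sum_congr rfl fun z _ => ?_
    rw [Finset.mul_sum]
    refine Finset.sum_congr rfl fun w _ => ?_
    rw [Finset.mul_sum]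
  rw [hL, Finset.sum_mul]
  refine Finset.sum_congr rfl fun y _ => ?_
  congr 1
  have hR : conv (J S) (conv (tau q S) (conv (tau q S) (tau q S))) 0 =
      ∑ c, ∑ b, ∑ a, J S a * (tau q S b * (tau q S c * tau q S (0 - a - b - c))) := by
    unfold conv
    simp only [Finset.mul_sum]
    rw [Finset.sum_comm]
    rw [show (∑ c, ∑ b, ∑ a, J S a * (tau q S b * (tau q S c * tau q S (0 - a - b - c)))) =
      ∑ b, ∑ c, ∑ a, J S a * (tau q S b * (tau q S c * tau q S (0 - a - b - c))) from Finset.sum_comm]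
    refine Finset.sum_congr rfl fun b _ => Finset.sum_comm
  rw [hR]
  refine Fintype.sum_equiv (Equiv.subLeft y) _ _ fun z => ?_
  refine Fintype.sum_equiv (Equiv.subLeft z) _ _ fun w => ?_
  refine Fintype.sum_equiv (Equiv.subLeft w) _ _ fun u => ?_
  simp only [Equiv.subLeft_apply]
  have : (0 : G) - (w - u) - (z - w) - (y - z) = u - y := by abel
  rw [this]

theorem dchi_ge (h0 : 0 ≤ q) (h1 : q ≤ 1) (hS : ∀ s ∈ S, -s ∈ S) (_h : (0 : G) ∉ S) :
    (∑ x, tau q S x) ^ 2 *
      (S.card * (1 - q) - conv (J S) (conv (tau q S) (conv (tau q S) (tau q S))) 0) ≤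
      ∑ x, dtau q S x := by
  set χ := ∑ x, tau q S x with hχ
  have hχ0 : 0 ≤ χ := Finset.sum_nonneg fun x _ => tau_nonneg h0 h1 _ _
  have e1 : ∑ x, dtau q S x = ∑ u, ∑ w, if w - u ∈ S then ∑ x, Pr q (cay S)
      (fun F => Conn (F.erase s(u, w)) 0 u ∧ Conn (F.erase s(u, w)) w x ∧ ¬ Conn (F.erase s(u, w)) 0 x) else 0 := by
    unfold dtau
    rw [Finset.sum_comm]
    refine Finset.sum_congr rfl fun u _ => ?_
    rw [Finset.sum_comm]
    refine Finset.sum_congr rfl fun w _ => ?_
    by_cases h : w - u ∈ S <;> simp [h]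
  rw [e1]
  have e2 : ∑ u, ∑ w, (if w - u ∈ S then χ * (DL_a q S u w - ∑ z, tau q S (z - w) *
      ∑ y, tau q S y * tau q S (u - y) * tau q S (z - y)) else 0) ≤
      ∑ u, ∑ w, if w - u ∈ S then ∑ x, Pr q (cay S)
      (fun F => Conn (F.erase s(u, w)) 0 u ∧ Conn (F.erase s(u, w)) w x ∧ ¬ Conn (F.erase s(u, w)) 0 x) else 0 := by
    refine Finset.sum_le_sum fun u _ => Finset.sum_le_sum fun w _ => ?_
    by_cases h : w - u ∈ S
    · rw [if_pos h, if_pos h]
      refine le_trans ?_ (DL_bond (S := S) h0 h1 u w)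
      refine mul_le_mul_of_nonneg_left (sub_le_sub_left (Finset.sum_le_sum fun z _ => ?_) _) hχ0
      exact mul_le_mul_of_nonneg_left (DL_tree h0 h1 u z) (tau_nonneg h0 h1 _ _)
    · rw [if_neg h, if_neg h]
  refine le_trans ?_ e2
  have e3 : ∑ u, ∑ w, (if w - u ∈ S then χ * (DL_a q S u w - ∑ z, tau q S (z - w) *
      ∑ y, tau q S y * tau q S (u - y) * tau q S (z - y)) else 0) =
      χ * ((∑ u, ∑ w, if w - u ∈ S then DL_a q S u w else 0) -
        ∑ u, ∑ w, if w - u ∈ S then ∑ z, tau q S (z - w) *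
          ∑ y, tau q S y * tau q S (u - y) * tau q S (z - y) else 0) := by
    rw [← Finset.sum_sub_distrib, Finset.mul_sum]
    refine Finset.sum_congr rfl fun u _ => ?_
    rw [← Finset.sum_sub_distrib, Finset.mul_sum]
    refine Finset.sum_congr rfl fun w _ => ?_
    by_cases h : w - u ∈ S <;> simp [h]
  rw [e3, DL_loop]
  have e4 := DL_a_sum (S := S) h0 h1 hS
  rw [← hχ] at e4 ⊢
  nlinarith [mul_le_mul_of_nonneg_left e4 hχ0]

/-! ### convolution -/

theorem conv_comm (f g : G → ℝ) : conv f g = conv g f := by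
  funext x
  unfold conv
  refine Fintype.sum_equiv (Equiv.subLeft x) _ _ fun y => ?_
  simp only [Equiv.subLeft_apply, sub_sub_cancel]
  ring

theorem conv_assoc (f g h : G → ℝ) : conv (conv f g) h = conv f (conv g h) := by
  funext x
  unfold conv
  simp only [Finset.sum_mul, Finset.mul_sum]
  rw [Finset.sum_comm]
  refine Finset.sum_congr rfl fun y _ => ?_
  refine Fintype.sum_equiv (Equiv.subRight y) _ _ fun z => ?_
  simp only [Equiv.subRight_apply]
  have : x - y - (z - y) = x - z := by abel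
  rw [this]
  ring

theorem conv_mono {f f' g g' : G → ℝ} (hf : ∀ x, f x ≤ f' x) (hg : ∀ x, g x ≤ g' x) (h0 : ∀ x, 0 ≤ f' x)
    (h0' : ∀ x, 0 ≤ g x) (x : G) : conv f g x ≤ conv f' g' x := by
  unfold conv
  exact Finset.sum_le_sum fun y _ => mul_le_mul (hf y) (hg _) (h0' _) (h0 y)

theorem conv_nonneg {f g : G → ℝ} (hf : ∀ x, 0 ≤ f x) (hg : ∀ x, 0 ≤ g x) (x : G) : 0 ≤ conv f g x := by
  unfold conv
  exact Finset.sum_nonneg fun y _ => mul_nonneg (hf y) (hg _)

theorem J_nonneg (S : Finset G) (x : G) : 0 ≤ J S x := by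
  unfold J; split_ifs <;> norm_num

theorem conv_smul_left (c : ℝ) (f g : G → ℝ) : conv (fun x => c * f x) g = fun x => c * conv f g x := by
  funext x
  unfold conv
  rw [Finset.mul_sum]
  exact Finset.sum_congr rfl fun y _ => by ring

theorem conv_smul_right (c : ℝ) (f g : G → ℝ) : conv f (fun x => c * g x) = fun x => c * conv f g x := by
  funext x
  unfold conv
  rw [Finset.mul_sum]
  exact Finset.sum_congr rfl fun y _ => by ring

/-- the triangle at a neighbour of the origin is controlled by the open triangle with one extra step. -/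
theorem triangle_step (h0 : 0 ≤ q) (h1 : q ≤ 1) (hS : ∀ s ∈ S, -s ∈ S) {y : G} (hy : y ≠ 0) :
    conv (tau q S) (conv (tau q S) (tau q S)) y ≤
      3 * (q * conv (J S) (conv (tau q S) (conv (tau q S) (tau q S))) y) := by
  set τ := tau q S with hτ
  have hτ0 : ∀ x, 0 ≤ τ x := fun x => tau_nonneg h0 h1 _ _
  set θ : G → ℝ := fun x => if x = 0 then 0 else τ x with hθ
  have hJτ : ∀ x, 0 ≤ conv (J S) τ x := conv_nonneg (J_nonneg S) hτ0
  have hθ0 : ∀ x, 0 ≤ θ x := by
    intro x; simp only [hθ]; split_ifs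
    · exact le_rfl
    · exact hτ0 x
  have hθ1 : ∀ x, θ x ≤ q * conv (J S) τ x := by
    intro x
    simp only [hθ]
    split_ifs with hx
    · exact mul_nonneg h0 (hJτ x)
    · exact tau_le_step h0 h1 hS hx
  have hK : conv (fun x => q * conv (J S) τ x) (conv τ τ) y =
      q * conv (J S) (conv τ (conv τ τ)) y := by
    rw [conv_smul_left, conv_assoc]
  have s1 : conv θ (conv τ τ) y ≤ q * conv (J S) (conv τ (conv τ τ)) y := by
    rw [← hK]
    exact conv_mono hθ1 (fun _ => le_rfl) (fun x => mul_nonneg h0 (hJτ x)) (conv_nonneg hτ0 hτ0) y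
  have s2 : conv τ (conv θ τ) y = conv θ (conv τ τ) y := by
    rw [← conv_assoc, conv_comm τ θ, conv_assoc]
  have s3 : conv τ (conv τ θ) y = conv θ (conv τ τ) y := by
    rw [conv_comm τ θ, s2]
  have hsum : conv τ (conv τ τ) y ≤ conv θ (conv τ τ) y + conv τ (conv θ τ) y + conv τ (conv τ θ) y := by
    unfold conv
    rw [← Finset.sum_add_distrib, ← Finset.sum_add_distrib]
    refine Finset.sum_le_sum fun a _ => ?_
    rw [Finset.mul_sum, Finset.mul_sum, Finset.mul_sum, Finset.mul_sum, ← Finset.sum_add_distrib,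
      ← Finset.sum_add_distrib]
    refine Finset.sum_le_sum fun b _ => ?_
    have ha := hτ0 a
    have hb := hτ0 b
    have hc := hτ0 (y - a - b)
    simp only [hθ]
    by_cases h1 : a = 0
    · by_cases h2 : b = 0
      · have h3 : y - a - b ≠ 0 := by rw [h1, h2]; simpa using hy
        rw [if_pos h1, if_pos h2, if_neg h3]
        nlinarith [mul_nonneg ha (mul_nonneg hb hc)]
      · rw [if_pos h1, if_neg h2]
        split_ifs <;> nlinarith [mul_nonneg ha (mul_nonneg hb hc)]
    · rw [if_neg h1]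
      split_ifs <;> nlinarith [mul_nonneg ha (mul_nonneg hb hc)]
  rw [s2, s3] at hsum
  linarith

end DL

end Pool.Agent.helper66.LE
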