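import Pool.Agent.helper66.LE.GB

/-!
# Factorisation at the boundary of a cluster
-/

open Finset Classical

namespace Pool.Agent.helper66.LE

/-- change of the proposition (and of the decidability instance) in an indicator. -/
theorem ite_iff {p r : Prop} {_hp : Decidable p} {_hr : Decidable r} (h : p ↔ r) :
    (if p then (1 : ℝ) else 0) = if r then 1 else 0 := by
  by_cases hp : p
  · rw [if_pos hp, if_pos (h.1 hp)]
  · rw [if_neg hp, if_neg (fun hr => hp (h.2 hr))]

section FA
variable {V : Type*}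

/-- union of the clusters of the points of `B`. -/
def clusS (F : Finset (Sym2 V)) (B : Set V) : Set V := {x | ∃ b ∈ B, Conn F b x}

/-- the edges of `F` which touch `C`. -/
noncomputable def FA_tch (F : Finset (Sym2 V)) (C : Set V) : Finset (Sym2 V) := F.filter fun e => ∃ a ∈ e, a ∈ C

theorem FA_off_eq (F : Finset (Sym2 V)) (C : Set V) : off F C = F \ FA_tch F C := by
  ext e
  simp only [off, FA_tch, Finset.mem_filter, Finset.mem_sdiff, not_and, not_exists]
  constructor
  · rintro ⟨h1, h2⟩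
    exact ⟨h1, fun _ a ha hc => h2 a ha hc⟩
  · rintro ⟨h1, h2⟩
    exact ⟨h1, fun a ha hc => h2 h1 a ha hc⟩

/-- The cluster is closed under the edges. -/
theorem FA_closed (F : Finset (Sym2 V)) (B : Set V) {u w : V} (h : s(u, w) ∈ F) (hu : u ∈ clusS F B) :
    w ∈ clusS F B := by
  obtain ⟨b, hb, hc⟩ := hu
  exact ⟨b, hb, hc.trans (conn_of_mem h)⟩

theorem FA_sub (F : Finset (Sym2 V)) (B : Set V) : B ⊆ clusS F B := fun b hb => ⟨b, hb, conn_refl _ _⟩

theorem FA_mono {F F' : Finset (Sym2 V)} (h : F ⊆ F') (B : Set V) : clusS F B ⊆ clusS F' B :=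
  fun _ ⟨b, hb, hc⟩ => ⟨b, hb, hc.mono h⟩

/-- If `C` contains `B` and is closed under the edges of `F`, it contains the cluster. -/
theorem FA_le_of_closed {F : Finset (Sym2 V)} {B C : Set V} (hB : B ⊆ C)
    (hC : ∀ u w, s(u, w) ∈ F → u ∈ C → w ∈ C) : clusS F B ⊆ C := by
  rintro x ⟨b, hb, hc⟩
  exact hc.mem_of_closed hC (hB hb)

/-- The cluster only depends on the edges touching it. -/
theorem FA_clus_iff (F : Finset (Sym2 V)) (B C : Set V) : clusS F B = C ↔ clusS (FA_tch F C) B = C := by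
  constructor
  · intro h
    refine Set.Subset.antisymm ((FA_mono (Finset.filter_subset _ _) B).trans h.subset) ?_
    intro x hx
    rw [← h] at hx
    obtain ⟨b, hb, hc⟩ := hx
    have : x ∈ {y | y ∈ clusS (FA_tch F C) B ∧ y ∈ C} := by
      refine hc.mem_of_closed ?_ ⟨FA_sub _ _ hb, h ▸ FA_sub _ _ hb⟩
      rintro u w huw ⟨h1, h2⟩
      refine ⟨FA_closed _ _ (u := u) ?_ h1, ?_⟩
      · exact Finset.mem_filter.2 ⟨huw, u, by simp, h2⟩
      · rw [← h] at h2 ⊢
        exact FA_closed _ _ huw h2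
    exact this.1
  · intro h
    have hBC : B ⊆ C := h ▸ FA_sub (FA_tch F C) B
    refine Set.Subset.antisymm (FA_le_of_closed hBC ?_) ?_
    · intro u w huw hu
      have h1 : s(u, w) ∈ FA_tch F C := Finset.mem_filter.2 ⟨huw, u, by simp, hu⟩
      have h2 : u ∈ clusS (FA_tch F C) B := h.symm ▸ hu
      exact h ▸ FA_closed _ _ h1 h2
    · exact h ▸ FA_mono (Finset.filter_subset _ _) B

theorem FA_tch_union {E F₁ F₂ : Finset (Sym2 V)} {C : Set V} (h₁ : F₁ ⊆ FA_tch E C)
    (h₂ : F₂ ⊆ E \ FA_tch E C) : FA_tch (F₁ ∪ F₂) C = F₁ := by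
  ext e
  simp only [FA_tch, Finset.mem_filter, Finset.mem_union]
  constructor
  · rintro ⟨h | h, a, ha, hc⟩
    · exact h
    · have := Finset.mem_sdiff.1 (h₂ h)
      exact absurd (Finset.mem_filter.2 ⟨this.1, a, ha, hc⟩) this.2
  · intro h
    exact ⟨Or.inl h, (Finset.mem_filter.1 (h₁ h)).2⟩

theorem FA_off_union {E F₁ F₂ : Finset (Sym2 V)} {C : Set V} (h₁ : F₁ ⊆ FA_tch E C)
    (h₂ : F₂ ⊆ E \ FA_tch E C) : off (F₁ ∪ F₂) C = F₂ := by
  rw [FA_off_eq, FA_tch_union h₁ h₂]
  ext e
  simp only [Finset.mem_sdiff, Finset.mem_union]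
  constructor
  · rintro ⟨h | h, h'⟩
    · exact absurd h h'
    · exact h
  · intro h
    exact ⟨Or.inr h, fun h' => (Finset.mem_sdiff.1 (h₂ h)).2 (h₁ h')⟩

theorem FA_off_inter {E F : Finset (Sym2 V)} {C : Set V} (hF : F ⊆ E) :
    off F C = F ∩ (E \ FA_tch E C) := by
  ext e
  simp only [off, FA_tch, Finset.mem_filter, Finset.mem_sdiff, Finset.mem_inter, not_and, not_exists]
  constructor
  · rintro ⟨h1, h2⟩
    exact ⟨h1, hF h1, fun _ a ha hc => h2 a ha hc⟩
  · rintro ⟨h1, h2, h3⟩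
    exact ⟨h1, fun a ha hc => h3 h2 a ha hc⟩

/-- connection off `C` only sees the edges which do not touch `C`. -/
theorem FA_pr_off (q : ℝ) (E : Finset (Sym2 V)) (C : Set V) (w x : V) :
    Pr q E (fun F' => ConnOff F' C w x) =
      Ex q (E \ FA_tch E C) (fun F₂ => if w ∉ C ∧ x ∉ C ∧ Conn F₂ w x then 1 else 0) := by
  unfold Pr
  rw [← Ex_inter (E := E) Finset.sdiff_subset]
  refine Ex_congr fun F hF => ite_iff ?_
  show (w ∉ C ∧ x ∉ C ∧ Conn (off F C) w x) ↔ _
  rw [FA_off_inter hF]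

/-- Conditionally on the cluster of the set `B` (and on the edges which touch it), the rest of the
configuration is still percolation.  `Ψ` only depends on the edges which touch the cluster. -/
theorem factor_set (q : ℝ) (E : Finset (Sym2 V)) (B : Set V) (w x : V) (Ψ : Finset (Sym2 V) → ℝ)
    (hΨ : ∀ F ⊆ E, Ψ F = Ψ (F.filter fun e => ∃ a ∈ e, a ∈ clusS F B)) :
    Ex q E (fun F => Ψ F * if ConnOff F (clusS F B) w x then 1 else 0) =
      Ex q E (fun F => Ψ F * Pr q E (fun F' => ConnOff F' (clusS F B) w x)) := by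
  set 𝒞 : Finset (Set V) := E.powerset.image (fun F => clusS F B) with h𝒞
  have key : ∀ g : Finset (Sym2 V) → Set V → ℝ,
      Ex q E (fun F => g F (clusS F B)) =
        ∑ C ∈ 𝒞, Ex q E (fun F => if clusS F B = C then g F C else 0) := by
    intro g
    rw [← Ex_sum]
    refine Ex_congr fun F hF => ?_
    rw [Finset.sum_ite_eq, if_pos (Finset.mem_image.2 ⟨F, Finset.mem_powerset.2 hF, rfl⟩)]
  rw [key (fun F C => Ψ F * if ConnOff F C w x then 1 else 0),
    key (fun F C => Ψ F * Pr q E (fun F' => ConnOff F' C w x))]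
  refine Finset.sum_congr rfl fun C _ => ?_
  have hE : E = FA_tch E C ∪ (E \ FA_tch E C) := by
    rw [Finset.union_sdiff_of_subset (show FA_tch E C ⊆ E from Finset.filter_subset _ _)]
  have hd : Disjoint (FA_tch E C) (E \ FA_tch E C) := Finset.disjoint_sdiff
  have hL : Ex q E (fun F => if clusS F B = C then (Ψ F * if ConnOff F C w x then 1 else 0) else 0) =
      Ex q (FA_tch E C) (fun F₁ => Ex q (E \ FA_tch E C) (fun F₂ =>
        (if clusS F₁ B = C then Ψ F₁ else 0) * if w ∉ C ∧ x ∉ C ∧ Conn F₂ w x then 1 else 0)) := by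
    conv_lhs => rw [hE]
    rw [Ex_union hd]
    refine Ex_congr fun F₁ h₁ => Ex_congr fun F₂ h₂ => ?_
    have hcl : clusS (F₁ ∪ F₂) B = C ↔ clusS F₁ B = C := by
      rw [FA_clus_iff, FA_tch_union h₁ h₂]
    have hsub : F₁ ∪ F₂ ⊆ E := by
      rw [hE]; exact Finset.union_subset_union h₁ h₂
    by_cases hc : clusS F₁ B = C
    · rw [if_pos (hcl.2 hc), if_pos hc]
      have h3 : Ψ (F₁ ∪ F₂) = Ψ F₁ := by
        rw [hΨ _ hsub]
        congr 1
        have := FA_tch_union h₁ h₂
        unfold FA_tch at this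
        rw [hcl.2 hc]
        exact this
      rw [h3]
      congr 1
      refine ite_iff ?_
      rw [ConnOff, FA_off_union h₁ h₂]
    · rw [if_neg (fun h => hc (hcl.1 h)), if_neg hc, zero_mul]
  have hR : Ex q E (fun F => if clusS F B = C then Ψ F * Pr q E (fun F' => ConnOff F' C w x) else 0) =
      Ex q (FA_tch E C) (fun F₁ => (if clusS F₁ B = C then Ψ F₁ else 0)) *
        Pr q E (fun F' => ConnOff F' C w x) := by
    have : (fun F => if clusS F B = C then Ψ F * Pr q E (fun F' => ConnOff F' C w x) else 0) =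
        (fun F => (if clusS F B = C then Ψ F else 0) * Pr q E (fun F' => ConnOff F' C w x)) := by
      funext F
      by_cases hc : clusS F B = C
      · rw [if_pos hc, if_pos hc]
      · rw [if_neg hc, if_neg hc, zero_mul]
    rw [this, Ex_mul_const]
    congr 1
    conv_lhs => rw [hE]
    rw [Ex_union hd]
    refine Ex_congr fun F₁ h₁ => ?_
    rw [← Ex_const q (E \ FA_tch E C) (if clusS F₁ B = C then Ψ F₁ else 0)]
    refine Ex_congr fun F₂ h₂ => ?_
    have hcl : clusS (F₁ ∪ F₂) B = C ↔ clusS F₁ B = C := by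
      rw [FA_clus_iff, FA_tch_union h₁ h₂]
    have hsub : F₁ ∪ F₂ ⊆ E := by
      rw [hE]; exact Finset.union_subset_union h₁ h₂
    by_cases hc : clusS F₁ B = C
    · rw [if_pos (hcl.2 hc), if_pos hc, hΨ _ hsub]
      congr 1
      have := FA_tch_union h₁ h₂
      unfold FA_tch at this
      rw [hcl.2 hc]
      exact this
    · rw [if_neg (fun h => hc (hcl.1 h)), if_neg hc]
  rw [hL, hR, ← Ex_mul_const]
  refine Ex_congr fun F₁ _ => ?_
  rw [Ex_const_mul, FA_pr_off]

theorem clusS_singleton (F : Finset (Sym2 V)) (v : V) : clusS F {v} = clus F v := by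
  ext x
  simp [clusS, clus]

/-- the same for the cluster of a point. -/
theorem factor_clus (q : ℝ) (E : Finset (Sym2 V)) (v w x : V) (Ψ : Finset (Sym2 V) → ℝ)
    (hΨ : ∀ F ⊆ E, Ψ F = Ψ (F.filter fun e => ∃ a ∈ e, a ∈ clus F v)) :
    Ex q E (fun F => Ψ F * if ConnOff F (clus F v) w x then 1 else 0) =
      Ex q E (fun F => Ψ F * Pr q E (fun F' => ConnOff F' (clus F v) w x)) := by
  have h := factor_set q E {v} w x Ψ (by
    intro F hF
    simp only [clusS_singleton]
    exact hΨ F hF)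
  simpa only [clusS_singleton] using h

end FA

end Pool.Agent.helper66.LE
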