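import Pool.Agent.helper66.LE.TI
import Pool.Agent.helper66.LE.FA

/-!
# Russo's formula for the two-point function, upper bound of the derivative
-/

open Finset Classical

namespace Pool.Agent.helper66.LE

section RU
variable {G : Type*} [AddCommGroup G] [Fintype G]

/-- the derivative of the two-point function, as a sum over directed bonds `(u, w)`. -/
noncomputable def dtau (q : ℝ) (S : Finset G) (x : G) : ℝ :=
  ∑ u, ∑ w, if w - u ∈ S then Pr q (cay S) (fun F => Conn (F.erase s(u, w)) 0 u ∧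
    Conn (F.erase s(u, w)) w x ∧ ¬ Conn (F.erase s(u, w)) 0 x) else 0

theorem RU_split (F : Finset (Sym2 G)) (x u w : G) :
    (if Conn (insert s(u, w) F) 0 x then (1 : ℝ) else 0) - (if Conn (F.erase s(u, w)) 0 x then 1 else 0) =
      (if Conn (F.erase s(u, w)) 0 u ∧ Conn (F.erase s(u, w)) w x ∧ ¬ Conn (F.erase s(u, w)) 0 x then 1 else 0) +
      (if Conn (F.erase s(w, u)) 0 w ∧ Conn (F.erase s(w, u)) u x ∧ ¬ Conn (F.erase s(w, u)) 0 x then 1 else 0) := by
  have hsw : s(w, u) = s(u, w) := Sym2.eq_swap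
  rw [hsw]
  have hins : insert s(u, w) F = insert s(u, w) (F.erase s(u, w)) := by
    ext a
    simp only [Finset.mem_insert, Finset.mem_erase]
    by_cases h : a = s(u, w) <;> simp [h]
  have h1 : Conn (insert s(u, w) F) 0 x ↔ Conn (F.erase s(u, w)) 0 x ∨
      (Conn (F.erase s(u, w)) 0 u ∧ Conn (F.erase s(u, w)) w x) ∨
      (Conn (F.erase s(u, w)) 0 w ∧ Conn (F.erase s(u, w)) u x) := by
    rw [hins]; exact conn_insert_iff
  by_cases h : Conn (F.erase s(u, w)) 0 x
  · have h2 : Conn (insert s(u, w) F) 0 x := h1.2 (Or.inl h)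
    simp [h, h2]
  · by_cases ha : Conn (F.erase s(u, w)) 0 u ∧ Conn (F.erase s(u, w)) w x
    · have hb := conn_piv_excl h ha
      have h2 : Conn (insert s(u, w) F) 0 x := h1.2 (Or.inr (Or.inl ha))
      have hb' : ¬ (Conn (F.erase s(u, w)) 0 w ∧ Conn (F.erase s(u, w)) u x ∧ ¬ Conn (F.erase s(u, w)) 0 x) :=
        fun hh => hb ⟨hh.1, hh.2.1⟩
      rw [if_pos h2, if_neg h, if_pos ⟨ha.1, ha.2, h⟩, if_neg hb']
      norm_num
    · have ha' : ¬ (Conn (F.erase s(u, w)) 0 u ∧ Conn (F.erase s(u, w)) w x ∧ ¬ Conn (F.erase s(u, w)) 0 x) :=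
        fun hh => ha ⟨hh.1, hh.2.1⟩
      by_cases hb : Conn (F.erase s(u, w)) 0 w ∧ Conn (F.erase s(u, w)) u x
      · have h2 : Conn (insert s(u, w) F) 0 x := h1.2 (Or.inr (Or.inr hb))
        rw [if_pos h2, if_neg h, if_neg ha', if_pos ⟨hb.1, hb.2, h⟩]
        norm_num
      · have h2 : ¬ Conn (insert s(u, w) F) 0 x := by
          rw [h1]
          rintro (h3 | h3 | h3)
          · exact h h3
          · exact ha h3
          · exact hb h3
        have hb' : ¬ (Conn (F.erase s(u, w)) 0 w ∧ Conn (F.erase s(u, w)) u x ∧ ¬ Conn (F.erase s(u, w)) 0 x) :=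
          fun hh => hb ⟨hh.1, hh.2.1⟩
        rw [if_neg h2, if_neg h, if_neg ha', if_neg hb']
        norm_num

theorem hasDerivAt_tau (q : ℝ) {S : Finset G} (hS : ∀ s ∈ S, -s ∈ S) (h0 : (0 : G) ∉ S) (x : G) :
    HasDerivAt (fun q => tau q S x) (dtau q S x) q := by
  have h := russo q (cay S) (fun F => if Conn F 0 x then (1 : ℝ) else 0)
  refine h.congr_deriv ?_
  set P : G × G → ℝ := fun p => Pr q (cay S) (fun F => Conn (F.erase s(p.1, p.2)) 0 p.1 ∧
    Conn (F.erase s(p.1, p.2)) p.2 x ∧ ¬ Conn (F.erase s(p.1, p.2)) 0 x) with hP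
  have h1 : dtau q S x = ∑ p ∈ (univ : Finset (G × G)).filter (fun p => p.2 - p.1 ∈ S), P p := by
    rw [Finset.sum_filter]
    unfold dtau
    rw [← Finset.univ_product_univ, Finset.sum_product]
  have h2 : ∀ p ∈ (univ : Finset (G × G)).filter (fun p => p.2 - p.1 ∈ S), s(p.1, p.2) ∈ cay S := by
    intro p hp
    exact (mem_cay hS _ _).2 (Finset.mem_filter.1 hp).2
  rw [h1, ← Finset.sum_fiberwise_of_maps_to h2]
  refine Finset.sum_congr rfl fun e he => ?_
  induction e using Sym2.ind with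
  | _ a b =>
    have hab : b - a ∈ S := (mem_cay hS _ _).1 he
    have hba : a - b ∈ S := by
      have := hS _ hab
      rwa [neg_sub] at this
    have hne : (a, b) ≠ (b, a) := by
      intro hh
      have : a = b := congrArg Prod.fst hh
      subst this
      rw [sub_self] at hab
      exact h0 hab
    have hf : ((univ : Finset (G × G)).filter (fun p => p.2 - p.1 ∈ S)).filter (fun p => s(p.1, p.2) = s(a, b)) =
        {(a, b), (b, a)} := by
      ext ⟨u, w⟩
      simp only [Finset.mem_filter, Finset.mem_univ, true_and, Finset.mem_insert, Finset.mem_singleton,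
        Prod.mk.injEq, Sym2.eq_iff]
      constructor
      · exact fun hh => hh.2
      · rintro (⟨rfl, rfl⟩ | ⟨rfl, rfl⟩)
        · exact ⟨hab, Or.inl ⟨rfl, rfl⟩⟩
        · exact ⟨hba, Or.inr ⟨rfl, rfl⟩⟩
    rw [hf, Finset.sum_pair hne, hP]
    unfold Pr
    rw [← Ex_add]
    refine Ex_congr fun F _ => ?_
    exact (RU_split F x a b).trans (congrArg₂ (· + ·) (ite_iff Iff.rfl) (ite_iff Iff.rfl))

end RU

section DU
variable {G : Type*} [AddCommGroup G] [Fintype G] {q : ℝ} {S : Finset G}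

/-- two disjoint clusters. -/
theorem DU_dis {V : Type*} {F : Finset (Sym2 V)} {a b c e : V} (h1 : Conn F a b) (h2 : Conn F c e)
    (h3 : ¬ Conn F a c) : Dis (fun F => Conn F a b) (fun F => Conn F c e) F := by
  refine ⟨F.filter (fun f => ∃ v ∈ f, Conn F a v), F.filter (fun f => ¬ ∃ v ∈ f, Conn F a v),
    Finset.filter_subset _ _, Finset.filter_subset _ _, Finset.disjoint_filter_filter_not _ _ _, ?_, ?_⟩
  · have : b ∈ {y | Conn F a y ∧ Conn (F.filter (fun f => ∃ v ∈ f, Conn F a v)) a y} := by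
      refine h1.mem_of_closed ?_ ⟨conn_refl _ _, conn_refl _ _⟩
      rintro u w huw ⟨h4, h5⟩
      exact ⟨h4.trans (conn_of_mem huw), h5.trans (conn_of_mem (Finset.mem_filter.2 ⟨huw, u, by simp, h4⟩))⟩
    exact this.2
  · have : e ∈ {y | ¬ Conn F a y ∧ Conn (F.filter (fun f => ¬ ∃ v ∈ f, Conn F a v)) c y} := by
      refine h2.mem_of_closed ?_ ⟨h3, conn_refl _ _⟩
      rintro u w huw ⟨h4, h5⟩
      have h6 : ¬ Conn F a w := fun h => h4 (h.trans (conn_of_mem huw).symm)
      refine ⟨h6, h5.trans (conn_of_mem (Finset.mem_filter.2 ⟨huw, ?_⟩))⟩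
      rintro ⟨v, hv, hav⟩
      rw [Sym2.mem_iff] at hv
      rcases hv with rfl | rfl
      · exact h4 hav
      · exact h6 hav
    exact this.2

theorem dtau_le (h0 : 0 ≤ q) (h1 : q ≤ 1) (_hS : ∀ s ∈ S, -s ∈ S) (x : G) :
    dtau q S x ≤ conv (tau q S) (conv (J S) (tau q S)) x := by
  have hR : conv (tau q S) (conv (J S) (tau q S)) x =
      ∑ u, ∑ w, if w - u ∈ S then tau q S u * tau q S (x - w) else 0 := by
    unfold conv
    refine Finset.sum_congr rfl fun u _ => ?_
    rw [Finset.mul_sum]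
    refine (Fintype.sum_equiv (Equiv.subRight u) _ _ fun w => ?_).symm
    simp only [J, Equiv.subRight_apply, ite_mul, one_mul, zero_mul, mul_ite, mul_zero]
    have : x - u - (w - u) = x - w := by abel
    rw [this]
  rw [hR]
  unfold dtau
  refine Finset.sum_le_sum fun u _ => Finset.sum_le_sum fun w _ => ?_
  by_cases h : w - u ∈ S
  · rw [if_pos h, if_pos h, ← tau_sub q S w x]
    have h2 : tau q S u = Pr q (cay S) (fun F => Conn F 0 u) := rfl
    rw [h2]
    refine le_trans (Pr_mono h0 h1 fun F _ hF => ?_) (bk h0 h1 _ (inc_conn 0 u) (inc_conn w x))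
    obtain ⟨h3, h4, h5⟩ := hF
    exact inc_dis _ _ (Finset.erase_subset _ _) (DU_dis h3 h4 fun h6 => h5 (h6.trans h4))
  · rw [if_neg h, if_neg h]

theorem dtau_nonneg (h0 : 0 ≤ q) (h1 : q ≤ 1) (x : G) : 0 ≤ dtau q S x := by
  unfold dtau
  refine Finset.sum_nonneg fun u _ => Finset.sum_nonneg fun w _ => ?_
  split_ifs
  · exact Pr_nonneg h0 h1 _ _
  · exact le_rfl

end DU

end Pool.Agent.helper66.LE
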