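import Pool.Agent.helper66.LE.Ineq

/-!
# Graph basics: connectivity in a finite set of edges
-/

open Finset Classical

namespace Pool.Agent.helper66.LE

variable {V W : Type*} {F F' : Finset (Sym2 V)} {x y z u w : V}

theorem conn_refl (F : Finset (Sym2 V)) (x : V) : Conn F x x := SimpleGraph.Reachable.refl _

theorem Conn.symm (h : Conn F x y) : Conn F y x := SimpleGraph.Reachable.symm h

theorem conn_comm : Conn F x y ↔ Conn F y x := ⟨Conn.symm, Conn.symm⟩

theorem Conn.trans (h : Conn F x y) (h' : Conn F y z) : Conn F x z := SimpleGraph.Reachable.trans h h'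

theorem conn_of_mem (h : s(x, y) ∈ F) : Conn F x y := by
  by_cases hxy : x = y
  · subst hxy; exact conn_refl _ _
  · exact SimpleGraph.Adj.reachable ((SimpleGraph.fromEdgeSet_adj _).2 ⟨by exact_mod_cast h, hxy⟩)

/-- Induction principle: a set closed under the edges of `F` is closed under connection. -/
theorem Conn.mem_of_closed {S : Set V} (hS : ∀ u w, s(u, w) ∈ F → u ∈ S → w ∈ S) (h : Conn F x y)
    (hx : x ∈ S) : y ∈ S := by
  obtain ⟨p⟩ := h
  induction p with
  | nil => exact hx
  | cons h p ih =>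
    rw [SimpleGraph.fromEdgeSet_adj] at h
    exact ih (hS _ _ (by exact_mod_cast h.1) hx)

theorem Conn.mono (hF : F ⊆ F') (h : Conn F x y) : Conn F' x y := by
  refine h.mem_of_closed (S := {y | Conn F' x y}) ?_ (conn_refl _ _)
  intro u w huw hu
  exact Conn.trans hu (conn_of_mem (hF huw))

theorem inc_conn (x y : V) : Inc (fun F : Finset (Sym2 V) => Conn F x y) := fun _ _ h h' => h'.mono h

theorem conn_image_c (φ : V → W) (h : Conn F x y) : Conn (F.image (Sym2.map φ)) (φ x) (φ y) := by
  refine h.mem_of_closed (S := {y | Conn (F.image (Sym2.map φ)) (φ x) (φ y)}) ?_ (conn_refl _ _)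
  intro u w huw hu
  refine Conn.trans hu (conn_of_mem ?_)
  rw [Finset.mem_image]
  exact ⟨s(u, w), huw, by simp⟩

theorem conn_insert_iff_c : Conn (insert s(u, w) F) x y ↔
    Conn F x y ∨ (Conn F x u ∧ Conn F w y) ∨ (Conn F x w ∧ Conn F u y) := by
  constructor
  · intro h
    refine h.mem_of_closed (S := {y | Conn F x y ∨ (Conn F x u ∧ Conn F w y) ∨ (Conn F x w ∧ Conn F u y)}) ?_
      (Or.inl (conn_refl _ _))
    intro a b hab ha
    rcases Finset.mem_insert.1 hab with h1 | h1
    · rw [Sym2.eq_iff] at h1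
      rcases h1 with ⟨rfl, rfl⟩ | ⟨rfl, rfl⟩
      · rcases ha with h2 | h2 | h2
        · exact Or.inr (Or.inl ⟨h2, conn_refl _ _⟩)
        · exact Or.inr (Or.inl ⟨h2.1, conn_refl _ _⟩)
        · exact Or.inl h2.1
      · rcases ha with h2 | h2 | h2
        · exact Or.inr (Or.inr ⟨h2, conn_refl _ _⟩)
        · exact Or.inl h2.1
        · exact Or.inr (Or.inr ⟨h2.1, conn_refl _ _⟩)
    · have hc := conn_of_mem h1
      rcases ha with h2 | h2 | h2
      · exact Or.inl (h2.trans hc)
      · exact Or.inr (Or.inl ⟨h2.1, h2.2.trans hc⟩)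
      · exact Or.inr (Or.inr ⟨h2.1, h2.2.trans hc⟩)
  · have hs : F ⊆ insert s(u, w) F := Finset.subset_insert _ _
    have he : Conn (insert s(u, w) F) u w := conn_of_mem (Finset.mem_insert_self _ _)
    rintro (h | h | h)
    · exact h.mono hs
    · exact ((h.1.mono hs).trans he).trans (h.2.mono hs)
    · exact ((h.1.mono hs).trans he.symm).trans (h.2.mono hs)

/-- If `x` and `y` are connected in `F` but not without the edge `s(u,w)`, then exactly one of the two
orientations of the edge is the one in which it is crossed. -/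
theorem conn_piv_c (h : Conn F x y) (h' : ¬ Conn (F.erase s(u, w)) x y) :
    (Conn (F.erase s(u, w)) x u ∧ Conn (F.erase s(u, w)) w y) ∨
      (Conn (F.erase s(u, w)) x w ∧ Conn (F.erase s(u, w)) u y) := by
  have : Conn (insert s(u, w) (F.erase s(u, w))) x y := h.mono (by
    intro a ha
    by_cases hae : a = s(u, w)
    · exact Finset.mem_insert.2 (Or.inl hae)
    · exact Finset.mem_insert.2 (Or.inr (Finset.mem_erase.2 ⟨hae, ha⟩)))
  rcases conn_insert_iff_c.1 this with h1 | h1 | h1
  · exact absurd h1 h'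
  · exact Or.inl h1
  · exact Or.inr h1

theorem conn_piv_excl (h : ¬ Conn F x y) (h1 : Conn F x u ∧ Conn F w y) : ¬ (Conn F x w ∧ Conn F u y) :=
  fun h2 => h (h1.1.trans h2.2)

/-- A trail of the graph of `F` joining two connected points. -/
theorem exists_trail (h : Conn F x y) :
    ∃ p : (SimpleGraph.fromEdgeSet (F : Set (Sym2 V))).Walk x y, p.IsPath := by
  obtain ⟨p⟩ := h
  exact ⟨p.bypass, p.bypass_isPath⟩

theorem conn_of_walk {E : Set (Sym2 V)} (p : (SimpleGraph.fromEdgeSet E).Walk x y)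
    (hp : ∀ e ∈ p.edges, e ∈ F) : Conn F x y := by
  induction p with
  | nil => exact conn_refl _ _
  | cons h p ih =>
    refine Conn.trans (conn_of_mem (hp _ ?_)) (ih fun e he => hp _ ?_)
    · simp
    · simp [he]

/-- The first exit of a trail from a set `S`: the part before the exit stays in `S`, and the two parts and
the exit edge are disjoint. -/
theorem walk_exit {E : Set (Sym2 V)} (S : Set V) (p : (SimpleGraph.fromEdgeSet E).Walk x y) (hp : p.IsTrail)
    (hx : x ∈ S) (hy : y ∉ S) :
    ∃ u ∈ S, ∃ w ∉ S, s(u, w) ∈ p.edges ∧ ∃ F₁ F₂ : Finset (Sym2 V),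
      (∀ e ∈ F₁, e ∈ p.edges) ∧ (∀ e ∈ F₂, e ∈ p.edges) ∧ Disjoint F₁ F₂ ∧ s(u, w) ∉ F₁ ∧ s(u, w) ∉ F₂ ∧
      (∀ e ∈ F₁, ∀ a ∈ e, a ∈ S) ∧ Conn F₁ x u ∧ Conn F₂ w y := by
  induction p with
  | nil => exact absurd hx hy
  | @cons a b c h p ih =>
    rw [SimpleGraph.Walk.isTrail_cons] at hp
    by_cases hb : b ∈ S
    · obtain ⟨u, hu, w, hw, he, F₁, F₂, h1, h2, h3, h4, h5, h6, h7, h8⟩ := ih hp.1 hb hy
      refine ⟨u, hu, w, hw, by simp [he], insert s(a, b) F₁, F₂, ?_, ?_, ?_, ?_, h5, ?_, ?_, h8⟩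
      · intro e he
        rcases Finset.mem_insert.1 he with rfl | he
        · simp
        · simp [h1 e he]
      · intro e he
        simp [h2 e he]
      · rw [Finset.disjoint_insert_left]
        exact ⟨fun h9 => hp.2 (h2 _ h9), h3⟩
      · rw [Finset.mem_insert]
        rintro (h9 | h9)
        · exact hp.2 (h9 ▸ he)
        · exact h4 h9
      · intro e he a' ha'
        rcases Finset.mem_insert.1 he with rfl | he
        · rw [Sym2.mem_iff] at ha'
          rcases ha' with rfl | rfl
          · exact hx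
          · exact hb
        · exact h6 e he a' ha'
      · exact (conn_of_mem (Finset.mem_insert_self _ _)).trans (h7.mono (Finset.subset_insert _ _))
    · refine ⟨a, hx, b, hb, by simp, ∅, p.edges.toFinset, by simp, ?_, by simp, by simp, ?_, by simp,
        conn_refl _ _, ?_⟩
      · intro e he
        simp [List.mem_toFinset.1 he]
      · intro h9
        exact hp.2 (List.mem_toFinset.1 h9)
      · exact conn_of_walk p fun e he => List.mem_toFinset.2 he

/-- First exit of a connection from a set `S`, with disjointness. -/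
theorem conn_exit (S : Set V) (h : Conn F x y) (hx : x ∈ S) (hy : y ∉ S) :
    ∃ u ∈ S, ∃ w ∉ S, s(u, w) ∈ F ∧ ∃ F₁ F₂ : Finset (Sym2 V),
      F₁ ⊆ F ∧ F₂ ⊆ F ∧ Disjoint F₁ F₂ ∧ s(u, w) ∉ F₁ ∧ s(u, w) ∉ F₂ ∧
      (∀ e ∈ F₁, ∀ a ∈ e, a ∈ S) ∧ Conn F₁ x u ∧ Conn F₂ w y := by
  obtain ⟨p, hp⟩ := exists_trail h
  have hE : ∀ e ∈ p.edges, e ∈ F := by
    intro e he
    have := p.edges_subset_edgeSet he
    rw [SimpleGraph.edgeSet_fromEdgeSet] at this
    exact_mod_cast this.1
  obtain ⟨u, hu, w, hw, he, F₁, F₂, h1, h2, h3, h4, h5, h6, h7, h8⟩ := walk_exit S p hp.isTrail hx hy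
  exact ⟨u, hu, w, hw, hE _ he, F₁, F₂, fun e he => hE _ (h1 e he), fun e he => hE _ (h2 e he), h3, h4, h5,
    h6, h7, h8⟩

/-! ### versions with arbitrary decidability instances -/

theorem coe_image_i {α β : Type*} (i : DecidableEq β) (f : α → β) (s : Finset α) :
    ((@Finset.image α β i f s : Finset β) : Set β) = f '' s := Finset.coe_image

theorem coe_insert_i {α : Type*} (i : DecidableEq α) (a : α) (s : Finset α) :
    ((@insert _ _ (@Finset.instInsert _ i) a s : Finset α) : Set α) = insert a (s : Set α) := Finset.coe_insert a s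

theorem coe_erase_i {α : Type*} (i : DecidableEq α) (a : α) (s : Finset α) :
    ((@Finset.erase _ i s a : Finset α) : Set α) = (s : Set α) \ {a} := Finset.coe_erase a s

theorem Conn.image [DecidableEq (Sym2 W)] (φ : V → W) (h : Conn F x y) :
    Conn (F.image (Sym2.map φ)) (φ x) (φ y) := by
  have := conn_image_c φ h
  unfold Conn at this ⊢
  rw [coe_image_i] at this ⊢
  exact this

theorem conn_insert_iff [DecidableEq (Sym2 V)] : Conn (insert s(u, w) F) x y ↔
    Conn F x y ∨ (Conn F x u ∧ Conn F w y) ∨ (Conn F x w ∧ Conn F u y) := by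
  rw [← conn_insert_iff_c]
  unfold Conn
  rw [coe_insert_i, coe_insert_i]

/-- If `x` and `y` are connected in `F` but not without the edge `s(u,w)`, then exactly one of the two
orientations of the edge is the one in which it is crossed. -/
theorem conn_piv [DecidableEq (Sym2 V)] (h : Conn F x y) (h' : ¬ Conn (F.erase s(u, w)) x y) :
    (Conn (F.erase s(u, w)) x u ∧ Conn (F.erase s(u, w)) w y) ∨
      (Conn (F.erase s(u, w)) x w ∧ Conn (F.erase s(u, w)) u y) := by
  have := conn_piv_c h (u := u) (w := w)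
  unfold Conn at this h' ⊢
  rw [coe_erase_i] at this h' ⊢
  exact this h'

end Pool.Agent.helper66.LE
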