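import Pool.Agent.helper66.LE.Defs

/-!
# Basic facts on the finite product measure `Ex`, `Pr`
-/

open Finset Classical

namespace Pool.Agent.helper66.LE

variable {ι κ : Type*} {q : ℝ}

theorem wt_nonneg (h0 : 0 ≤ q) (h1 : q ≤ 1) (E F : Finset ι) : 0 ≤ wt q E F := by
  unfold wt
  refine Finset.prod_nonneg fun e _ => ?_
  split_ifs <;> linarith

theorem wt_empty (q : ℝ) (F : Finset ι) : wt q ∅ F = 1 := by simp [wt]

theorem wt_insert_c {e : ι} {E : Finset ι} (he : e ∉ E) (q : ℝ) (F : Finset ι) :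
    wt q (insert e E) F = (if e ∈ F then q else 1 - q) * wt q E F := by
  unfold wt
  rw [Finset.prod_insert he]

theorem wt_congr {E F F' : Finset ι} (h : ∀ e ∈ E, e ∈ F ↔ e ∈ F') (q : ℝ) : wt q E F = wt q E F' := by
  unfold wt
  refine Finset.prod_congr rfl fun e he => ?_
  simp only [h e he]

theorem Ex_congr {E : Finset ι} {f g : Finset ι → ℝ} (h : ∀ F ⊆ E, f F = g F) : Ex q E f = Ex q E g := by
  unfold Ex
  refine Finset.sum_congr rfl fun F hF => ?_
  rw [h F (Finset.mem_powerset.1 hF)]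

theorem Pr_congr {E : Finset ι} {A B : Finset ι → Prop} (h : ∀ F ⊆ E, (A F ↔ B F)) : Pr q E A = Pr q E B := by
  unfold Pr
  refine Ex_congr fun F hF => ?_
  simp only [h F hF]

@[simp] theorem Ex_empty (q : ℝ) (f : Finset ι → ℝ) : Ex q ∅ f = f ∅ := by
  simp [Ex, wt]

theorem Ex_insert_c {e : ι} {E : Finset ι} (he : e ∉ E) (q : ℝ) (f : Finset ι → ℝ) :
    Ex q (insert e E) f = (1 - q) * Ex q E f + q * Ex q E (fun F => f (insert e F)) := by
  unfold Ex
  rw [Finset.sum_powerset_insert he, Finset.mul_sum, Finset.mul_sum]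
  congr 1
  · refine Finset.sum_congr rfl fun F hF => ?_
    have : e ∉ F := fun h => he (Finset.mem_powerset.1 hF h)
    rw [wt_insert_c he, if_neg this]
    ring
  · refine Finset.sum_congr rfl fun F hF => ?_
    rw [wt_insert_c he, if_pos (Finset.mem_insert_self _ _)]
    rw [wt_congr (E := E) (F := insert e F) (F' := F)]
    · ring
    · intro a ha
      simp only [Finset.mem_insert]
      constructor
      · rintro (rfl | h)
        · exact absurd ha he
        · exact h
      · exact Or.inr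

theorem Ex_add (q : ℝ) (E : Finset ι) (f g : Finset ι → ℝ) :
    Ex q E (fun F => f F + g F) = Ex q E f + Ex q E g := by
  unfold Ex
  rw [← Finset.sum_add_distrib]
  exact Finset.sum_congr rfl fun F _ => by ring

theorem Ex_sub (q : ℝ) (E : Finset ι) (f g : Finset ι → ℝ) :
    Ex q E (fun F => f F - g F) = Ex q E f - Ex q E g := by
  unfold Ex
  rw [← Finset.sum_sub_distrib]
  exact Finset.sum_congr rfl fun F _ => by ring

theorem Ex_const_mul (q : ℝ) (E : Finset ι) (c : ℝ) (f : Finset ι → ℝ) :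
    Ex q E (fun F => c * f F) = c * Ex q E f := by
  unfold Ex
  rw [Finset.mul_sum]
  exact Finset.sum_congr rfl fun F _ => by ring

theorem Ex_mul_const (q : ℝ) (E : Finset ι) (c : ℝ) (f : Finset ι → ℝ) :
    Ex q E (fun F => f F * c) = Ex q E f * c := by
  unfold Ex
  rw [Finset.sum_mul]
  exact Finset.sum_congr rfl fun F _ => by ring

theorem Ex_sum {α : Type*} (q : ℝ) (E : Finset ι) (s : Finset α) (f : α → Finset ι → ℝ) :
    Ex q E (fun F => ∑ a ∈ s, f a F) = ∑ a ∈ s, Ex q E (f a) := by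
  unfold Ex
  rw [Finset.sum_comm]
  exact Finset.sum_congr rfl fun F _ => by rw [Finset.mul_sum]

theorem Ex_const (q : ℝ) (E : Finset ι) (c : ℝ) : Ex q E (fun _ => c) = c := by
  induction E using Finset.induction_on with
  | empty => simp
  | insert e E he ih => rw [Ex_insert_c he, ih]; ring

theorem Ex_mono (h0 : 0 ≤ q) (h1 : q ≤ 1) {E : Finset ι} {f g : Finset ι → ℝ}
    (h : ∀ F ⊆ E, f F ≤ g F) : Ex q E f ≤ Ex q E g := by
  unfold Ex
  exact Finset.sum_le_sum fun F hF =>
    mul_le_mul_of_nonneg_left (h F (Finset.mem_powerset.1 hF)) (wt_nonneg h0 h1 _ _)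

theorem Ex_nonneg (h0 : 0 ≤ q) (h1 : q ≤ 1) {E : Finset ι} {f : Finset ι → ℝ}
    (h : ∀ F ⊆ E, 0 ≤ f F) : 0 ≤ Ex q E f := by
  have := Ex_mono (f := fun _ => 0) h0 h1 h
  rwa [Ex_const] at this

/-- Fubini for a disjoint union of edge sets. -/
theorem Ex_union_c {E₁ E₂ : Finset ι} (h : Disjoint E₁ E₂) (q : ℝ) (f : Finset ι → ℝ) :
    Ex q (E₁ ∪ E₂) f = Ex q E₁ (fun F₁ => Ex q E₂ (fun F₂ => f (F₁ ∪ F₂))) := by
  induction E₁ using Finset.induction_on generalizing f with
  | empty => simp
  | insert e E₁ he ih =>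
    rw [Finset.disjoint_insert_left] at h
    have he' : e ∉ E₁ ∪ E₂ := by
      rw [Finset.mem_union]
      rintro (h1 | h1)
      · exact he h1
      · exact h.1 h1
    rw [Finset.insert_union, Ex_insert_c he', Ex_insert_c he, ih h.2, ih h.2]
    simp only [Finset.insert_union]

/-- Functions of the configuration restricted to `E'`. -/
theorem Ex_inter_c {E E' : Finset ι} (h : E' ⊆ E) (q : ℝ) (f : Finset ι → ℝ) :
    Ex q E (fun F => f (F ∩ E')) = Ex q E' f := by
  have h1 : E = E' ∪ (E \ E') := by rw [Finset.union_sdiff_of_subset h]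
  rw [h1, Ex_union_c Finset.disjoint_sdiff]
  refine Ex_congr fun F hF => ?_
  have h2 : Ex q (E \ E') (fun F₂ => f ((F ∪ F₂) ∩ E')) = Ex q (E \ E') (fun _ => f F) := by
    refine Ex_congr fun F₂ hF₂ => ?_
    congr 1
    ext a
    simp only [Finset.mem_inter, Finset.mem_union]
    constructor
    · rintro ⟨h3 | h3, h4⟩
      · exact h3
      · exact absurd h4 (Finset.mem_sdiff.1 (hF₂ h3)).2
    · exact fun h3 => ⟨Or.inl h3, hF h3⟩
  rw [h2, Ex_const]

/-- The status of the edge `e` is irrelevant for a function of `F.erase e`. -/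
theorem Ex_erase_c {E : Finset ι} {e : ι} (q : ℝ) (f : Finset ι → ℝ) :
    Ex q E (fun F => f (F.erase e)) = Ex q (E.erase e) f := by
  rw [← Ex_inter_c (Finset.erase_subset e E)]
  refine Ex_congr fun F hF => ?_
  congr 1
  ext a
  simp only [Finset.mem_erase, Finset.mem_inter]
  constructor
  · exact fun h => ⟨h.2, h.1, hF h.2⟩
  · exact fun h => ⟨h.2.1, h.1⟩

/-- The edge `e` is open and the rest is in `f`: independence. -/
theorem Ex_open_c {E : Finset ι} {e : ι} (he : e ∈ E) (q : ℝ) (f : Finset ι → ℝ) :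
    Ex q E (fun F => if e ∈ F then f (F.erase e) else 0) = q * Ex q E (fun F => f (F.erase e)) := by
  rw [Ex_erase_c]
  conv_lhs => rw [← Finset.insert_erase he]
  rw [Ex_insert_c (Finset.notMem_erase e E)]
  have h1 : Ex q (E.erase e) (fun F => if e ∈ F then f (F.erase e) else 0) = Ex q (E.erase e) (fun _ => 0) := by
    refine Ex_congr fun F hF => ?_
    rw [if_neg (fun h => Finset.notMem_erase e E (hF h))]
  have h2 : Ex q (E.erase e) (fun F => if e ∈ insert e F then f ((insert e F).erase e) else 0) =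
      Ex q (E.erase e) f := by
    refine Ex_congr fun F hF => ?_
    rw [if_pos (Finset.mem_insert_self e F), Finset.erase_insert (fun h => Finset.notMem_erase e E (hF h))]
  rw [h1, h2, Ex_const]
  ring

/-- Change of variables. -/
theorem Ex_image_c {E : Finset ι} (φ : ι → κ) (hφ : Set.InjOn φ E) (q : ℝ) (f : Finset κ → ℝ) :
    Ex q (E.image φ) f = Ex q E (fun F => f (F.image φ)) := by
  induction E using Finset.induction_on generalizing f with
  | empty => simp
  | insert e E he ih =>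
    have h1 : φ e ∉ E.image φ := by
      intro h
      obtain ⟨a, ha, hae⟩ := Finset.mem_image.1 h
      have := hφ (by simp [ha]) (by simp) hae
      exact he (this ▸ ha)
    have h2 : Set.InjOn φ E := hφ.mono (by simp)
    rw [Finset.image_insert, Ex_insert_c h1, Ex_insert_c he, ih h2, ih h2]
    simp only [Finset.image_insert]

theorem Pr_nonneg (h0 : 0 ≤ q) (h1 : q ≤ 1) (E : Finset ι) (A : Finset ι → Prop) : 0 ≤ Pr q E A :=
  Ex_nonneg h0 h1 fun F _ => by split_ifs <;> norm_num

theorem Pr_mono (h0 : 0 ≤ q) (h1 : q ≤ 1) {E : Finset ι} {A B : Finset ι → Prop}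
    (h : ∀ F ⊆ E, A F → B F) : Pr q E A ≤ Pr q E B := by
  refine Ex_mono h0 h1 fun F hF => ?_
  by_cases hA : A F
  · rw [if_pos hA, if_pos (h F hF hA)]
  · rw [if_neg hA]; split_ifs <;> norm_num

theorem Pr_le_one (h0 : 0 ≤ q) (h1 : q ≤ 1) (E : Finset ι) (A : Finset ι → Prop) : Pr q E A ≤ 1 := by
  have := Ex_mono (E := E) (f := fun F => if A F then (1 : ℝ) else 0) (g := fun _ => 1) h0 h1
    fun F _ => by split_ifs <;> norm_num
  rwa [Ex_const] at this

theorem Pr_true (q : ℝ) (E : Finset ι) {A : Finset ι → Prop} (h : ∀ F ⊆ E, A F) : Pr q E A = 1 :=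
  (Ex_congr fun F hF => if_pos (h F hF)).trans (Ex_const q E 1)

theorem Pr_false (q : ℝ) (E : Finset ι) {A : Finset ι → Prop} (h : ∀ F ⊆ E, ¬ A F) : Pr q E A = 0 :=
  (Ex_congr fun F hF => if_neg (h F hF)).trans (Ex_const q E 0)

theorem Pr_not (q : ℝ) (E : Finset ι) (A : Finset ι → Prop) : Pr q E (fun F => ¬ A F) = 1 - Pr q E A := by
  have h : Ex q E (fun F => (1 : ℝ) - (if A F then 1 else 0)) = 1 - Pr q E A := by
    rw [Ex_sub, Ex_const]; rfl
  rw [← h]
  refine Ex_congr fun F _ => ?_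
  by_cases hA : A F <;> simp [hA]

theorem Pr_or_le (h0 : 0 ≤ q) (h1 : q ≤ 1) (E : Finset ι) (A B : Finset ι → Prop) :
    Pr q E (fun F => A F ∨ B F) ≤ Pr q E A + Pr q E B := by
  unfold Pr
  rw [← Ex_add]
  refine Ex_mono h0 h1 fun F _ => ?_
  by_cases hA : A F <;> by_cases hB : B F <;> simp [hA, hB]

/-- union bound. -/
theorem Pr_exists_le {α : Type*} (h0 : 0 ≤ q) (h1 : q ≤ 1) (E : Finset ι) (s : Finset α)
    (A : α → Finset ι → Prop) :
    Pr q E (fun F => ∃ a ∈ s, A a F) ≤ ∑ a ∈ s, Pr q E (A a) := by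
  unfold Pr
  rw [← Ex_sum]
  refine Ex_mono h0 h1 fun F _ => ?_
  split_ifs with h
  · obtain ⟨a, ha, hA⟩ := h
    have : (if A a F then (1 : ℝ) else 0) ≤ ∑ b ∈ s, if A b F then (1 : ℝ) else 0 :=
      Finset.single_le_sum (f := fun b => if A b F then (1 : ℝ) else 0)
        (fun b _ => by split_ifs <;> norm_num) ha
    rwa [if_pos hA] at this
  · exact Finset.sum_nonneg fun b _ => by split_ifs <;> norm_num

/-- comparison of percolation on two edge sets through an injection. -/
theorem Pr_le_of_map_c (h0 : 0 ≤ q) (h1 : q ≤ 1) {E : Finset ι} {E' : Finset κ} (φ : ι → κ)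
    (hφ : Set.InjOn φ E) (hE : E.image φ ⊆ E') (A : Finset ι → Prop) (B : Finset κ → Prop) (hB : Inc B)
    (h : ∀ F ⊆ E, A F → B (F.image φ)) : Pr q E A ≤ Pr q E' B := by
  have h2 : Pr q E A ≤ Pr q (E.image φ) B := by
    unfold Pr
    rw [Ex_image_c φ hφ]
    exact Pr_mono h0 h1 h
  refine h2.trans ?_
  unfold Pr
  rw [← Ex_inter_c hE]
  refine Ex_mono h0 h1 fun F _ => ?_
  by_cases hA : B (F ∩ E.image φ)
  · rw [if_pos hA, if_pos (hB _ _ Finset.inter_subset_left hA)]
  · rw [if_neg hA]; split_ifs <;> norm_num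

/-! ### versions with arbitrary decidability instances -/

theorem wt_insert [DecidableEq ι] {e : ι} {E : Finset ι} (he : e ∉ E) (q : ℝ) (F : Finset ι) :
    wt q (insert e E) F = (if e ∈ F then q else 1 - q) * wt q E F := by
  have := Subsingleton.elim ‹DecidableEq ι› (fun a b => propDecidable (a = b))
  subst this
  exact wt_insert_c he q F

theorem Ex_insert [DecidableEq ι] {e : ι} {E : Finset ι} (he : e ∉ E) (q : ℝ) (f : Finset ι → ℝ) :
    Ex q (insert e E) f = (1 - q) * Ex q E f + q * Ex q E (fun F => f (insert e F)) := by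
  have := Subsingleton.elim ‹DecidableEq ι› (fun a b => propDecidable (a = b))
  subst this
  exact Ex_insert_c he q f

/-- Fubini for a disjoint union of edge sets. -/
theorem Ex_union [DecidableEq ι] {E₁ E₂ : Finset ι} (h : Disjoint E₁ E₂) (q : ℝ) (f : Finset ι → ℝ) :
    Ex q (E₁ ∪ E₂) f = Ex q E₁ (fun F₁ => Ex q E₂ (fun F₂ => f (F₁ ∪ F₂))) := by
  have := Subsingleton.elim ‹DecidableEq ι› (fun a b => propDecidable (a = b))
  subst this
  exact Ex_union_c h q f

/-- Functions of the configuration restricted to `E'`. -/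
theorem Ex_inter [DecidableEq ι] {E E' : Finset ι} (h : E' ⊆ E) (q : ℝ) (f : Finset ι → ℝ) :
    Ex q E (fun F => f (F ∩ E')) = Ex q E' f := by
  have := Subsingleton.elim ‹DecidableEq ι› (fun a b => propDecidable (a = b))
  subst this
  exact Ex_inter_c h q f

/-- The status of the edge `e` is irrelevant for a function of `F.erase e`. -/
theorem Ex_erase [DecidableEq ι] {E : Finset ι} {e : ι} (q : ℝ) (f : Finset ι → ℝ) :
    Ex q E (fun F => f (F.erase e)) = Ex q (E.erase e) f := by
  have := Subsingleton.elim ‹DecidableEq ι› (fun a b => propDecidable (a = b))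
  subst this
  exact Ex_erase_c q f

/-- The edge `e` is open and the rest is in `f`: independence. -/
theorem Ex_open [DecidableEq ι] {E : Finset ι} {e : ι} (he : e ∈ E) (q : ℝ) (f : Finset ι → ℝ) :
    Ex q E (fun F => if e ∈ F then f (F.erase e) else 0) = q * Ex q E (fun F => f (F.erase e)) := by
  have := Subsingleton.elim ‹DecidableEq ι› (fun a b => propDecidable (a = b))
  subst this
  exact Ex_open_c he q f

/-- Change of variables. -/
theorem Ex_image [DecidableEq κ] {E : Finset ι} (φ : ι → κ) (hφ : Set.InjOn φ E) (q : ℝ)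
    (f : Finset κ → ℝ) : Ex q (E.image φ) f = Ex q E (fun F => f (F.image φ)) := by
  have := Subsingleton.elim ‹DecidableEq κ› (fun a b => propDecidable (a = b))
  subst this
  exact Ex_image_c φ hφ q f

/-- comparison of percolation on two edge sets through an injection. -/
theorem Pr_le_of_map [DecidableEq κ] (h0 : 0 ≤ q) (h1 : q ≤ 1) {E : Finset ι} {E' : Finset κ} (φ : ι → κ)
    (hφ : Set.InjOn φ E) (hE : E.image φ ⊆ E') (A : Finset ι → Prop) (B : Finset κ → Prop) (hB : Inc B)
    (h : ∀ F ⊆ E, A F → B (F.image φ)) : Pr q E A ≤ Pr q E' B := by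
  have := Subsingleton.elim ‹DecidableEq κ› (fun a b => propDecidable (a = b))
  subst this
  exact Pr_le_of_map_c h0 h1 φ hφ hE A B hB h

end Pool.Agent.helper66.LE
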