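import Pool.Agent.helper66.LE.Main
import Pool.Agent.helper66.LE.Defs3
import Pool.Agent.helper2.LE.C7
import Pool.Agent.helper2.LE.C8b
import Pool.Agent.helper2.LE.C9a
import Pool.Agent.helper17.LE.C6
import Pool.Agent.helper91.LE.C4b
import Pool.Agent.helper26.LE.C9b

/-!
# Upper bound for the time constant, the critical exponent
-/

open Finset Classical MeasureTheory Filter Topology

namespace Pool.Agent.helper66.LE

section CF

/-- polynomials are smaller than exponentials. -/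
theorem CF_poly (m : ℕ) {η : ℝ} (hη : 0 < η) : ∃ A : ℝ, 0 < A ∧ ∀ J : ℕ, ((J : ℝ) + 1) ^ m ≤ A * (2 : ℝ) ^ (η * J) := by
  have hb : 0 < η * Real.log 2 := mul_pos hη (Real.log_pos (by norm_num))
  have h1 := (isLittleO_pow_exp_pos_mul_atTop m hb).bound (show (0 : ℝ) < 1 by norm_num)
  rw [Filter.eventually_atTop] at h1
  obtain ⟨a, ha⟩ := h1
  have hexp : ∀ x : ℝ, (2 : ℝ) ^ (η * x) = Real.exp (η * Real.log 2 * x) := by
    intro x
    rw [Real.rpow_def_of_pos (by norm_num)]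
    congr 1; ring
  set N := Nat.ceil (max a 0) with hN
  set A₁ : ℝ := ((N : ℝ) + 1) ^ m with hA₁
  have hA₁0 : 0 < A₁ := by positivity
  refine ⟨max (Real.exp (η * Real.log 2)) A₁, lt_max_of_lt_right hA₁0, fun J => ?_⟩
  have hpos : 0 < (2 : ℝ) ^ (η * J) := Real.rpow_pos_of_pos (by norm_num) _
  have hge1 : 1 ≤ (2 : ℝ) ^ (η * J) := Real.one_le_rpow (by norm_num) (by positivity)
  by_cases hJ : a ≤ (J : ℝ) + 1
  · have h2 := ha ((J : ℝ) + 1) hJ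
    rw [Real.norm_of_nonneg (by positivity), Real.norm_of_nonneg (Real.exp_pos _).le, one_mul] at h2
    calc ((J : ℝ) + 1) ^ m ≤ Real.exp (η * Real.log 2 * ((J : ℝ) + 1)) := h2
      _ = Real.exp (η * Real.log 2) * (2 : ℝ) ^ (η * J) := by
          rw [hexp, ← Real.exp_add]; congr 1; ring
      _ ≤ _ := mul_le_mul_of_nonneg_right (le_max_left _ _) hpos.le
  · have h3 : (J : ℝ) + 1 ≤ (N : ℝ) + 1 := by
      have : a ≤ N := (le_max_left a 0).trans (Nat.le_ceil _)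
      push Not at hJ
      linarith
    calc ((J : ℝ) + 1) ^ m ≤ A₁ := pow_le_pow_left₀ (by positivity) h3 m
      _ ≤ max (Real.exp (η * Real.log 2)) A₁ * 1 := by rw [mul_one]; exact le_max_right _ _
      _ ≤ _ := mul_le_mul_of_nonneg_left hge1 (le_max_of_le_right hA₁0.le)

/-- the bound at the scale `2^J`. -/
theorem CF_scale : ∃ d₀ : ℕ, ∀ d ≥ d₀, ∀ [NeZero d], 100 ≤ d ∧ pc d < 1 ∧ ∃ (κ : ℝ) (j₀ : ℕ), 0 < κ ∧ 1 ≤ j₀ ∧
    ∀ J : ℕ, j₀ ≤ J → ∀ q : ℝ, 0 ≤ q → q ≤ 1 → pc d - κ / 4 ^ J ≤ q → ∀ g, IsTimeConst d (1 - q) g →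
      g ≤ (1 / 2 : ℝ) ^ J * (hopK d j₀ (d * 2 ^ d * ((2 * J + 6) * d + 2 * J)) (J / 2) +
        d * 2 ^ d * ((2 * J + 6) * d + 2 * J) + d + 1) := by
  obtain ⟨d₀, h⟩ := cross_box
  refine ⟨d₀, fun d hd _ => ?_⟩
  obtain ⟨hd1, hpc1, κ, C₀, r₀, hκ, hC₀, hcross⟩ := h d hd
  -- choice of j₀
  obtain ⟨a, ha⟩ := pow_unbounded_of_one_lt C₀ (show (1 : ℝ) < 2 by norm_num)
  set j₀ := max (max r₀ a) 2 with hj₀
  have hj₀r : r₀ ≤ j₀ := (le_max_left _ _).trans (le_max_left _ _)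
  have hj₀a : a ≤ j₀ := (le_max_right _ _).trans (le_max_left _ _)
  have hj₀2 : 2 ≤ j₀ := le_max_right _ _
  refine ⟨hd1, hpc1, κ, j₀, hκ, by omega, fun J hJ q h0 h1 hq g hg => ?_⟩
  set D := d * 2 ^ d with hD
  set m := (2 * J + 6) * d + 2 * J with hm
  have hDpos : 0 < D := by positivity
  have hmpos : 0 < m := by
    have : 0 < (2 * J + 6) * d := by positivity
    omega
  have hDm : 1 ≤ D * m := Nat.mul_pos hDpos hmpos
  set k := D * m - 1 with hk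
  have hk1 : k + 1 = D * m := by omega
  -- crossing probabilities at all scales
  have hface : ∀ j ∈ Finset.Icc j₀ J, ∀ (i : Fin d) (σ : Fin d → Bool), Pr q (zE d (box d (2 ^ j))) (fun F =>
      ¬ PTS (zE d (box d (2 ^ j))) F k (box d (2 ^ (j / 2)) : Set (Fin d → ℤ)) (fq d (2 ^ j) i σ)) ≤
        (1 / 2 : ℝ) ^ m := by
    intro j hj i σ
    rw [Finset.mem_Icc] at hj
    have hs : 2 ^ (j / 2) ≤ 2 ^ j := Nat.pow_le_pow_right (by norm_num) (Nat.div_le_self _ _)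
    have hr : r₀ ≤ 2 ^ j := by
      have : j < 2 ^ j := Nat.lt_two_pow_self
      omega
    have hC : C₀ * ((2 ^ j : ℕ) : ℝ) ^ 6 ≤ ((2 ^ (j / 2) : ℕ) : ℝ) ^ d := by
      have h2 : ((2 ^ (j / 2) : ℕ) : ℝ) ^ 100 ≤ ((2 ^ (j / 2) : ℕ) : ℝ) ^ d := by
        refine pow_le_pow_right₀ ?_ hd1
        exact_mod_cast Nat.one_le_two_pow
      refine le_trans ?_ h2
      have h3 : (2 : ℝ) ^ (50 * (j - 1)) ≤ ((2 ^ (j / 2) : ℕ) : ℝ) ^ 100 := by
        push_cast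
        rw [← pow_mul]
        refine pow_le_pow_right₀ (by norm_num) ?_
        omega
      refine le_trans ?_ h3
      have h4 : C₀ ≤ (2 : ℝ) ^ j := ha.le.trans (pow_le_pow_right₀ (by norm_num) (by omega))
      push_cast
      rw [← pow_mul]
      calc C₀ * (2 : ℝ) ^ (j * 6) ≤ 2 ^ j * 2 ^ (j * 6) := mul_le_mul_of_nonneg_right h4 (by positivity)
        _ = 2 ^ (j + j * 6) := by rw [pow_add]
        _ ≤ 2 ^ (50 * (j - 1)) := pow_le_pow_right₀ (by norm_num) (by omega)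
    have hqj : pc d - κ / ((2 ^ j : ℕ) : ℝ) ^ 2 ≤ q := by
      refine le_trans ?_ hq
      refine sub_le_sub_left ?_ _
      refine div_le_div_of_nonneg_left hκ.le (by positivity) ?_
      push_cast
      rw [← pow_mul, show (4 : ℝ) = 2 ^ 2 by norm_num, ← pow_mul]
      exact pow_le_pow_right₀ (by norm_num) (by omega)
    have h5 := hcross (2 ^ j) (2 ^ (j / 2)) hr hs hC q h0 h1 hqj
    have h6 := face_bound h0 h1 d (2 ^ j) (2 ^ (j / 2)) k i σ h5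
    rw [hk1, mul_comm D m, pow_mul (1 / 2 : ℝ) m D] at h6
    exact le_of_pow_le_pow_left₀ hDpos.ne' (by positivity) h6
  set n := 4 ^ J with hn
  set M := 2 * n + 2 ^ (J + 2) with hM
  set R := 2 * n + 2 ^ (J + 3) with hR
  have h2J : 2 ^ J ≤ n := by
    rw [hn]; exact Nat.pow_le_pow_left (by norm_num) J
  have hbad := union_bad (q := q) h0 h1 d k M R (Finset.Icc j₀ J) (fun j => 2 ^ (j / 2)) ((1 / 2 : ℝ) ^ m)
    (by
      intro j hj
      rw [Finset.mem_Icc] at hj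
      have h1 : 2 ^ j ≤ 2 ^ J := Nat.pow_le_pow_right (by norm_num) hj.2
      have h2 : 2 ^ (J + 2) = 4 * 2 ^ J := by ring
      have h3 : 2 ^ (J + 3) = 8 * 2 ^ J := by ring
      omega)
    (fun j _ => Nat.pow_le_pow_right (by norm_num) (Nat.div_le_self _ _)) hface
  -- the total failure probability
  have htot : ((Finset.Icc j₀ J).card : ℝ) * (2 * M + 1) ^ d * (d * 2 ^ d) * (1 / 2 : ℝ) ^ m ≤ (1 / 2 : ℝ) ^ J := by
    have c1 : ((Finset.Icc j₀ J).card : ℝ) ≤ 2 ^ J := by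
      rw [Nat.card_Icc]
      have : J + 1 - j₀ ≤ 2 ^ J := by
        have : J < 2 ^ J := Nat.lt_two_pow_self
        omega
      exact_mod_cast this
    have c2 : (2 * (M : ℝ) + 1) ≤ 2 ^ (2 * J + 4) := by
      have h1 : 2 ^ (J + 2) = 4 * 2 ^ J := by ring
      have h2 : 1 ≤ n := Nat.one_le_iff_ne_zero.2 (by rw [hn]; positivity)
      have h3 : 2 * M + 1 ≤ 16 * n := by omega
      have h4 : (16 : ℕ) * n = 2 ^ (2 * J + 4) := by
        rw [hn, show (4 : ℕ) = 2 ^ 2 by norm_num, ← pow_mul, pow_add]; ring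
      rw [h4] at h3
      exact_mod_cast h3
    have c3 : ((d : ℝ) * 2 ^ d) ≤ 2 ^ (2 * d) := by
      have : d * 2 ^ d ≤ 2 ^ (2 * d) := by
        have : d < 2 ^ d := Nat.lt_two_pow_self
        calc d * 2 ^ d ≤ 2 ^ d * 2 ^ d := Nat.mul_le_mul_right _ this.le
          _ = 2 ^ (2 * d) := by rw [← pow_add]; congr 1; ring
      exact_mod_cast this
    have c4 : ((Finset.Icc j₀ J).card : ℝ) * (2 * M + 1) ^ d * (d * 2 ^ d) ≤
        2 ^ J * (2 ^ (2 * J + 4)) ^ d * 2 ^ (2 * d) := by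
      have e1 : (2 * (M : ℝ) + 1) ^ d ≤ (2 ^ (2 * J + 4)) ^ d := pow_le_pow_left₀ (by positivity) c2 d
      exact mul_le_mul (mul_le_mul c1 e1 (by positivity) (by positivity)) c3 (by positivity) (by positivity)
    have c5 : (2 : ℝ) ^ J * (2 ^ (2 * J + 4)) ^ d * 2 ^ (2 * d) * (1 / 2 : ℝ) ^ m = (1 / 2 : ℝ) ^ J := by
      have : (2 : ℝ) ^ J * (2 ^ (2 * J + 4)) ^ d * 2 ^ (2 * d) = 2 ^ (J + (2 * J + 4) * d + 2 * d) := by
        rw [← pow_mul, ← pow_add, ← pow_add]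
      rw [this, hm]
      have h2 : (2 * J + 6) * d + 2 * J = (J + (2 * J + 4) * d + 2 * d) + J := by ring
      rw [h2, pow_add (1 / 2 : ℝ), ← mul_assoc, ← mul_pow]
      norm_num
    calc ((Finset.Icc j₀ J).card : ℝ) * (2 * M + 1) ^ d * (d * 2 ^ d) * (1 / 2 : ℝ) ^ m
        ≤ 2 ^ J * (2 ^ (2 * J + 4)) ^ d * 2 ^ (2 * d) * (1 / 2 : ℝ) ^ m :=
          mul_le_mul_of_nonneg_right c4 (by positivity)
      _ = _ := c5
  set K := n / 2 ^ J * (hopK d j₀ k (J / 2) + k) + d * 2 ^ J with hK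
  have hPT : Pr q (zE d (box d R)) (fun F => ¬ PT (zE d (box d R)) F K 0 (Pi.single 0 (n : ℤ))) ≤
      (1 / 2 : ℝ) ^ J := by
    refine le_trans (Pr_mono h0 h1 fun F hF hPT => ?_) (hbad.trans htot)
    intro hall
    refine hPT (hop_far (by omega) hJ h2J hF le_rfl ?_)
    intro j hj hj' z hz
    exact hall j (Finset.mem_Icc.2 ⟨hj, hj'⟩) z hz
  have hg' := timeConst_le (p := 1 - q) (by linarith) (by linarith) hg (n := n) (K := K)
    (Nat.one_le_iff_ne_zero.2 (by rw [hn]; positivity)) (box d R) (δ := (1 / 2 : ℝ) ^ J) (by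
      rw [show 1 - (1 - q) = q by ring]; exact hPT)
  refine hg'.trans ?_
  have hmono : hopK d j₀ k (J / 2) ≤ hopK d j₀ (D * m) (J / 2) := by
    have : k ≤ D * m := by omega
    have key : ∀ j, hopK d j₀ k j ≤ hopK d j₀ (D * m) j := by
      intro j
      induction j using Nat.strong_induction_on with
      | _ j ih =>
        cases j with
        | zero => simp [hopK]
        | succ j =>
          rw [hopK, hopK]
          split_ifs
          · exact le_rfl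
          · have i1 := ih j (by omega)
            have i2 := ih (j / 2) (by omega)
            have : d * (hopK d j₀ k (j / 2) + k) ≤ d * (hopK d j₀ (D * m) (j / 2) + D * m) :=
              Nat.mul_le_mul_left _ (by omega)
            omega
    exact key _
  have hnJ : n / 2 ^ J = 2 ^ J := by
    rw [hn, show (4 : ℕ) = 2 * 2 by norm_num, mul_pow]
    exact Nat.mul_div_cancel _ (by positivity)
  have hKr : (K : ℝ) / n ≤ (1 / 2 : ℝ) ^ J * (hopK d j₀ (D * m) (J / 2) + D * m + d) := by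
    have hK2 : (K : ℝ) = 2 ^ J * ((hopK d j₀ k (J / 2) : ℝ) + k) + d * 2 ^ J := by
      rw [hK, hnJ]; push_cast; ring
    have hnr : (n : ℝ) = 2 ^ J * 2 ^ J := by
      rw [hn]; push_cast
      rw [← mul_pow]; norm_num
    rw [hK2, hnr]
    have e1 : (2 ^ J * ((hopK d j₀ k (J / 2) : ℝ) + k) + d * 2 ^ J) / (2 ^ J * 2 ^ J) =
        (1 / 2 : ℝ) ^ J * ((hopK d j₀ k (J / 2) : ℝ) + k + d) := by
      rw [one_div, inv_pow]
      field_simp
    rw [e1]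
    refine mul_le_mul_of_nonneg_left ?_ (by positivity)
    have h1 : (hopK d j₀ k (J / 2) : ℝ) ≤ hopK d j₀ (D * m) (J / 2) := by exact_mod_cast hmono
    have h2 : (k : ℝ) ≤ D * m := by exact_mod_cast (by omega : k ≤ D * m)
    linarith
  have hcast : ((D * m : ℕ) : ℝ) = (d : ℝ) * 2 ^ d * ((2 * (J : ℝ) + 6) * d + 2 * J) := by
    rw [hD, hm]; push_cast; ring
  have hcast' : (D : ℝ) * (m : ℝ) = (d : ℝ) * 2 ^ d * ((2 * (J : ℝ) + 6) * d + 2 * J) := by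
    rw [← hcast]; push_cast; ring
  calc (K : ℝ) / n + (1 / 2 : ℝ) ^ J
      ≤ (1 / 2 : ℝ) ^ J * (hopK d j₀ (D * m) (J / 2) + D * m + d) + (1 / 2 : ℝ) ^ J := by linarith
    _ = (1 / 2 : ℝ) ^ J * (hopK d j₀ (D * m) (J / 2) + D * m + d + 1) := by ring
    _ = _ := by rw [hcast']

theorem upper : ∃ d₀ : ℕ, ∀ d ≥ d₀, ∀ [NeZero d], ∀ η : ℝ, 0 < η → ∃ ε₀ : ℝ, 0 < ε₀ ∧ ∀ ε, 0 < ε → ε < ε₀ →
    ∀ g, IsTimeConst d (1 - pc d + ε) g → g ≤ ε ^ (1 / 2 - η) := by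
  obtain ⟨d₀, h⟩ := CF_scale
  refine ⟨d₀, fun d hd _ η₀ hη₀ => ?_⟩
  obtain ⟨hd1, hpc1, κ, j₀, hκ, hj₀, hscale⟩ := h d hd
  have hpc0 : 0 < pc d := pc_pos (by omega)
  set η : ℝ := min η₀ (1 / 4) with hη
  have hηpos : 0 < η := lt_min hη₀ (by norm_num)
  have hη4 : η ≤ 1 / 4 := min_le_right _ _
  obtain ⟨C, m', hC, hhop⟩ := hopK_le d j₀ (show 0 < η / 4 by positivity)
  obtain ⟨A, hA, hpoly⟩ := CF_poly (m' + 1) (show 0 < η / 4 by positivity)
  set A₀ : ℝ := (d : ℝ) * 2 ^ d * (6 * d + 2) with hA₀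
  have hA₀0 : 0 ≤ A₀ := by positivity
  set B : ℝ := C * (A₀ + 1) ^ m' + A₀ + d + 1 with hB
  have hBpos : 0 < B := by positivity
  set A₃ : ℝ := 2 * (B * A) * (1 / κ) ^ (1 / 2 - η / 4) with hA₃
  have hA₃pos : 0 < A₃ := by positivity
  -- the bound in terms of J
  have hJbound : ∀ J : ℕ, j₀ ≤ J → ∀ q : ℝ, 0 ≤ q → q ≤ 1 → pc d - κ / 4 ^ J ≤ q → ∀ g,
      IsTimeConst d (1 - q) g → g ≤ B * A * (2 : ℝ) ^ (-((1 - η / 2) * J)) := by
    intro J hJ q h0 h1 hq g hg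
    refine (hscale J hJ q h0 h1 hq g hg).trans ?_
    set kJ : ℕ := d * 2 ^ d * ((2 * J + 6) * d + 2 * J) with hkJ
    have hkJr : (d : ℝ) * 2 ^ d * ((2 * J + 6) * d + 2 * J) = (kJ : ℝ) := by rw [hkJ]; push_cast; ring
    have hkJle : (kJ : ℝ) ≤ A₀ * (J + 1) := by
      rw [← hkJr, hA₀]
      have : ((2 * (J : ℝ) + 6) * d + 2 * J) ≤ (6 * d + 2) * (J + 1) := by
        have h1 : (0 : ℝ) ≤ J := by positivity
        have h2 : (0 : ℝ) ≤ d := by positivity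
        nlinarith [mul_nonneg h1 h2]
      calc (d : ℝ) * 2 ^ d * ((2 * J + 6) * d + 2 * J) ≤ (d : ℝ) * 2 ^ d * ((6 * d + 2) * (J + 1)) :=
            mul_le_mul_of_nonneg_left this (by positivity)
        _ = _ := by ring
    have hJ1 : (1 : ℝ) ≤ (J : ℝ) + 1 := by
      have : (0 : ℝ) ≤ J := by positivity
      linarith
    have hpow1 : 1 ≤ (2 : ℝ) ^ (η / 4 * J) := Real.one_le_rpow (by norm_num) (by positivity)
    have hb1 : (hopK d j₀ kJ (J / 2) : ℝ) ≤ C * ((A₀ + 1) * (J + 1)) ^ m' * (2 : ℝ) ^ (η / 4 * J) := by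
      refine (hhop kJ (J / 2)).trans ?_
      have hJ2 : ((J / 2 : ℕ) : ℝ) ≤ J := by exact_mod_cast Nat.div_le_self J 2
      have e1 : (kJ : ℝ) + ((J / 2 : ℕ) : ℝ) + 1 ≤ (A₀ + 1) * (J + 1) := by nlinarith
      have e2 : (2 : ℝ) ^ (η / 4 * ((J / 2 : ℕ) : ℝ)) ≤ (2 : ℝ) ^ (η / 4 * J) :=
        Real.rpow_le_rpow_of_exponent_le (by norm_num) (mul_le_mul_of_nonneg_left hJ2 (by positivity))
      have e3 : ((kJ : ℝ) + ((J / 2 : ℕ) : ℝ) + 1) ^ m' ≤ ((A₀ + 1) * (J + 1)) ^ m' :=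
        pow_le_pow_left₀ (by positivity) e1 m'
      exact mul_le_mul (mul_le_mul_of_nonneg_left e3 hC.le) e2 (by positivity) (by positivity)
    have hb2 : (hopK d j₀ kJ (J / 2) : ℝ) + d * 2 ^ d * ((2 * J + 6) * d + 2 * J) + d + 1 ≤
        B * ((J : ℝ) + 1) ^ (m' + 1) * (2 : ℝ) ^ (η / 4 * J) := by
      rw [hkJr, hB]
      have hp1 : (1 : ℝ) ≤ ((J : ℝ) + 1) ^ m' := one_le_pow₀ hJ1
      have hp2 : ((J : ℝ) + 1) ≤ ((J : ℝ) + 1) ^ (m' + 1) := by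
        rw [pow_succ]; nlinarith
      have hp3 : ((J : ℝ) + 1) ^ m' ≤ ((J : ℝ) + 1) ^ (m' + 1) := pow_le_pow_right₀ hJ1 (Nat.le_succ _)
      have hp4 : (1 : ℝ) ≤ ((J : ℝ) + 1) ^ (m' + 1) := one_le_pow₀ hJ1
      have t1 : C * ((A₀ + 1) * (J + 1)) ^ m' * (2 : ℝ) ^ (η / 4 * J) ≤
          C * (A₀ + 1) ^ m' * ((J : ℝ) + 1) ^ (m' + 1) * (2 : ℝ) ^ (η / 4 * J) := by
        rw [mul_pow, ← mul_assoc]
        refine mul_le_mul_of_nonneg_right ?_ (by positivity)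
        exact mul_le_mul_of_nonneg_left hp3 (by positivity)
      have t2 : (kJ : ℝ) ≤ A₀ * ((J : ℝ) + 1) ^ (m' + 1) * (2 : ℝ) ^ (η / 4 * J) := by
        calc (kJ : ℝ) ≤ A₀ * (J + 1) := hkJle
          _ ≤ A₀ * ((J : ℝ) + 1) ^ (m' + 1) := mul_le_mul_of_nonneg_left hp2 hA₀0
          _ ≤ A₀ * ((J : ℝ) + 1) ^ (m' + 1) * (2 : ℝ) ^ (η / 4 * J) :=
              le_mul_of_one_le_right (by positivity) hpow1
      have t3 : (d : ℝ) + 1 ≤ (d + 1) * ((J : ℝ) + 1) ^ (m' + 1) * (2 : ℝ) ^ (η / 4 * J) := by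
        calc (d : ℝ) + 1 ≤ (d + 1) * ((J : ℝ) + 1) ^ (m' + 1) := le_mul_of_one_le_right (by positivity) hp4
          _ ≤ _ := le_mul_of_one_le_right (by positivity) hpow1
      calc (hopK d j₀ kJ (J / 2) : ℝ) + kJ + d + 1
          ≤ C * (A₀ + 1) ^ m' * ((J : ℝ) + 1) ^ (m' + 1) * (2 : ℝ) ^ (η / 4 * J) +
            A₀ * ((J : ℝ) + 1) ^ (m' + 1) * (2 : ℝ) ^ (η / 4 * J) +
            (d + 1) * ((J : ℝ) + 1) ^ (m' + 1) * (2 : ℝ) ^ (η / 4 * J) := by linarith [hb1.trans t1]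
        _ = _ := by ring
    have hb3 : B * ((J : ℝ) + 1) ^ (m' + 1) * (2 : ℝ) ^ (η / 4 * J) ≤ B * A * (2 : ℝ) ^ (η / 2 * J) := by
      have : (2 : ℝ) ^ (η / 2 * J) = (2 : ℝ) ^ (η / 4 * J) * (2 : ℝ) ^ (η / 4 * J) := by
        rw [← Real.rpow_add (by norm_num)]; congr 1; ring
      rw [this]
      calc B * ((J : ℝ) + 1) ^ (m' + 1) * (2 : ℝ) ^ (η / 4 * J)
          ≤ B * (A * (2 : ℝ) ^ (η / 4 * J)) * (2 : ℝ) ^ (η / 4 * J) := by
            refine mul_le_mul_of_nonneg_right ?_ (by positivity)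
            exact mul_le_mul_of_nonneg_left (hpoly J) hBpos.le
        _ = _ := by ring
    have hhalf : (1 / 2 : ℝ) ^ J = (2 : ℝ) ^ (-(J : ℝ)) := by
      rw [Real.rpow_neg (by norm_num), Real.rpow_natCast, one_div, inv_pow]
    calc (1 / 2 : ℝ) ^ J * ((hopK d j₀ kJ (J / 2) : ℝ) + d * 2 ^ d * ((2 * J + 6) * d + 2 * J) + d + 1)
        ≤ (1 / 2 : ℝ) ^ J * (B * A * (2 : ℝ) ^ (η / 2 * J)) :=
          mul_le_mul_of_nonneg_left (hb2.trans hb3) (by positivity)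
      _ = B * A * ((2 : ℝ) ^ (-(J : ℝ)) * (2 : ℝ) ^ (η / 2 * J)) := by rw [hhalf]; ring
      _ = B * A * (2 : ℝ) ^ (-((1 - η / 2) * J)) := by
          rw [← Real.rpow_add (by norm_num)]; congr 2; ring
  -- choice of ε₀
  set e₁ : ℝ := (1 / A₃) ^ (4 / (3 * η)) with he₁
  have he₁pos : 0 < e₁ := by positivity
  refine ⟨min (min (κ / 4 ^ j₀) (pc d)) (min e₁ 1), ?_, fun ε hε hε' g hg => ?_⟩
  · refine lt_min (lt_min (by positivity) hpc0) (lt_min he₁pos one_pos)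
  have hε1 : ε < κ / 4 ^ j₀ := hε'.trans_le ((min_le_left _ _).trans (min_le_left _ _))
  have hε2 : ε < pc d := hε'.trans_le ((min_le_left _ _).trans (min_le_right _ _))
  have hε3 : ε < e₁ := hε'.trans_le ((min_le_right _ _).trans (min_le_left _ _))
  have hε4 : ε < 1 := hε'.trans_le ((min_le_right _ _).trans (min_le_right _ _))
  have hx : (4 : ℝ) ^ j₀ < κ / ε := by
    rw [lt_div_iff₀ hε]
    rw [lt_div_iff₀ (by positivity)] at hε1
    linarith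
  obtain ⟨J, hJ1, hJ2⟩ := exists_nat_pow_near (x := κ / ε) (y := 4)
    ((one_le_pow₀ (by norm_num)).trans hx.le) (by norm_num)
  have hjJ : j₀ ≤ J := by
    have h1 : (4 : ℝ) ^ j₀ < 4 ^ (J + 1) := hx.trans hJ2
    have h2 : j₀ < J + 1 := (pow_lt_pow_iff_right₀ (by norm_num)).1 h1
    omega
  have hq0 : 0 ≤ pc d - ε := by linarith
  have hq1 : pc d - ε ≤ 1 := by linarith
  have hqJ : pc d - κ / 4 ^ J ≤ pc d - ε := by
    have : ε ≤ κ / 4 ^ J := by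
      rw [le_div_iff₀ (by positivity)]
      rw [le_div_iff₀ hε] at hJ1
      linarith
    linarith
  have hg1 := hJbound J hjJ (pc d - ε) hq0 hq1 hqJ g (by
    rw [show 1 - (pc d - ε) = 1 - pc d + ε by ring]; exact hg)
  -- 2^(-(1-η/2) J) ≤ 2 (ε/κ)^(1/2 - η/4)
  have hexp : (2 : ℝ) ^ (-((1 - η / 2) * J)) ≤ 2 * (ε / κ) ^ (1 / 2 - η / 4) := by
    have e1 : (κ / ε) ^ (1 / 2 - η / 4) ≤ (4 ^ (J + 1) : ℝ) ^ (1 / 2 - η / 4) :=
      Real.rpow_le_rpow (by positivity) hJ2.le (by linarith)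
    have e2 : (4 ^ (J + 1) : ℝ) ^ (1 / 2 - η / 4) = (2 : ℝ) ^ ((1 - η / 2) * (J + 1)) := by
      rw [show (4 : ℝ) = 2 ^ 2 by norm_num, ← pow_mul, ← Real.rpow_natCast, ← Real.rpow_mul (by norm_num)]
      congr 1
      push_cast; ring
    have e3 : (2 : ℝ) ^ ((1 - η / 2) * (J + 1)) ≤ 2 * (2 : ℝ) ^ ((1 - η / 2) * J) := by
      have : (2 : ℝ) ^ ((1 - η / 2) * (J + 1)) = (2 : ℝ) ^ (1 - η / 2) * (2 : ℝ) ^ ((1 - η / 2) * J) := by
        rw [← Real.rpow_add (by norm_num)]; congr 1; ring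
      rw [this]
      refine mul_le_mul_of_nonneg_right ?_ (by positivity)
      calc (2 : ℝ) ^ (1 - η / 2) ≤ (2 : ℝ) ^ (1 : ℝ) :=
            Real.rpow_le_rpow_of_exponent_le (by norm_num) (by linarith)
        _ = 2 := Real.rpow_one 2
    rw [e2] at e1
    have e4 := e1.trans e3
    have p1 : 0 < (κ / ε) ^ (1 / 2 - η / 4) := by positivity
    have p2 : 0 < (2 : ℝ) ^ ((1 - η / 2) * J) := by positivity
    have e5 : (ε / κ) ^ (1 / 2 - η / 4) = ((κ / ε) ^ (1 / 2 - η / 4))⁻¹ := by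
      rw [← Real.inv_rpow (by positivity), inv_div]
    rw [Real.rpow_neg (by norm_num), e5]
    rw [inv_eq_one_div, inv_eq_one_div, mul_one_div, div_le_div_iff₀ p2 p1]
    linarith
  have hfin : g ≤ A₃ * ε ^ (1 / 2 - η / 4) := by
    calc g ≤ B * A * (2 : ℝ) ^ (-((1 - η / 2) * J)) := hg1
      _ ≤ B * A * (2 * (ε / κ) ^ (1 / 2 - η / 4)) := mul_le_mul_of_nonneg_left hexp (by positivity)
      _ = A₃ * ε ^ (1 / 2 - η / 4) := by
          rw [hA₃, div_eq_mul_one_div ε κ, Real.mul_rpow hε.le (by positivity)]; ring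
  have hsmall : A₃ * ε ^ (3 * η / 4) ≤ 1 := by
    have e1 : ε ^ (3 * η / 4) ≤ e₁ ^ (3 * η / 4) := Real.rpow_le_rpow hε.le hε3.le (by positivity)
    have e2 : e₁ ^ (3 * η / 4) = 1 / A₃ := by
      rw [he₁, ← Real.rpow_mul (by positivity)]
      rw [show 4 / (3 * η) * (3 * η / 4) = 1 by field_simp, Real.rpow_one]
    rw [e2] at e1
    calc A₃ * ε ^ (3 * η / 4) ≤ A₃ * (1 / A₃) := mul_le_mul_of_nonneg_left e1 hA₃pos.le
      _ = 1 := by field_simp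
  have hsplit : ε ^ (1 / 2 - η / 4) = ε ^ (3 * η / 4) * ε ^ (1 / 2 - η) := by
    rw [← Real.rpow_add hε]; congr 1; ring
  calc g ≤ A₃ * ε ^ (1 / 2 - η / 4) := hfin
    _ = A₃ * ε ^ (3 * η / 4) * ε ^ (1 / 2 - η) := by rw [hsplit]; ring
    _ ≤ 1 * ε ^ (1 / 2 - η) := mul_le_mul_of_nonneg_right hsmall (by positivity)
    _ = ε ^ (1 / 2 - η) := one_mul _
    _ ≤ ε ^ (1 / 2 - η₀) := Real.rpow_le_rpow_of_exponent_ge hε hε4.le (by
        have := min_le_left η₀ (1 / 4); linarith)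

end CF

end Pool.Agent.helper66.LE
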