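import Mathlib

/-!
# Finite Bernoulli percolation: definitions

Percolation on a FINITE edge set `E`: a configuration is the set `F ⊆ E` of open edges, each edge is open with
probability `q` independently of the others.  All probabilities are finite sums (polynomials in `q`).
-/

open Finset Classical

namespace Pool.Agent.helper66.LE

section Prob

variable {ι : Type*}

/-- weight of the configuration `F ⊆ E`. -/
noncomputable def wt (q : ℝ) (E F : Finset ι) : ℝ := ∏ e ∈ E, if e ∈ F then q else 1 - q

/-- expectation of `f F`, where every `e ∈ E` belongs to the random set `F` with probability `q`. -/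
noncomputable def Ex (q : ℝ) (E : Finset ι) (f : Finset ι → ℝ) : ℝ :=
  ∑ F ∈ E.powerset, wt q E F * f F

/-- probability of the event `A`. -/
noncomputable def Pr (q : ℝ) (E : Finset ι) (A : Finset ι → Prop) : ℝ :=
  Ex q E (fun F => if A F then 1 else 0)

/-- increasing events. -/
def Inc (A : Finset ι → Prop) : Prop := ∀ F F' : Finset ι, F ⊆ F' → A F → A F'

/-- disjoint occurrence (for increasing events). -/
def Dis (A B : Finset ι → Prop) (F : Finset ι) : Prop :=
  ∃ F₁ F₂ : Finset ι, F₁ ⊆ F ∧ F₂ ⊆ F ∧ Disjoint F₁ F₂ ∧ A F₁ ∧ B F₂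

end Prob

section Graph

variable {V : Type*}

/-- `x` and `y` are connected by edges of `F`. -/
def Conn (F : Finset (Sym2 V)) (x y : V) : Prop :=
  (SimpleGraph.fromEdgeSet (F : Set (Sym2 V))).Reachable x y

/-- the cluster of `v`. -/
def clus (F : Finset (Sym2 V)) (v : V) : Set V := {x | Conn F v x}

/-- the edges of `F` with no endpoint in `A`. -/
noncomputable def off (F : Finset (Sym2 V)) (A : Set V) : Finset (Sym2 V) :=
  F.filter (fun e => ∀ a ∈ e, a ∉ A)

/-- `x` and `y` are connected by edges of `F` off `A`. -/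
def ConnOff (F : Finset (Sym2 V)) (A : Set V) (x y : V) : Prop :=
  x ∉ A ∧ y ∉ A ∧ Conn (off F A) x y

/-- `x` and `y` are connected, and every connection goes through `A`. -/
def Thr (F : Finset (Sym2 V)) (A : Set V) (x y : V) : Prop := Conn F x y ∧ ¬ ConnOff F A x y

/-- the directed bond `(u, w)` is open and pivotal for the connection from `v` to `x`. -/
def Piv (F : Finset (Sym2 V)) (v x u w : V) : Prop :=
  s(u, w) ∈ F ∧ Conn (F.erase s(u, w)) v u ∧ Conn (F.erase s(u, w)) w x ∧
    ¬ Conn (F.erase s(u, w)) v x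

/-- the event `E'(v, x; A)` of Hara and Slade. -/
def Epr (F : Finset (Sym2 V)) (A : Set V) (v x : V) : Prop :=
  Thr F A v x ∧ ∀ u w, Piv F v x u w → ¬ Thr F A v u

end Graph

section Group

variable {G : Type*} [AddCommGroup G]

/-- the edges of the Cayley graph of the finite group `G` with connection set `S`. -/
noncomputable def cay [Fintype G] (S : Finset G) : Finset (Sym2 G) :=
  (univ ×ˢ S).image (fun p : G × G => s(p.1, p.1 + p.2))

/-- two-point function of percolation on the Cayley graph. -/
noncomputable def tau [Fintype G] (q : ℝ) (S : Finset G) (x : G) : ℝ :=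
  Pr q (cay S) (fun F => Conn F 0 x)

/-- the indicator function of the connection set. -/
noncomputable def J (S : Finset G) (x : G) : ℝ := if x ∈ S then 1 else 0

/-- convolution. -/
noncomputable def conv [Fintype G] (f g : G → ℝ) (x : G) : ℝ := ∑ y, f y * g (x - y)

end Group

/-- the `2d` unit vectors (over `ℤ` or over `ZMod L`). -/
noncomputable def uv (d : ℕ) (R : Type*) [Ring R] : Finset (Fin d → R) :=
  univ.image (fun p : Fin d × Bool => Pi.single p.1 (if p.2 then (1 : R) else -1))

/-- the discrete torus. -/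
abbrev Tor (d L : ℕ) := Fin d → ZMod L

section Torus

variable (d L : ℕ) [NeZero L]

/-- two-point function on the torus. -/
noncomputable def tt (q : ℝ) (x : Tor d L) : ℝ := tau q (uv d (ZMod L)) x

/-- susceptibility on the torus. -/
noncomputable def chi (q : ℝ) : ℝ := ∑ x : Tor d L, tt d L q x

/-- distance of the `i`-th coordinate to `0` on the torus (an integer `≤ L/2`). -/
noncomputable def ab {d L : ℕ} (i : Fin d) (x : Tor d L) : ℝ := |((x i).valMinAbs : ℝ)|

end Torus

section Lattice

variable (d : ℕ)

/-- the nearest neighbour edges of `ℤ^d` with both endpoints in `Λ`. -/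
noncomputable def zE (Λ : Finset (Fin d → ℤ)) : Finset (Sym2 (Fin d → ℤ)) :=
  ((Λ ×ˢ uv d ℤ).filter (fun p => p.1 + p.2 ∈ Λ)).image (fun p => s(p.1, p.1 + p.2))

/-- the quantity `φ_q(Λ)` of Duminil-Copin and Tassion. -/
noncomputable def phi (q : ℝ) (Λ : Finset (Fin d → ℤ)) : ℝ :=
  ∑ x ∈ Λ, ∑ s ∈ uv d ℤ, if x + s ∉ Λ then q * Pr q (zE d Λ) (fun F => Conn F 0 x) else 0

/-- the critical point, in the form of Duminil-Copin and Tassion. -/
noncomputable def pc : ℝ := sSup {q : ℝ | 0 ≤ q ∧ q ≤ 1 ∧ ∃ Λ : Finset (Fin d → ℤ), 0 ∈ Λ ∧ phi d q Λ < 1}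

end Lattice

end Pool.Agent.helper66.LE
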