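import Pool.Agent.helper66.LE.GB

/-!
# First passage percolation: definitions

`zd d` is the nearest neighbour graph of `ℤ^d`; the environment `ω` gives a real weight to each edge, under
`law d p` the weights are independent, equal to `1` with probability `p` and to `0` with probability `1 - p`.
-/

open Finset Classical MeasureTheory Filter Topology

namespace Pool.Agent.helper66.LE

/-- the nearest neighbour graph of `ℤ^d`. -/
def zd (d : ℕ) : SimpleGraph (Fin d → ℤ) where
  Adj x y := ∑ i, |x i - y i| = 1
  symm := ⟨fun x y h => by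
    have : ∀ i, |y i - x i| = |x i - y i| := fun i => abs_sub_comm _ _
    simp only [this]
    exact h⟩
  loopless := ⟨fun x h => by simp at h⟩

/-- an environment: a weight for each edge of `ℤ^d`. -/
abbrev Env (d : ℕ) := (zd d).edgeSet → ℝ

/-- the law of one Bernoulli weight: `P(1) = p`, `P(0) = 1 - p`. -/
noncomputable def bern (p : ℝ) : Measure ℝ :=
  ENNReal.ofReal (1 - p) • Measure.dirac 0 + ENNReal.ofReal p • Measure.dirac 1

/-- the weights are independent with law `bern p`. -/
noncomputable def law (d : ℕ) (p : ℝ) : Measure (Env d) := Measure.infinitePi fun _ => bern p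

/-- the passage time of a lattice path. -/
noncomputable def len {d : ℕ} (ω : Env d) {x y : Fin d → ℤ} (γ : (zd d).Walk x y) : ℝ :=
  (γ.darts.map fun a => ω ⟨a.edge, a.edge_mem⟩).sum

/-- the first passage time from `x` to `y`. -/
noncomputable def T {d : ℕ} (ω : Env d) (x y : Fin d → ℤ) : ℝ := ⨅ γ : (zd d).Walk x y, len ω γ

/-- `g` is the time constant in the first coordinate direction for the parameter `p`:
`T(0, n e₁) / n → g` almost surely. -/
def IsTimeConst (d : ℕ) [NeZero d] (p g : ℝ) : Prop :=
  ∀ᵐ ω ∂(law d p), Tendsto (fun n : ℕ => T ω 0 (Pi.single 0 (n : ℤ)) / n) atTop (𝓝 g)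

/-- the sites which are connected to `0` by a path of edges of weight `0`. -/
def zcl {d : ℕ} (ω : Env d) : Set (Fin d → ℤ) :=
  {x | ∃ γ : (zd d).Walk 0 x, ∀ e (h : e ∈ γ.edges), ω ⟨e, γ.edges_subset_edgeSet h⟩ = 0}

/-- the critical probability of Bernoulli bond percolation on `ℤ^d`: the infimum of the `r` such that, if
each edge is open (has weight `0`) with probability `r`, the open cluster of `0` is infinite with positive
probability. -/
noncomputable def pcrit (d : ℕ) : ℝ :=
  sInf {r : ℝ | 0 ≤ r ∧ r ≤ 1 ∧ 0 < law d (1 - r) {ω | (zcl ω).Infinite}}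

/-- `PT E F k x y`: there is a path from `x` to `y` in the (finite) edge set `E` with at most `k` edges
(with multiplicity) which are not in `F`. -/
def PT {V : Type*} (E F : Finset (Sym2 V)) (k : ℕ) (x y : V) : Prop :=
  ∃ γ : (SimpleGraph.fromEdgeSet (E : Set (Sym2 V))).Walk x y, γ.edges.countP (fun e => decide (e ∉ F)) ≤ k

/-- the open edges of `E` in the environment `ω`. -/
noncomputable def opn {d : ℕ} (ω : Env d) (E : Finset (Sym2 (Fin d → ℤ))) : Finset (Sym2 (Fin d → ℤ)) :=
  E.filter (fun e => ∃ h : e ∈ (zd d).edgeSet, ω ⟨e, h⟩ = 0)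

/-- the box `[-n, n]^d`. -/
noncomputable def box (d n : ℕ) : Finset (Fin d → ℤ) := Fintype.piFinset fun _ => Finset.Icc (-(n : ℤ)) n

/-- probability that `0` is connected to the boundary of the box inside the box. -/
noncomputable def theta (d n : ℕ) (q : ℝ) : ℝ :=
  Pr q (zE d (box d n)) (fun F => ∃ x ∈ box d n, (∃ i, |x i| = n) ∧ Conn F 0 x)

end Pool.Agent.helper66.LE
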