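import Pool.Agent.helper64.LE.BO
import Pool.Agent.helper62.LE.GO
import Pool.Agent.helper62.LE.TC
import Pool.Agent.helper62.LE.TB
import Pool.Agent.helper57.LE.S2
import Pool.Agent.helper73.LE.BX
import Pool.Agent.helper73.LE.TK

/-!
# Near critical bounds and the lower bound for the time constant
-/

open Finset Classical MeasureTheory Filter Topology

namespace Pool.Agent.helper66.LE

section FI

/-- constants valid in high dimension. -/
theorem FI_setup : ∃ d₀ : ℕ, ∀ d ≥ d₀, 100 ≤ d ∧ ∃ C : ℝ, 0 < C ∧ ∀ q, 0 ≤ q → q < pc d →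
    ∃ L₁ : ℕ, ∀ L ≥ L₁, ∀ [NeZero L], 3 ≤ L ∧ ∀ q', 0 ≤ q' → q' ≤ q → GoodB d L C q' := by
  obtain ⟨d₀, h⟩ := lace_main
  refine ⟨max d₀ 100, fun d hd => ⟨(le_max_right _ _).trans hd, ?_⟩⟩
  obtain ⟨C, hC, hC'⟩ := h d ((le_max_left _ _).trans hd)
  refine ⟨C, hC, fun q h0 hq => ?_⟩
  have hq1 : q ≤ 1 := hq.le.trans (pc_le_one d)
  obtain ⟨X, L₁, hX⟩ := chi_bdd h0 hq
  obtain ⟨L₀, hL₀⟩ := hC' X
  refine ⟨max (max L₀ L₁) 3, fun L hL _ => ?_⟩
  have hL0 : L₀ ≤ L := ((le_max_left _ _).trans (le_max_left _ _)).trans hL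
  have hL1 : L₁ ≤ L := ((le_max_right _ _).trans (le_max_left _ _)).trans hL
  refine ⟨(le_max_right _ _).trans hL, fun q' h0' hq' => ?_⟩
  exact hL₀ L hL0 q' h0' (hq'.trans hq1) ((chi_mono h0' hq' hq1).trans (hX L hL1))

theorem FI_pc_le : ∃ d₀ : ℕ, ∀ d ≥ d₀, 100 ≤ d ∧ pc d ≤ 1 / d := by
  obtain ⟨d₀, h⟩ := FI_setup
  refine ⟨d₀, fun d hd => ?_⟩
  obtain ⟨hd1, C, hC, hC'⟩ := h d hd
  refine ⟨hd1, ?_⟩
  have hdpos : (0 : ℝ) < d := by
    have : (0 : ℝ) < 100 := by norm_num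
    exact this.trans_le (by exact_mod_cast hd1)
  refine le_of_forall_lt fun q hq => ?_
  by_cases h0 : 0 ≤ q
  · -- use a point between q and pc
    obtain ⟨q', hq', hq''⟩ := exists_between hq
    have h0' : 0 ≤ q' := h0.trans hq'.le
    obtain ⟨L₁, hL₁⟩ := hC' q' h0' hq''
    have : NeZero (max L₁ 3) := ⟨by have := le_max_right L₁ 3; omega⟩
    have hG := (hL₁ (max L₁ 3) (le_max_left _ _)).2 q' h0' le_rfl
    have h2 : 2 * (d : ℝ) * q' ≤ 2 := hG.1
    rw [lt_div_iff₀ hdpos]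
    nlinarith
  · have : (0 : ℝ) < 1 / d := by positivity
    linarith

/-- the tilted susceptibility near the critical point. -/
theorem near_critical : ∃ d₀ : ℕ, ∀ d ≥ d₀, 100 ≤ d ∧ pc d < 1 ∧ ∃ c A ε₀ : ℝ, 0 < c ∧ 0 < A ∧ 0 < ε₀ ∧
    ε₀ ≤ pc d ∧ ∀ ε, 0 < ε → ε < ε₀ → ∃ L₂ : ℕ, ∀ L ≥ L₂, ∀ [NeZero L], 3 ≤ L ∧ ∀ i : Fin d,
      chl d L i (c * Real.sqrt ε) (pc d - ε) ≤ A / ε := by
  obtain ⟨d₀, h⟩ := FI_setup
  obtain ⟨d₁, h'⟩ := FI_pc_le
  refine ⟨max d₀ d₁, fun d hd => ?_⟩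
  obtain ⟨hd1, C, hC, hC'⟩ := h d ((le_max_left _ _).trans hd)
  obtain ⟨-, hpc⟩ := h' d ((le_max_right _ _).trans hd)
  have hdR : (100 : ℝ) ≤ d := by exact_mod_cast hd1
  have hpc1 : pc d < 1 := by
    refine hpc.trans_lt ?_
    rw [div_lt_one (by linarith)]
    linarith
  have hpc0 : 0 < pc d := pc_pos (by omega)
  obtain ⟨c, hc, htilt⟩ := tilt C hC
  refine ⟨hd1, hpc1, Real.sqrt (0.9 * d * c), 2 / (0.9 * d), pc d, Real.sqrt_pos.2 (by positivity), by positivity,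
    hpc0, le_rfl, fun ε hε hε' => ?_⟩
  have hq2 : 0 ≤ pc d - ε / 2 := by linarith
  obtain ⟨L₁, hL₁⟩ := hC' (pc d - ε / 2) hq2 (by linarith)
  refine ⟨L₁, fun L hL _ => ?_⟩
  obtain ⟨hL3, hG⟩ := hL₁ L hL
  refine ⟨hL3, fun i => ?_⟩
  have hq1 : 0 ≤ pc d - ε := by linarith
  have hgap := chi_gap (q₁ := pc d - ε) (q₂ := pc d - ε / 2) hd1 hL3 hq1 (by linarith)
    (fun q h1 h2 => hG q (hq1.trans h1) h2)
  have hle1 : pc d - ε ≤ 1 := by linarith
  have hle2 : pc d - ε / 2 ≤ 1 := by linarith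
  have hχ1 : 1 ≤ chi d L (pc d - ε) := one_le_chi hq1 hle1
  have hχ2 : 1 ≤ chi d L (pc d - ε / 2) := one_le_chi hq2 hle2
  have hχpos : 0 < chi d L (pc d - ε) := by linarith
  have h2 : 0 ≤ 1 / chi d L (pc d - ε / 2) := by positivity
  have hχ : 0.9 * d * ε ≤ 1 / chi d L (pc d - ε) := by
    have : (1.8 : ℝ) * d * (pc d - ε / 2 - (pc d - ε)) = 0.9 * d * ε := by ring
    linarith
  have hχle : chi d L (pc d - ε) ≤ 1 / (0.9 * d * ε) := by
    rw [le_div_iff₀ (by positivity)]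
    rw [le_div_iff₀ hχpos] at hχ
    linarith
  have hl : 0 < Real.sqrt (0.9 * d * c) * Real.sqrt ε := by
    have := Real.sqrt_pos.2 hε
    have := Real.sqrt_pos.2 (show 0 < 0.9 * (d : ℝ) * c by positivity)
    positivity
  have hl2 : (Real.sqrt (0.9 * d * c) * Real.sqrt ε) ^ 2 * chi d L (pc d - ε) ≤ c := by
    rw [mul_pow, Real.sq_sqrt (by positivity), Real.sq_sqrt hε.le]
    calc 0.9 * (d : ℝ) * c * ε * chi d L (pc d - ε) ≤ 0.9 * d * c * ε * (1 / (0.9 * d * ε)) :=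
          mul_le_mul_of_nonneg_left hχle (by positivity)
      _ = c := by field_simp
  have := htilt d L i _ (pc d - ε) hd1 hL3 hq1 (fun q' h1 h2 => hG q' h1 (h2.trans (by linarith))) hl hl2
  refine this.trans ?_
  calc 2 * chi d L (pc d - ε) ≤ 2 * (1 / (0.9 * d * ε)) := by linarith
    _ = 2 / (0.9 * d) / ε := by field_simp

/-- bound for the passage times in boxes of `ℤ^d`. -/
theorem FI_box {d : ℕ} [NeZero d] {q l Cl : ℝ} (h0 : 0 ≤ q) (h1 : q ≤ 1) (hl : 0 ≤ l) {L₂ : ℕ}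
    (hL₂ : ∀ L ≥ L₂, ∀ [NeZero L], 3 ≤ L ∧ ∀ i : Fin d, chl d L i l q ≤ Cl) (n k m : ℕ) :
    Pr q (zE d (box d m)) (fun F => PT (zE d (box d m)) F k 0 (Pi.single 0 (n : ℤ))) ≤
      2 * Cl * (1 + 2 * d * Real.cosh l * Cl) ^ k * Real.exp (-(l * n)) := by
  obtain ⟨L₁, hL₁⟩ := box_torus d (box d (max m n))
  set L := max (max L₁ L₂) 3 with hLdef
  have : NeZero L := ⟨by have := le_max_right (max L₁ L₂) 3; omega⟩
  obtain ⟨hab, hbox⟩ := hL₁ L ((le_max_left _ _).trans (le_max_left _ _)) q h0 h1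
  obtain ⟨hL3, hchl⟩ := hL₂ L ((le_max_right _ _).trans (le_max_left _ _))
  have hx : (Pi.single 0 (n : ℤ) : Fin d → ℤ) ∈ box d (max m n) := by
    unfold box
    rw [Fintype.mem_piFinset]
    intro j
    rw [Finset.mem_Icc]
    have hn : (n : ℤ) ≤ ((max m n : ℕ) : ℤ) := by exact_mod_cast le_max_right m n
    by_cases hj : j = 0
    · subst hj
      rw [Pi.single_eq_same]
      constructor
      · have : (0 : ℤ) ≤ n := by positivity
        have : (0 : ℤ) ≤ ((max m n : ℕ) : ℤ) := by positivity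
        omega
      · exact hn
    · rw [Pi.single_eq_of_ne hj]
      constructor
      · have : (0 : ℤ) ≤ ((max m n : ℕ) : ℤ) := by positivity
        omega
      · positivity
  have hmono : Pr q (zE d (box d m)) (fun F => PT (zE d (box d m)) F k 0 (Pi.single 0 (n : ℤ))) ≤
      Pr q (zE d (box d (max m n))) (fun F => PT (zE d (box d (max m n))) F k 0 (Pi.single 0 (n : ℤ))) := by
    have hsub : zE d (box d m) ⊆ zE d (box d (max m n)) := by
      have hb : box d m ⊆ box d (max m n) := by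
        intro x hx
        unfold box at hx ⊢
        rw [Fintype.mem_piFinset] at hx ⊢
        intro j
        have := hx j
        rw [Finset.mem_Icc] at this ⊢
        have h2 : (m : ℤ) ≤ ((max m n : ℕ) : ℤ) := by exact_mod_cast le_max_left m n
        omega
      intro e he
      unfold zE at he ⊢
      simp only [Finset.mem_image, Finset.mem_filter, Finset.mem_product] at he ⊢
      obtain ⟨p, ⟨⟨hp1, hp2⟩, hp3⟩, hp4⟩ := he
      exact ⟨p, ⟨⟨hb hp1, hp2⟩, hb hp3⟩, hp4⟩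
    refine Pr_le_of_map h0 h1 id Function.injective_id.injOn (by simpa using hsub) _ _ (inc_PT _ _ _ _) ?_
    intro F hF h
    rw [Finset.image_id]
    exact PT_mono hsub (fun _ _ h => h) le_rfl h
  refine hmono.trans ((hbox k _ hx).trans ?_)
  set y : Tor d L := fun j => (((Pi.single 0 (n : ℤ) : Fin d → ℤ) j : ℤ) : ZMod L) with hy
  have haby : ab (0 : Fin d) y = n := by
    rw [hy, hab _ hx 0, Pi.single_eq_same]
    simp
  have hb := pt_bound hL3 (0 : Fin d) l h0 h1 k y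
  rw [haby] at hb
  have hCl := hchl 0
  have hchl0 : 0 ≤ chl d L (0 : Fin d) l q := by
    unfold chl
    exact Finset.sum_nonneg fun x _ => mul_nonneg (Real.cosh_pos _).le (tau_nonneg h0 h1 _ _)
  have hcosh : Real.exp (l * n) / 2 ≤ Real.cosh (l * n) := by
    rw [Real.cosh_eq]
    have := Real.exp_pos (-(l * n))
    linarith
  have hCl0 : 0 ≤ Cl := hchl0.trans hCl
  have hstep : chl d L (0 : Fin d) l q * (1 + 2 * d * Real.cosh l * chl d L (0 : Fin d) l q) ^ k ≤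
      Cl * (1 + 2 * d * Real.cosh l * Cl) ^ k := by
    have hc : 0 ≤ 2 * (d : ℝ) * Real.cosh l := by
      have := (Real.cosh_pos l).le
      positivity
    refine mul_le_mul hCl (pow_le_pow_left₀ ?_ ?_ k) (pow_nonneg ?_ k) hCl0
    · nlinarith [mul_nonneg hc hchl0]
    · nlinarith [mul_le_mul_of_nonneg_left hCl hc]
    · nlinarith [mul_nonneg hc hchl0]
  set P := Pr q (cay (uv d (ZMod L))) (fun F => PT (cay (uv d (ZMod L))) F k 0 y) with hP
  have hP0 : 0 ≤ P := Pr_nonneg h0 h1 _ _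
  have h3 : Real.exp (l * n) / 2 * P ≤ Cl * (1 + 2 * d * Real.cosh l * Cl) ^ k :=
    (mul_le_mul_of_nonneg_right hcosh hP0).trans (hb.trans hstep)
  have hexp : Real.exp (l * n) * Real.exp (-(l * n)) = 1 := by
    rw [← Real.exp_add]; simp
  have he := Real.exp_pos (-(l * n))
  calc P = (Real.exp (l * n) / 2 * P) * (2 * Real.exp (-(l * n))) := by
        have : Real.exp (l * n) / 2 * P * (2 * Real.exp (-(l * n))) =
          P * (Real.exp (l * n) * Real.exp (-(l * n))) := by ring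
        rw [this, hexp, mul_one]
    _ ≤ (Cl * (1 + 2 * d * Real.cosh l * Cl) ^ k) * (2 * Real.exp (-(l * n))) :=
        mul_le_mul_of_nonneg_right h3 (by positivity)
    _ = 2 * Cl * (1 + 2 * d * Real.cosh l * Cl) ^ k * Real.exp (-(l * n)) := by ring

end FI

end Pool.Agent.helper66.LE
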