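import Pool.Agent.helper66.LE.FI
import Pool.Agent.helper23.LE.LB

/-!
# The lower bound for the time constant
-/

open Finset Classical MeasureTheory Filter Topology

namespace Pool.Agent.helper66.LE

section FI

/-- lower bound for the time constant above `1 - pc`. -/
theorem FI_lower : ∃ d₀ : ℕ, ∀ d ≥ d₀, ∀ [NeZero d], 100 ≤ d ∧ pc d < 1 ∧ ∃ c ε₀ : ℝ, 0 < c ∧ 0 < ε₀ ∧
    ∀ ε, 0 < ε → ε < ε₀ → ∀ g, IsTimeConst d (1 - pc d + ε) g →
      c * Real.sqrt ε / Real.log (1 / ε) ≤ g := by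
  obtain ⟨d₀, h⟩ := near_critical
  refine ⟨d₀, fun d hd _ => ?_⟩
  obtain ⟨hd1, hpc1, c, A, ε₀, hc, hA, hε₀, hε₀', hnear⟩ := h d hd
  have hpc0 : 0 < pc d := pc_pos (by omega)
  have hdR : (100 : ℝ) ≤ d := by exact_mod_cast hd1
  -- the constant C₁ with 1 + 2d cosh(l) A/ε ≤ C₁/ε
  set C₁ : ℝ := 1 + 2 * d * Real.cosh c * A with hC₁
  have hcosh := Real.one_le_cosh c
  have hC₁1 : 1 ≤ C₁ := by
    have : 0 ≤ 2 * (d : ℝ) * Real.cosh c * A := by positivity
    linarith
  refine ⟨hd1, hpc1, c / 4, min ε₀ (min (1 / C₁) (1 / 2)), by positivity, ?_, fun ε hε hε' g hg => ?_⟩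
  · refine lt_min hε₀ (lt_min (by positivity) (by norm_num))
  have hε1 : ε < ε₀ := hε'.trans_le (min_le_left _ _)
  have hε2 : ε < 1 / C₁ := hε'.trans_le ((min_le_right _ _).trans (min_le_left _ _))
  have hε3 : ε < 1 / 2 := hε'.trans_le ((min_le_right _ _).trans (min_le_right _ _))
  obtain ⟨L₂, hL₂⟩ := hnear ε hε hε1
  set q := pc d - ε with hq
  set l := c * Real.sqrt ε with hl
  have hsq : Real.sqrt ε ≤ 1 := by
    rw [Real.sqrt_le_iff]; constructor <;> linarith
  have hsqpos : 0 < Real.sqrt ε := Real.sqrt_pos.2 hε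
  have hlpos : 0 < l := by positivity
  have hlc : l ≤ c := by
    rw [hl]; nlinarith
  have hq0 : 0 ≤ q := by rw [hq]; linarith
  have hq1 : q ≤ 1 := by rw [hq]; linarith
  set B : ℝ := 1 + 2 * d * Real.cosh l * (A / ε) with hB
  have hB1 : 1 ≤ B := by
    have := (Real.cosh_pos l).le
    have : 0 ≤ 2 * (d : ℝ) * Real.cosh l * (A / ε) := by positivity
    linarith
  have hBle : B ≤ C₁ / ε := by
    rw [hB, hC₁, add_div]
    have h1 : (1 : ℝ) ≤ 1 / ε := by rw [le_div_iff₀ hε]; linarith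
    have h2 : Real.cosh l ≤ Real.cosh c := by
      rw [Real.cosh_le_cosh, abs_of_pos hlpos, abs_of_pos hc]; exact hlc
    have h3 : 2 * (d : ℝ) * Real.cosh l * (A / ε) ≤ 2 * d * Real.cosh c * A / ε := by
      rw [mul_div_assoc]
      refine mul_le_mul_of_nonneg_right ?_ (by positivity)
      exact mul_le_mul_of_nonneg_left h2 (by positivity)
    linarith
  have hlogε : 0 < Real.log (1 / ε) := by
    apply Real.log_pos
    rw [lt_div_iff₀ hε]; linarith
  have hlogB : Real.log B ≤ 2 * Real.log (1 / ε) := by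
    have h1 : Real.log B ≤ Real.log (C₁ / ε) := Real.log_le_log (by linarith) hBle
    have h2 : C₁ / ε ≤ (1 / ε) ^ 2 := by
      have : C₁ ≤ 1 / ε := by
        rw [lt_div_iff₀ (by linarith)] at hε2
        rw [le_div_iff₀ hε]; linarith
      rw [sq]
      calc C₁ / ε = C₁ * (1 / ε) := by ring
        _ ≤ 1 / ε * (1 / ε) := mul_le_mul_of_nonneg_right this (by positivity)
    have h3 : Real.log (C₁ / ε) ≤ Real.log ((1 / ε) ^ 2) := Real.log_le_log (by positivity) h2
    rw [Real.log_pow] at h3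
    push_cast at h3
    linarith
  have hp0 : 0 ≤ 1 - pc d + ε := by linarith
  have hp1 : 1 - pc d + ε ≤ 1 := by linarith
  have h1p : 1 - (1 - pc d + ε) = q := by rw [hq]; ring
  refine timeConst_ge hp0 hp1 hg (A := 2 * (A / ε)) (B := B) (l := l) (by positivity) hB1 (by positivity) ?_ ?_
  · -- c' log B < l
    have hlogB0 : 0 ≤ Real.log B := Real.log_nonneg hB1
    calc c / 4 * Real.sqrt ε / Real.log (1 / ε) * Real.log B
        ≤ c / 4 * Real.sqrt ε / Real.log (1 / ε) * (2 * Real.log (1 / ε)) :=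
          mul_le_mul_of_nonneg_left hlogB (by positivity)
      _ = l / 2 := by rw [hl]; field_simp; norm_num
      _ < l := by linarith
  · intro n k m
    rw [h1p]
    exact FI_box hq0 hq1 hlpos.le hL₂ n k m

end FI

end Pool.Agent.helper66.LE
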