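import Pool.Agent.helper66.LE.FL
import Pool.Agent.helper23.LE.TH
import Pool.Agent.helper37.LE.KB
import Pool.Agent.helper57.LE.PC
import Pool.Agent.helper73.LE.DC

/-!
# The time constant is not differentiable at `1 - p_c(d)` in high dimension
-/

open Finset Classical MeasureTheory Filter Topology

namespace Pool.Agent.helper66.LE

theorem theta_mono (d n : ℕ) {q q' : ℝ} (h0 : 0 ≤ q) (h : q ≤ q') (h1 : q' ≤ 1) :
    theta d n q ≤ theta d n q' := by
  refine Pr_mono_q _ ?_ h0 h h1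
  rintro F F' hF ⟨x, hx, hi, hc⟩
  exact ⟨x, hx, hi, hc.mono hF⟩

/-- below `1 - pc` the time constant vanishes. -/
theorem timeConst_eq_zero {d : ℕ} [NeZero d] (hpc : pc d < 1) {p g : ℝ} (h0 : 0 ≤ p) (h : p < 1 - pc d)
    (hg : IsTimeConst d p g) : g = 0 := by
  have hpc0 : 0 < pc d := pc_pos (Nat.one_le_iff_ne_zero.2 (NeZero.ne d))
  have hq : IsTimeConst d (1 - (1 - p)) g := by simpa using hg
  refine timeConst_zero (q := 1 - p) (by linarith) (by linarith) hq ?_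
  obtain ⟨q', hq1, hq2⟩ := exists_between (show pc d < min (1 - p) 1 from lt_min (by linarith) hpc)
  obtain ⟨c, hc, hθ⟩ := theta_ge hq1 (hq2.trans_le (min_le_right _ _))
  exact ⟨c, hc, fun n hn => (hθ n hn).trans (theta_mono d n (by linarith)
    (hq2.le.trans (min_le_left _ _)) (by linarith))⟩

/-- a function which vanishes on the left of `a` and grows faster than linearly on the right of `a` is not
differentiable at `a`. -/
theorem not_differentiableAt_of {g : ℝ → ℝ} {a δ c ε₀ : ℝ} (hδ : 0 < δ) (hleft : ∀ x, a - δ < x → x < a → g x = 0)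
    (hc : 0 < c) (hε₀ : 0 < ε₀)
    (hright : ∀ ε, 0 < ε → ε < ε₀ → c * Real.sqrt ε / Real.log (1 / ε) ≤ g (a + ε)) :
    ¬ DifferentiableAt ℝ g a := by
  intro hd
  -- the value at `a`
  have hcont := hd.continuousAt
  have hga : g a = 0 := by
    have h1 : Tendsto g (𝓝[<] a) (𝓝 (g a)) := hcont.tendsto.mono_left nhdsWithin_le_nhds
    have h2 : Tendsto g (𝓝[<] a) (𝓝 0) := by
      refine tendsto_const_nhds.congr' ?_
      filter_upwards [Ioo_mem_nhdsLT (show a - δ < a by linarith)] with x hx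
      exact (hleft x hx.1 hx.2).symm
    exact tendsto_nhds_unique h1 h2
  -- the derivative bounds the slope
  have hderiv := hd.hasDerivAt
  have hslope : ∃ K : ℝ, 0 < K ∧ ∀ᶠ x in 𝓝[>] a, g x ≤ K * (x - a) := by
    refine ⟨|deriv g a| + 1, by positivity, ?_⟩
    have h1 := (hasDerivAt_iff_isLittleO.1 hderiv).def (show (0 : ℝ) < 1 by norm_num)
    have h2 : ∀ᶠ x in 𝓝[>] a, ‖g x - g a - (x - a) • deriv g a‖ ≤ 1 * ‖x - a‖ := nhdsWithin_le_nhds h1
    filter_upwards [h2, self_mem_nhdsWithin] with x hx hxa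
    have hxa' : 0 < x - a := sub_pos.2 hxa
    rw [hga, sub_zero, one_mul, Real.norm_eq_abs, Real.norm_eq_abs, abs_of_pos hxa', smul_eq_mul] at hx
    have h3 := (abs_le.1 hx).2
    have h4 : (x - a) * deriv g a ≤ (x - a) * |deriv g a| :=
      mul_le_mul_of_nonneg_left (le_abs_self _) hxa'.le
    nlinarith
  obtain ⟨K, hK, hKx⟩ := hslope
  -- but `sqrt ε / log (1/ε)` is not `O(ε)`
  have hlim : Tendsto (fun ε : ℝ => Real.sqrt ε * Real.log (1 / ε)) (𝓝[>] 0) (𝓝 0) := by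
    have h1 := tendsto_log_mul_rpow_nhdsGT_zero (show (0 : ℝ) < 1 / 2 by norm_num)
    have h2 := h1.neg
    rw [neg_zero] at h2
    refine h2.congr' ?_
    filter_upwards [self_mem_nhdsWithin] with ε hε
    rw [Real.sqrt_eq_rpow, one_div ε, Real.log_inv]
    ring
  have hsmall : ∀ᶠ ε in 𝓝[>] (0 : ℝ), Real.sqrt ε * Real.log (1 / ε) < c / K := by
    exact hlim.eventually (gt_mem_nhds (show (0 : ℝ) < c / K by positivity))
  have hKx' : ∀ᶠ ε in 𝓝[>] (0 : ℝ), g (a + ε) ≤ K * ε := by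
    have ht : Tendsto (fun ε : ℝ => a + ε) (𝓝[>] 0) (𝓝[>] a) := by
      refine tendsto_nhdsWithin_iff.2 ⟨?_, ?_⟩
      · have : Tendsto (fun ε : ℝ => a + ε) (𝓝 0) (𝓝 (a + 0)) := (continuous_const.add continuous_id).tendsto 0
        rw [add_zero] at this
        exact this.mono_left nhdsWithin_le_nhds
      · filter_upwards [self_mem_nhdsWithin] with ε hε
        exact lt_add_of_pos_right a hε
    filter_upwards [ht.eventually hKx] with ε hε
    simpa using hε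
  have hmem : ∀ᶠ ε in 𝓝[>] (0 : ℝ), 0 < ε ∧ ε < min ε₀ 1 := by
    filter_upwards [Ioo_mem_nhdsGT (show (0 : ℝ) < min ε₀ 1 from lt_min hε₀ one_pos)] with ε hε
    exact ⟨hε.1, hε.2⟩
  obtain ⟨ε, h1, h2, h3, h4⟩ := (hsmall.and (hKx'.and hmem)).exists
  have h5 := hright ε h3 (h4.trans_le (min_le_left _ _))
  have hlog : 0 < Real.log (1 / ε) := by
    apply Real.log_pos
    rw [lt_div_iff₀ h3]
    linarith [h4.trans_le (min_le_right ε₀ 1)]
  have hs : 0 < Real.sqrt ε := Real.sqrt_pos.2 h3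
  have h6 : c * Real.sqrt ε / Real.log (1 / ε) ≤ K * ε := h5.trans h2
  rw [div_le_iff₀ hlog] at h6
  rw [lt_div_iff₀ hK] at h1
  have h7 : ε = Real.sqrt ε * Real.sqrt ε := (Real.mul_self_sqrt h3.le).symm
  have h8 : c * Real.sqrt ε ≤ (K * (Real.sqrt ε * Real.log (1 / ε))) * Real.sqrt ε := by
    calc c * Real.sqrt ε ≤ K * ε * Real.log (1 / ε) := h6
      _ = K * (Real.sqrt ε * Real.sqrt ε) * Real.log (1 / ε) := by rw [← h7]
      _ = (K * (Real.sqrt ε * Real.log (1 / ε))) * Real.sqrt ε := by ring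
  have h9 : c ≤ K * (Real.sqrt ε * Real.log (1 / ε)) := le_of_mul_le_mul_right h8 hs
  linarith

theorem main : ∃ d₀ : ℕ, ∀ d ≥ d₀, ∀ [NeZero d], ∃ g : ℝ → ℝ,
    (∀ p, 0 ≤ p → p ≤ 1 → IsTimeConst d p (g p)) ∧
    0 < pcrit d ∧ pcrit d < 1 ∧
    (∀ p, 0 ≤ p → p < 1 - pcrit d → g p = 0) ∧
    (∃ c ε₀ : ℝ, 0 < c ∧ 0 < ε₀ ∧ ∀ ε, 0 < ε → ε < ε₀ →
      c * Real.sqrt ε / Real.log (1 / ε) ≤ g (1 - pcrit d + ε)) ∧
    ¬ DifferentiableAt ℝ g (1 - pcrit d) := by
  obtain ⟨d₀, h⟩ := FI_lower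
  refine ⟨d₀, fun d hd _ => ?_⟩
  obtain ⟨hd1, hpc1, c, ε₀, hc, hε₀, hlow⟩ := h d hd
  have hpc0 : 0 < pc d := pc_pos (by omega)
  rw [pcrit_eq (by omega) hpc1]
  have hex : ∀ p : ℝ, ∃ g, 0 ≤ p → p ≤ 1 → IsTimeConst d p g := by
    intro p
    by_cases hp : 0 ≤ p ∧ p ≤ 1
    · obtain ⟨g, hg⟩ := exists_timeConst (d := d) hp.1 hp.2
      exact ⟨g, fun _ _ => hg⟩
    · exact ⟨0, fun h0 h1 => absurd ⟨h0, h1⟩ hp⟩
  choose g hg using hex
  have hleft : ∀ p, 0 ≤ p → p < 1 - pc d → g p = 0 := fun p h0 hp =>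
    timeConst_eq_zero hpc1 h0 hp (hg p h0 (by linarith))
  have hright : ∀ ε, 0 < ε → ε < min ε₀ (pc d) → c * Real.sqrt ε / Real.log (1 / ε) ≤ g (1 - pc d + ε) := by
    intro ε hε hε'
    have h1 := hε'.trans_le (min_le_left _ _)
    have h2 := hε'.trans_le (min_le_right _ _)
    exact hlow ε hε h1 _ (hg _ (by linarith) (by linarith))
  have hmin : 0 < min ε₀ (pc d) := lt_min hε₀ hpc0
  refine ⟨g, hg, hpc0, hpc1, hleft, ⟨c, min ε₀ (pc d), hc, hmin, hright⟩, ?_⟩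
  exact not_differentiableAt_of (δ := 1 - pc d) (by linarith) (fun x h1 h2 => hleft x (by linarith) h2)
    hc hmin hright

end Pool.Agent.helper66.LE
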