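import Pool.Agent.helper66.LE.CF

/-!
# The critical exponent of the time constant in high dimension
-/

open Finset Classical MeasureTheory Filter Topology

namespace Pool.Agent.helper66.LE

/-- two-sided bounds give the critical exponent. -/
theorem exponent_of_bounds {f : ℝ → ℝ} {c ε₀ : ℝ} (hc : 0 < c) (hε₀ : 0 < ε₀)
    (hlow : ∀ ε, 0 < ε → ε < ε₀ → c * Real.sqrt ε / Real.log (1 / ε) ≤ f ε)
    (hup : ∀ η : ℝ, 0 < η → ∃ ε₁ : ℝ, 0 < ε₁ ∧ ∀ ε, 0 < ε → ε < ε₁ → f ε ≤ ε ^ (1 / 2 - η)) :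
    Tendsto (fun ε => Real.log (f ε) / Real.log ε) (𝓝[>] 0) (𝓝 (1 / 2)) := by
  rw [Metric.tendsto_nhds]
  intro η hη
  -- the logarithm is eventually smaller than a small power
  have hlim : Tendsto (fun ε : ℝ => ε ^ (η / 2) * Real.log (1 / ε)) (𝓝[>] 0) (𝓝 0) := by
    have h1 := tendsto_log_mul_rpow_nhdsGT_zero (show (0 : ℝ) < η / 2 by positivity)
    have h2 := h1.neg
    rw [neg_zero] at h2
    refine h2.congr' ?_
    filter_upwards [self_mem_nhdsWithin] with ε hε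
    rw [one_div ε, Real.log_inv]
    ring
  have hsmall : ∀ᶠ ε in 𝓝[>] (0 : ℝ), ε ^ (η / 2) * Real.log (1 / ε) < c :=
    hlim.eventually (gt_mem_nhds hc)
  obtain ⟨ε₁, hε₁, hup'⟩ := hup (η / 2) (by positivity)
  have hmem : ∀ᶠ ε in 𝓝[>] (0 : ℝ), 0 < ε ∧ ε < min ε₀ (min ε₁ 1) := by
    filter_upwards [Ioo_mem_nhdsGT (show (0 : ℝ) < min ε₀ (min ε₁ 1) from lt_min hε₀ (lt_min hε₁ one_pos))]
      with ε hε
    exact ⟨hε.1, hε.2⟩
  filter_upwards [hsmall, hmem] with ε h1 h2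
  obtain ⟨hε, h3⟩ := h2
  have h4 := h3.trans_le (min_le_left _ _)
  have h5 := h3.trans_le ((min_le_right _ _).trans (min_le_left _ _))
  have h6 := h3.trans_le ((min_le_right _ _).trans (min_le_right _ _))
  have hlog : Real.log ε < 0 := Real.log_neg hε h6
  have hlog' : 0 < Real.log (1 / ε) := by
    rw [one_div, Real.log_inv]; linarith
  have hlo := hlow ε hε h4
  have hup'' := hup' ε hε h5
  have hpos : 0 < f ε := lt_of_lt_of_le (by have := Real.sqrt_pos.2 hε; positivity) hlo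
  -- lower bound
  have hlo2 : ε ^ (1 / 2 + η / 2) ≤ f ε := by
    refine le_trans ?_ hlo
    rw [le_div_iff₀ hlog', Real.rpow_add hε, ← Real.sqrt_eq_rpow]
    calc Real.sqrt ε * ε ^ (η / 2) * Real.log (1 / ε) = Real.sqrt ε * (ε ^ (η / 2) * Real.log (1 / ε)) := by ring
      _ ≤ Real.sqrt ε * c := mul_le_mul_of_nonneg_left h1.le (Real.sqrt_nonneg _)
      _ = c * Real.sqrt ε := mul_comm _ _
  have l1 : (1 / 2 + η / 2) * Real.log ε ≤ Real.log (f ε) := by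
    rw [← Real.log_rpow hε]
    exact Real.log_le_log (by positivity) hlo2
  have l2 : Real.log (f ε) ≤ (1 / 2 - η / 2) * Real.log ε := by
    rw [← Real.log_rpow hε]
    exact Real.log_le_log hpos hup''
  rw [Real.dist_eq, abs_lt]
  constructor
  · have : 1 / 2 - η / 2 ≤ Real.log (f ε) / Real.log ε := by
      rw [le_div_iff_of_neg hlog]; linarith
    linarith
  · have : Real.log (f ε) / Real.log ε ≤ 1 / 2 + η / 2 := by
      rw [div_le_iff_of_neg hlog]; linarith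
    linarith

theorem main2 : ∃ d₀ : ℕ, ∀ d ≥ d₀, ∀ [NeZero d], ∃ g : ℝ → ℝ,
    (∀ p, 0 ≤ p → p ≤ 1 → IsTimeConst d p (g p)) ∧
    0 < pcrit d ∧ pcrit d < 1 ∧
    (∀ p, 0 ≤ p → p ≤ 1 - pcrit d → g p = 0) ∧
    (∃ c ε₀ : ℝ, 0 < c ∧ 0 < ε₀ ∧ ∀ ε, 0 < ε → ε < ε₀ →
      c * Real.sqrt ε / Real.log (1 / ε) ≤ g (1 - pcrit d + ε)) ∧
    (∀ η : ℝ, 0 < η → ∃ ε₀ : ℝ, 0 < ε₀ ∧ ∀ ε, 0 < ε → ε < ε₀ → g (1 - pcrit d + ε) ≤ ε ^ (1 / 2 - η)) ∧
    Tendsto (fun ε => Real.log (g (1 - pcrit d + ε)) / Real.log ε) (𝓝[>] 0) (𝓝 (1 / 2)) ∧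
    ¬ DifferentiableAt ℝ g (1 - pcrit d) := by
  obtain ⟨d₀, h⟩ := main
  obtain ⟨d₁, h'⟩ := upper
  obtain ⟨d₂, h''⟩ := FI_lower
  refine ⟨max d₀ (max d₁ d₂), fun d hd _ => ?_⟩
  obtain ⟨g, hg, hp0, hp1, hleft, ⟨c, ε₀, hc, hε₀, hlow⟩, hnd⟩ := h d ((le_max_left _ _).trans hd)
  have hup := h' d (((le_max_left _ _).trans (le_max_right _ _)).trans hd)
  obtain ⟨hd1, hpc1, -⟩ := h'' d (((le_max_right _ _).trans (le_max_right _ _)).trans hd)
  have hcrit : pcrit d = pc d := pcrit_eq (by omega) hpc1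
  have hup2 : ∀ η : ℝ, 0 < η → ∃ ε₀ : ℝ, 0 < ε₀ ∧ ∀ ε, 0 < ε → ε < ε₀ →
      g (1 - pcrit d + ε) ≤ ε ^ (1 / 2 - η) := by
    intro η hη
    obtain ⟨ε₁, hε₁, h1⟩ := hup η hη
    refine ⟨min ε₁ (pcrit d), lt_min hε₁ hp0, fun ε hε hε' => ?_⟩
    have h2 := hε'.trans_le (min_le_left _ _)
    have h3 := hε'.trans_le (min_le_right _ _)
    refine h1 ε hε h2 _ ?_
    rw [← hcrit]
    exact hg _ (by linarith) (by linarith)
  refine ⟨g, hg, hp0, hp1, fun p h0 hp => ?_, ⟨c, ε₀, hc, hε₀, hlow⟩, hup2,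
    exponent_of_bounds hc hε₀ hlow hup2, hnd⟩
  rcases hp.lt_or_eq with hlt | heq
  · exact hleft p h0 hlt
  · -- at the critical point: monotonicity and the upper bound
    have hge : 0 ≤ g p := timeConst_nonneg h0 (by linarith) (hg p h0 (by linarith))
    refine le_antisymm ?_ hge
    obtain ⟨ε₁, hε₁, h1⟩ := hup2 (1 / 4) (by norm_num)
    have hlim : Tendsto (fun ε : ℝ => ε ^ (1 / 4 : ℝ)) (𝓝[>] 0) (𝓝 0) := by
      have hcont : Continuous fun ε : ℝ => ε ^ (1 / 4 : ℝ) := Real.continuous_rpow_const (by norm_num)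
      have := hcont.tendsto 0
      rw [Real.zero_rpow (by norm_num)] at this
      exact this.mono_left nhdsWithin_le_nhds
    refine ge_of_tendsto hlim ?_
    filter_upwards [Ioo_mem_nhdsGT (show (0 : ℝ) < min ε₁ (pcrit d) from lt_min hε₁ hp0)] with ε hε
    have h2 := hε.2.trans_le (min_le_left _ _)
    have h3 := hε.2.trans_le (min_le_right _ _)
    have h4 := h1 ε hε.1 h2
    rw [show (1 : ℝ) / 2 - 1 / 4 = 1 / 4 by norm_num] at h4
    refine le_trans ?_ h4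
    have hε0 := hε.1
    exact timeConst_mono h0 (by linarith) (by linarith) (hg p h0 (by linarith))
      (hg (1 - pcrit d + ε) (by linarith) (by linarith))

end Pool.Agent.helper66.LE
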